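import Mathlib

/-!
# Basic facts on finite `p`-groups: Frattini subgroup and generating tuples
-/

namespace Pool.Agent.J6H84.ClassPres

open Subgroup
open scoped commutatorElement

variable {p : ℕ} [hp : Fact p.Prime] {G : Type*} [Group G]

/-- A maximal subgroup of a finite `p`-group is normal and its quotient is of order `p`. -/
lemma card_quot_coatom [Finite G] (hG : IsPGroup p G) {M : Subgroup G} (hM : IsCoatom M) :
    M.Normal ∧ Nat.card (G ⧸ M) = p := by
  have hnil : Group.IsNilpotent G := hG.isNilpotent
  have hnorm : M.Normal := NormalizerCondition.normal_of_coatom M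
    (Group.normalizerCondition_of_isNilpotent (G := G)) hM
  refine ⟨hnorm, ?_⟩
  obtain ⟨n, hn⟩ := (IsPGroup.iff_card (p := p)).1 hG
  obtain ⟨m, hm⟩ := (IsPGroup.iff_card (p := p)).1 (hG.to_subgroup M)
  have hcard := Subgroup.card_eq_card_quotient_mul_card_subgroup M
  have hmn : m < n := by
    by_contra hcon
    push Not at hcon
    apply hM.1
    apply Subgroup.eq_top_of_le_card
    rw [hm, hn]
    exact Nat.pow_le_pow_right hp.out.pos hcon
  obtain ⟨K, hK, hMK⟩ := Sylow.exists_subgroup_card_pow_succ (p := p) (n := m) (G := G)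
    (by rw [hn]; exact pow_dvd_pow p hmn) hm
  have hlt : M < K := by
    refine lt_of_le_of_ne hMK ?_
    intro h
    rw [← h, hm] at hK
    have := Nat.pow_right_injective hp.out.two_le hK
    omega
  have hKtop := hM.2 K hlt
  rw [hKtop, Subgroup.card_top] at hK
  rw [hK, hm, pow_succ, mul_comm] at hcard
  exact (Nat.eq_of_mul_eq_mul_right (pow_pos hp.out.pos m) hcard).symm

lemma commutator_le_frattini [Finite G] (hG : IsPGroup p G) : commutator G ≤ frattini G := by
  rw [frattini, Order.radical]
  refine le_iInf₂ fun M hM => ?_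
  obtain ⟨hn, hc⟩ := card_quot_coatom hG hM
  have : IsCyclic (G ⧸ M) := isCyclic_of_prime_card hc
  have : IsMulCommutative (G ⧸ M) := inferInstance
  rw [commutator_eq_closure, Subgroup.closure_le]
  rintro _ ⟨a, b, rfl⟩
  rw [SetLike.mem_coe, ← QuotientGroup.eq_one_iff]
  have : ((⁅a, b⁆ : G) : G ⧸ M) = ⁅(a : G ⧸ M), (b : G ⧸ M)⁆ := by
    simp [commutatorElement_def]
  rw [this, commutatorElement_eq_one_iff_mul_comm]
  exact mul_comm' _ _

lemma pow_mem_frattini [Finite G] (hG : IsPGroup p G) (x : G) : x ^ p ∈ frattini G := by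
  rw [frattini, Order.radical]
  simp only [Subgroup.mem_iInf]
  intro M hM
  obtain ⟨hn, hc⟩ := card_quot_coatom hG hM
  rw [← QuotientGroup.eq_one_iff, QuotientGroup.mk_pow, ← hc]
  exact pow_card_eq_one'

lemma exists_exponents {d : ℕ} (x : Fin d → G) (hx : closure (Set.range x) = ⊤) (y : G) :
    ∃ a : Fin d → ℤ, Abelianization.of y = ∏ i, Abelianization.of (x i) ^ a i := by
  apply Subgroup.exists_of_mem_closure_range
  have : Abelianization.of y ∈ (closure (Set.range x)).map (Abelianization.of (G := G)) := by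
    rw [hx]; exact Subgroup.mem_map_of_mem _ (Subgroup.mem_top y)
  rw [MonoidHom.map_closure] at this
  rw [← Set.range_comp] at this
  exact this

lemma of_mem_map {L : Subgroup G} (hL : commutator G ≤ L) (y : G) :
    Abelianization.of y ∈ L.map (Abelianization.of (G := G)) ↔ y ∈ L := by
  constructor
  · rintro ⟨z, hz, hzy⟩
    have : z⁻¹ * y ∈ commutator G := by
      rw [← Abelianization.ker_of, MonoidHom.mem_ker, map_mul, map_inv, hzy, inv_mul_cancel]
    have h2 := L.mul_mem hz (hL this)
    simpa using h2
  · exact fun h => Subgroup.mem_map_of_mem _ h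

/-- If all but one of the factors of a product of powers lie in a subgroup containing the
Frattini subgroup, and the exponent of the remaining one is prime to `p`, then it does too. -/
lemma mem_of_exponent [Finite G] (hG : IsPGroup p G) {L : Subgroup G} (hL : frattini G ≤ L)
    {d : ℕ} (x : Fin d → G) (a : Fin d → ℤ) {y : G}
    (hy : Abelianization.of y = ∏ i, Abelianization.of (x i) ^ a i) (hyL : y ∈ L)
    (i : Fin d) (hi : ∀ j, j ≠ i → x j ∈ L) (hai : ¬ (p : ℤ) ∣ a i) : x i ∈ L := by
  have hc : commutator G ≤ L := (commutator_le_frattini hG).trans hL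
  rw [← of_mem_map hc]
  set L' := L.map (Abelianization.of (G := G)) with hL'
  have h1 : Abelianization.of (x i) ^ a i ∈ L' := by
    have hy' : Abelianization.of y ∈ L' := Subgroup.mem_map_of_mem _ hyL
    rw [hy, ← Finset.mul_prod_erase _ _ (Finset.mem_univ i)] at hy'
    have h2 : ∏ j ∈ Finset.univ.erase i, Abelianization.of (x j) ^ a j ∈ L' := by
      refine Subgroup.prod_mem _ fun j hj => ?_
      exact Subgroup.zpow_mem _ (Subgroup.mem_map_of_mem _ (hi j (Finset.ne_of_mem_erase hj))) _
    exact (Subgroup.mul_mem_cancel_right _ h2).1 hy'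
  have h2 : Abelianization.of (x i) ^ (p : ℤ) ∈ L' := by
    rw [zpow_natCast, ← map_pow]
    exact Subgroup.mem_map_of_mem _ (hL (pow_mem_frattini hG _))
  have hcop : IsCoprime (a i) (p : ℤ) := by
    have := (Nat.prime_iff_prime_int.1 hp.out).irreducible.coprime_iff_not_dvd.2 hai
    exact this.symm
  obtain ⟨u, v, huv⟩ := hcop
  have h3 : Abelianization.of (x i) =
      (Abelianization.of (x i) ^ a i) ^ u * (Abelianization.of (x i) ^ (p : ℤ)) ^ v := by
    rw [← zpow_mul, ← zpow_mul, ← zpow_add, mul_comm (a i), mul_comm (p : ℤ), huv, zpow_one]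
  rw [h3]
  exact Subgroup.mul_mem _ (Subgroup.zpow_mem _ h1 _) (Subgroup.zpow_mem _ h2 _)

/-- In a generating tuple of minimal length, the exponents of an element of the Frattini
subgroup are divisible by `p`. -/
lemma dvd_exponent [Finite G] (hG : IsPGroup p G) {d : ℕ} (x : Fin d → G)
    (hd : d ≤ Group.rank G)
    (hx : closure (Set.range x) = ⊤) (a : Fin d → ℤ) {y : G}
    (hy : Abelianization.of y = ∏ i, Abelianization.of (x i) ^ a i) (hyΦ : y ∈ frattini G)
    (i : Fin d) : (p : ℤ) ∣ a i := by
  classical
  by_contra hai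
  set S : Finset G := (Finset.univ.erase i).image x with hS
  have hScard : S.card < d := by
    refine lt_of_le_of_lt Finset.card_image_le ?_
    rw [Finset.card_erase_of_mem (Finset.mem_univ i), Finset.card_univ, Fintype.card_fin]
    have := i.pos
    omega
  have hj : ∀ j, j ≠ i → x j ∈ closure (S : Set G) ⊔ frattini G := fun j hj =>
    Subgroup.mem_sup_left (Subgroup.subset_closure (by
      simp only [hS, Finset.coe_image, Finset.coe_erase, Set.mem_image]
      exact ⟨j, by simp [hj], rfl⟩))
  have hi := mem_of_exponent hG (L := closure (S : Set G) ⊔ frattini G) le_sup_right x a hy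
    (Subgroup.mem_sup_right hyΦ) i hj hai
  have htop : closure (S : Set G) ⊔ frattini G = ⊤ := by
    rw [eq_top_iff, ← hx, Subgroup.closure_le]
    rintro _ ⟨j, rfl⟩
    by_cases h : j = i
    · rw [h]; exact hi
    · exact hj j h
  have := frattini_nongenerating htop
  have := Group.rank_le this
  omega

/-- Burnside basis theorem (exchange form). -/
lemma exchange [Finite G] (hG : IsPGroup p G) {d : ℕ} (x : Fin d → G)
    (hx : closure (Set.range x) = ⊤) {y : G} (hy : y ∉ frattini G) :
    ∃ i, closure (Set.range (Function.update x i y)) = ⊤ := by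
  obtain ⟨a, ha⟩ := exists_exponents x hx y
  have hex : ∃ i, ¬ (p : ℤ) ∣ a i := by
    by_contra hcon
    push Not at hcon
    choose b hb using hcon
    apply hy
    rw [← of_mem_map (commutator_le_frattini hG), ha]
    have : ∏ i, Abelianization.of (x i) ^ a i = ∏ i, Abelianization.of ((x i ^ p) ^ b i) := by
      refine Finset.prod_congr rfl fun i _ => ?_
      rw [hb i, zpow_mul, map_zpow, zpow_natCast, map_pow]
    rw [this]
    exact Subgroup.prod_mem _ fun i _ => Subgroup.mem_map_of_mem _
      (Subgroup.zpow_mem _ (pow_mem_frattini hG _) _)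
  obtain ⟨i, hi⟩ := hex
  refine ⟨i, ?_⟩
  apply frattini_nongenerating
  have hj : ∀ j, j ≠ i → x j ∈ closure (Set.range (Function.update x i y)) ⊔ frattini G :=
    fun j hj => Subgroup.mem_sup_left (Subgroup.subset_closure
      ⟨j, by rw [Function.update_of_ne hj]⟩)
  have hi' := mem_of_exponent hG (L := closure (Set.range (Function.update x i y)) ⊔ frattini G)
    le_sup_right x a ha (Subgroup.mem_sup_left (Subgroup.subset_closure
      ⟨i, by rw [Function.update_self]⟩)) i hj hi
  rw [eq_top_iff, ← hx, Subgroup.closure_le]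
  rintro _ ⟨j, rfl⟩
  by_cases h : j = i
  · rw [h]; exact hi'
  · exact hj j h

/-- There is a generating tuple of length `rank G`. -/
lemma exists_gen_tuple (G : Type*) [Group G] [Group.FG G] :
    ∃ x : Fin (Group.rank G) → G, closure (Set.range x) = ⊤ := by
  obtain ⟨S, hS, hc⟩ := Group.rank_spec G
  refine ⟨fun i => (S.equivFin.symm (Fin.cast hS.symm i) : G), ?_⟩
  rw [← hc]
  congr 1
  ext y
  constructor
  · rintro ⟨i, rfl⟩
    exact (S.equivFin.symm (Fin.cast hS.symm i)).2
  · intro hy
    refine ⟨Fin.cast hS (S.equivFin ⟨y, hy⟩), ?_⟩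
    simp

end Pool.Agent.J6H84.ClassPres
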