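import Mathlib

/-!
# Class-preserving automorphisms
-/

namespace Pool.Agent.J6H84.ClassPres

/-- `AutC G` is the group of class-preserving automorphisms of `G`: the automorphisms `α` such
that `α x` is conjugate to `x` for every `x`. -/
def AutC (G : Type*) [Group G] : Subgroup (MulAut G) where
  carrier := {α | ∀ x, IsConj x (α x)}
  mul_mem' := by
    intro α β hα hβ x
    exact (hβ x).trans (hα (β x))
  one_mem' := fun x => IsConj.refl x
  inv_mem' := by
    intro α hα x
    have := hα (α⁻¹ x)
    rw [MulAut.apply_inv_self] at this
    exact this.symm

end Pool.Agent.J6H84.ClassPres
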