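import Pool.Agent.J6H84.ClassPres.Basic
import Pool.Agent.J6H84.ClassPres.Defs

/-!
# Class-preserving automorphisms and the extremal property
-/

namespace Pool.Agent.J6H84.ClassPres

open Subgroup
open scoped commutatorElement

variable {G : Type*} [Group G]

lemma mem_AutC {α : MulAut G} : α ∈ AutC G ↔ ∀ x, IsConj x (α x) := Iff.rfl

lemma inv_mul_mem_commutator_of_isConj {x y : G} (h : IsConj x y) :
    x⁻¹ * y ∈ commutator G := by
  obtain ⟨g, hg⟩ := isConj_iff.1 h
  rw [← hg]
  have : x⁻¹ * (g * x * g⁻¹) = ⁅x⁻¹, g⁆ := by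
    rw [commutatorElement_def]; group
  rw [this]
  exact Subgroup.commutator_mem_commutator (Subgroup.mem_top _) (Subgroup.mem_top _)

/-- The evaluation map of class-preserving automorphisms on a tuple. -/
def evalC {d : ℕ} (x : Fin d → G) (α : AutC G) : Fin d → commutator G :=
  fun i => ⟨(x i)⁻¹ * (α : MulAut G) (x i), inv_mul_mem_commutator_of_isConj (α.2 (x i))⟩

lemma evalC_injective {d : ℕ} {x : Fin d → G} (hx : closure (Set.range x) = ⊤) :
    Function.Injective (evalC x) := by
  intro α β h
  have h1 : ∀ i, (α : MulAut G) (x i) = (β : MulAut G) (x i) := by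
    intro i
    have := congrArg Subtype.val (congrFun h i)
    simpa [evalC] using this
  apply Subtype.ext
  apply MulEquiv.toMonoidHom_injective
  apply MonoidHom.eq_of_eqOn_dense hx
  rintro _ ⟨i, rfl⟩
  exact h1 i

/-- The extremal property for a tuple: every assignment `x i ↦ x i * g i` with `g i` in the
commutator subgroup extends to a class-preserving automorphism. -/
def Ext {d : ℕ} (x : Fin d → G) : Prop :=
  ∀ g : Fin d → G, (∀ i, g i ∈ commutator G) → ∃ α ∈ AutC G, ∀ i, α (x i) = x i * g i

lemma ext_iff_surj {d : ℕ} (x : Fin d → G) : Ext x ↔ Function.Surjective (evalC x) := by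
  constructor
  · intro h g
    obtain ⟨α, hα, hα'⟩ := h (fun i => g i) (fun i => (g i).2)
    refine ⟨⟨α, hα⟩, ?_⟩
    funext i
    apply Subtype.ext
    simp [evalC, hα' i]
  · intro h g hg
    obtain ⟨α, hα⟩ := h (fun i => ⟨g i, hg i⟩)
    refine ⟨α, α.2, fun i => ?_⟩
    have := congrArg Subtype.val (congrFun hα i)
    simp only [evalC] at this
    rw [← this]; group

lemma card_eq_iff_ext [Finite G] {d : ℕ} {x : Fin d → G} (hx : closure (Set.range x) = ⊤) :
    Nat.card (AutC G) = Nat.card (commutator G) ^ d ↔ Ext x := by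
  have hcard : Nat.card (Fin d → commutator G) = Nat.card (commutator G) ^ d := by
    rw [Nat.card_fun, Nat.card_eq_fintype_card (α := Fin d), Fintype.card_fin]
  rw [ext_iff_surj]
  constructor
  · intro h
    have := (Nat.bijective_iff_injective_and_card (evalC x)).2
      ⟨evalC_injective hx, by rw [h, hcard]⟩
    exact this.2
  · intro h
    rw [← hcard]
    exact Nat.card_eq_of_bijective _ ⟨evalC_injective hx, h⟩

/-- The extremal property for all generating `d`-tuples. -/
def Full (G : Type*) [Group G] (d : ℕ) : Prop :=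
  ∀ x : Fin d → G, closure (Set.range x) = ⊤ → Ext x

lemma full_of_ext [Finite G] {d : ℕ} {x : Fin d → G} (hx : closure (Set.range x) = ⊤)
    (h : Ext x) : Full G d := fun _ hy => (card_eq_iff_ext hy).1 ((card_eq_iff_ext hx).2 h)

lemma full_of_card [Finite G] {d : ℕ}
    (h : Nat.card (AutC G) = Nat.card (commutator G) ^ d) : Full G d :=
  fun _ hy => (card_eq_iff_ext hy).1 h

/-- A class-preserving automorphism preserves normal subgroups. -/
lemma map_eq_of_mem_AutC [Finite G] {α : MulAut G} (hα : α ∈ AutC G) (N : Subgroup G)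
    [N.Normal] : N.map (α : G ≃* G) = N := by
  have hle : ∀ β ∈ AutC G, N.map ((β : G ≃* G) : G →* G) ≤ N := by
    rintro β hβ _ ⟨x, hx, rfl⟩
    obtain ⟨g, hg⟩ := isConj_iff.1 (hβ x)
    simp only [MonoidHom.coe_coe]
    rw [← hg]
    exact Subgroup.Normal.conj_mem inferInstance x hx g
  refine le_antisymm (hle α hα) ?_
  intro x hx
  refine ⟨α⁻¹ x, ?_, by simp⟩
  exact hle α⁻¹ (Subgroup.inv_mem _ hα) ⟨x, hx, rfl⟩

/-- The extremal property passes to quotients. -/
lemma Ext.quotient [Finite G] {d : ℕ} {x : Fin d → G} (h : Ext x) (N : Subgroup G)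
    [N.Normal] : Ext (fun i => (x i : G ⧸ N)) := by
  intro g hg
  have hmap : (commutator G).map (QuotientGroup.mk' N) = commutator (G ⧸ N) := by
    rw [commutator_def, commutator_def, Subgroup.map_commutator,
      Subgroup.map_top_of_surjective _ (QuotientGroup.mk'_surjective N)]
  have hg' : ∀ i, ∃ t ∈ commutator G, (t : G ⧸ N) = g i := by
    intro i
    have := hg i
    rw [← hmap] at this
    obtain ⟨t, ht, htg⟩ := this
    exact ⟨t, ht, htg⟩
  choose t ht htg using hg'
  obtain ⟨α, hα, hαx⟩ := h t ht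
  refine ⟨QuotientGroup.congr N N α (map_eq_of_mem_AutC hα N), ?_, ?_⟩
  · intro y
    obtain ⟨y, rfl⟩ := QuotientGroup.mk_surjective y
    obtain ⟨k, hk⟩ := isConj_iff.1 (hα y)
    rw [isConj_iff]
    refine ⟨(k : G ⧸ N), ?_⟩
    rw [QuotientGroup.congr_mk]
    rw [← hk]
    rfl
  · intro i
    rw [QuotientGroup.congr_mk, hαx i, ← htg i]
    rfl

lemma closure_range_quotient {d : ℕ} {x : Fin d → G} (hx : closure (Set.range x) = ⊤)
    (N : Subgroup G) [N.Normal] : closure (Set.range fun i => (x i : G ⧸ N)) = ⊤ := by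
  have : (closure (Set.range x)).map (QuotientGroup.mk' N) = ⊤ := by
    rw [hx, Subgroup.map_top_of_surjective _ (QuotientGroup.mk'_surjective N)]
  rw [MonoidHom.map_closure, ← Set.range_comp] at this
  exact this

lemma Full.quotient [Finite G] {d : ℕ} {x : Fin d → G} (hx : closure (Set.range x) = ⊤)
    (h : Full G d) (N : Subgroup G) [N.Normal] : Full (G ⧸ N) d :=
  full_of_ext (closure_range_quotient hx N) ((h x hx).quotient N)

end Pool.Agent.J6H84.ClassPres
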