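import Pool.Agent.J6H84.ClassPres.SuffD

/-!
# The classification
-/

namespace Pool.Agent.J6H84.ClassPres

open Subgroup
open scoped commutatorElement

variable {p : ℕ} [hp : Fact p.Prime] {G : Type*} [Group G]

lemma lcs_one_eq_bot_of_le_one {d : ℕ} (x : Fin d → G) (hx : closure (Set.range x) = ⊤)
    (hd : d ≤ 1) : lcs G 1 = ⊥ := by
  have hcomm : ∀ i j, x i * x j = x j * x i := by
    intro i j
    have : i = j := by
      apply Fin.ext
      have := i.2; have := j.2
      omega
    rw [this]
  have h1 : ∀ i g, g * x i = x i * g := by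
    intro i g
    have hle : (⊤ : Subgroup G) ≤ Subgroup.centralizer {x i} := by
      rw [← hx, Subgroup.closure_le]
      rintro _ ⟨j, rfl⟩
      exact Subgroup.mem_centralizer_singleton_iff.2 (hcomm j i)
    exact Subgroup.mem_centralizer_singleton_iff.1 (hle (Subgroup.mem_top g))
  have h2 : ∀ g k : G, g * k = k * g := by
    intro g k
    have hle : (⊤ : Subgroup G) ≤ Subgroup.centralizer {k} := by
      rw [← hx, Subgroup.closure_le]
      rintro _ ⟨j, rfl⟩
      exact Subgroup.mem_centralizer_singleton_iff.2 (h1 j k).symm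
    exact Subgroup.mem_centralizer_singleton_iff.1 (hle (Subgroup.mem_top g))
  have h3 : lcs G 1 = ⁅(⊤ : Subgroup G), (⊤ : Subgroup G)⁆ := rfl
  rw [h3, Subgroup.commutator_eq_bot_iff_le_centralizer]
  intro g _
  rw [Subgroup.mem_centralizer_iff]
  intro k _
  exact h2 k g

/-- The classification, in terms of the lower central series. -/
theorem classification [Finite G] (hG : IsPGroup p G) :
    Nat.card (AutC G) = Nat.card (commutator G) ^ Group.rank G ↔
      (lcs G 2 = ⊥ ∧ ∀ x, x ∉ frattini G → ∀ g ∈ commutator G, IsConj x (x * g)) ∨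
      (Group.rank G = 2 ∧ IsCyclic (commutator G) ∧
        (p = 2 → ∀ t ∈ lcs G 2, ∃ b ∈ commutator G, t = b ^ 4)) ∨
      (p = 2 ∧ Group.rank G = 2 ∧ lcs G 3 = ⊥ ∧ lcs G 2 ≠ ⊥ ∧
        ∀ a ∈ commutator G, a ^ 2 = 1) := by
  constructor
  · intro h
    have hfull : Full G (Group.rank G) := full_of_card h
    by_cases h3 : lcs G 2 = ⊥
    · exact Or.inl ⟨h3, fun x hx g hg => off_of_full hG hfull hx hg⟩
    right
    obtain ⟨x, hx⟩ := exists_gen_tuple G
    have hle2 : Group.rank G ≤ 2 := by
      by_contra hcon
      push Not at hcon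
      obtain ⟨N, hNn, -, -, hN4, hN3⟩ := exists_reduction hG 2 h3
      exact false_of_three (p := p) (fun i => (x i : G ⧸ N)) (closure_range_quotient hx N)
        (hfull.quotient hx N) hcon hN4 hN3
    have hge2 : 2 ≤ Group.rank G := by
      by_contra hcon
      push Not at hcon
      apply h3
      rw [eq_bot_iff, ← lcs_one_eq_bot_of_le_one x hx (by omega)]
      exact lcs_anti (by norm_num)
    have hr : Group.rank G = 2 := le_antisymm hle2 hge2
    rw [hr] at hfull
    obtain ⟨z, hz⟩ : ∃ z : Fin 2 → G, closure (Set.range z) = ⊤ := by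
      rw [← hr]; exact exists_gen_tuple G
    have hz2 : closure {z 0, z 1} = ⊤ := by
      rw [← range_pair]
      convert hz using 2
      congr 1
      ext i; fin_cases i <;> rfl
    rcases two_necessity hG hz2 (full_iff_p2.1 hfull) with ⟨h1, h2⟩ | ⟨h1, h2, h4⟩
    · exact Or.inl ⟨hr, h1, h2⟩
    · exact Or.inr ⟨h1, hr, h2, h3, h4⟩
  · intro h
    have hpair : Group.rank G = 2 → ∃ x y : G, closure {x, y} = ⊤ := by
      intro hr
      obtain ⟨z, hz⟩ : ∃ z : Fin 2 → G, closure (Set.range z) = ⊤ := by
        rw [← hr]; exact exists_gen_tuple G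
      refine ⟨z 0, z 1, ?_⟩
      rw [← range_pair]
      convert hz using 2
      congr 1
      ext i; fin_cases i <;> rfl
    rcases h with ⟨h3, hoff⟩ | ⟨hr, hcyc, h4⟩ | ⟨hp2, hr, h4, -, hsq⟩
    · obtain ⟨x, hx⟩ := exists_gen_tuple G
      exact (card_eq_iff_ext hx).2 (ext_of_class_two hG h3 hoff x le_rfl hx)
    · obtain ⟨x, y, hxy⟩ := hpair hr
      have hf := full_of_cyclic hG hxy hcyc h4
      rw [hr]
      exact (card_eq_iff_ext (x := ![x, y]) (by rw [range_pair]; exact hxy)).2
        (hf _ (by rw [range_pair]; exact hxy))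
    · subst hp2
      obtain ⟨x, y, hxy⟩ := hpair hr
      have hf := full_of_elementary hG hxy (by rw [hr]) h4 hsq
      rw [hr]
      exact (card_eq_iff_ext (x := ![x, y]) (by rw [range_pair]; exact hxy)).2
        (hf _ (by rw [range_pair]; exact hxy))

/-- The Frattini subgroup of a finite `p`-group is contained in every subgroup containing the
commutator subgroup and all `p`-th powers. -/
lemma frattini_le_of [Finite G] (hG : IsPGroup p G) {L : Subgroup G} (h1 : commutator G ≤ L)
    (h2 : ∀ x : G, x ^ p ∈ L) : frattini G ≤ L := by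
  intro g hg
  obtain ⟨x, hx⟩ := exists_gen_tuple G
  obtain ⟨e, he⟩ := exists_exponents x hx g
  have hdvd := dvd_exponent hG x le_rfl hx e he hg
  rw [← of_mem_map h1, he]
  refine Subgroup.prod_mem _ fun i _ => ?_
  obtain ⟨m, hm⟩ := hdvd i
  rw [hm, zpow_mul]
  refine Subgroup.zpow_mem _ ?_ _
  rw [zpow_natCast, ← map_pow]
  exact Subgroup.mem_map_of_mem _ (h2 _)

/-- In class at most two, the Camina-type condition outside the Frattini subgroup is equivalent
to `Z(G/M) = Φ(G/M)` for all maximal subgroups `M` of the commutator subgroup. -/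
theorem off_iff_center [Finite G] (hG : IsPGroup p G) (h3 : lcs G 2 = ⊥) :
    (∀ x, x ∉ frattini G → ∀ g ∈ commutator G, IsConj x (x * g)) ↔
      ∀ (M : Subgroup G) [M.Normal], M ⋖ commutator G →
        Subgroup.center (G ⧸ M) = frattini (G ⧸ M) := by
  have hcen : ∀ a ∈ commutator G, ∀ g : G, g * a = a * g := fun a ha g =>
    central_of_lcs_two h3 ha g
  constructor
  · intro hoff M hMn hM
    have hGM : IsPGroup p (G ⧸ M) := hG.to_quotient M
    apply le_antisymm
    · intro x hx
      by_contra hxΦ
      obtain ⟨x, rfl⟩ := QuotientGroup.mk_surjective x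
      have hxG : x ∉ frattini G := by
        intro h
        apply hxΦ
        exact frattini_le_comap_frattini_of_surjective (QuotientGroup.mk'_surjective M) h
      apply hM.1.not_ge
      intro a ha
      obtain ⟨g, hg⟩ := isConj_iff.1 (hoff x hxG a ha)
      rw [Subgroup.mem_center_iff] at hx
      have h1 := hx (g : G ⧸ M)
      have h2 : ((x⁻¹ * (g * x * g⁻¹) : G) : G ⧸ M) = 1 := by
        simp only [QuotientGroup.mk_mul, QuotientGroup.mk_inv]
        rw [h1]; group
      rw [hg, inv_mul_cancel_left, QuotientGroup.eq_one_iff] at h2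
      exact h2
    · -- Φ(G/M) ≤ Z(G/M)
      -- p-th powers of elements of the commutator subgroup lie in M
      have hpow : ∀ a ∈ commutator G, a ^ p ∈ M := by
        intro a ha
        -- the quotient commutator / M has order p
        have hcard : (M.subgroupOf (commutator G)).Normal := inferInstance
        have hcoat : IsCoatom (M.subgroupOf (commutator G)) := by
          constructor
          · intro htop
            rw [Subgroup.subgroupOf_eq_top] at htop
            exact hM.1.not_ge htop
          · intro K hK
            have h1 : M < K.map (commutator G).subtype := by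
              refine lt_of_le_of_ne ?_ ?_
              · intro m hm
                exact ⟨⟨m, hM.1.le hm⟩, hK.le (by rw [Subgroup.mem_subgroupOf]; exact hm), rfl⟩
              · intro heq
                apply hK.ne
                rw [heq]
                exact Subgroup.comap_map_eq_self_of_injective
                  (commutator G).subtype_injective K
            have h2 : K.map (commutator G).subtype = commutator G := by
              by_contra hne
              refine hM.2 h1 (lt_of_le_of_ne ?_ hne)
              rintro _ ⟨k, _, rfl⟩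
              exact k.2
            rw [eq_top_iff]
            rintro ⟨k, hk⟩ _
            rw [← h2] at hk
            obtain ⟨k', hk', hkk⟩ := hk
            have : k' = ⟨k, h2 ▸ ⟨k', hk', hkk⟩⟩ := Subtype.ext hkk
            rw [← this]; exact hk'
        have hc := (card_quot_coatom (hG.to_subgroup (commutator G)) hcoat).2
        have h5 : ((⟨a, ha⟩ : commutator G) : commutator G ⧸ M.subgroupOf (commutator G)) ^ p
            = 1 := by
          rw [← hc]; exact pow_card_eq_one'
        rw [← QuotientGroup.mk_pow, QuotientGroup.eq_one_iff, Subgroup.mem_subgroupOf] at h5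
        exact h5
      have hmk : ∀ g k : G, ⁅(g : G ⧸ M), (k : G ⧸ M)⁆ = ((⁅g, k⁆ : G) : G ⧸ M) :=
        fun _ _ => rfl
      refine frattini_le_of hGM ?_ ?_
      · intro a ha
        have hmap : (commutator G).map (QuotientGroup.mk' M) = commutator (G ⧸ M) := map_lcs M 1
        rw [← hmap] at ha
        obtain ⟨a, ha, rfl⟩ := ha
        rw [Subgroup.mem_center_iff]
        intro g
        obtain ⟨g, rfl⟩ := QuotientGroup.mk_surjective g
        show ((g * a : G) : G ⧸ M) = ((a * g : G) : G ⧸ M)
        rw [hcen a ha g]
      · intro x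
        obtain ⟨x, rfl⟩ := QuotientGroup.mk_surjective x
        rw [Subgroup.mem_center_iff]
        intro g
        obtain ⟨g, rfl⟩ := QuotientGroup.mk_surjective g
        rw [← commutatorElement_eq_one_iff_mul_comm, ← QuotientGroup.mk_pow, hmk,
          QuotientGroup.eq_one_iff]
        have hc : ∀ v u : G, u * ⁅g, v⁆ = ⁅g, v⁆ * u := fun v u => hcen _ (comm_mem g v) u
        have : ⁅g, x ^ p⁆ = ⁅g, x⁆ ^ p := by
          rw [← zpow_natCast, comm_zpow_right hc, zpow_natCast]
        rw [this]
        exact hpow _ (comm_mem g x)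
  · intro hM x hx g hg
    -- the subgroup of commutators with x⁻¹
    have hc : ∀ v u : G, u * ⁅x⁻¹, v⁆ = ⁅x⁻¹, v⁆ * u := fun v u => hcen _ (comm_mem _ v) u
    set B : Subgroup G := (commHom x⁻¹ hc).range with hB
    have hBle : B ≤ commutator G := by
      rintro _ ⟨v, rfl⟩
      exact comm_mem _ v
    by_cases hBA : B = commutator G
    · rw [← hBA] at hg
      obtain ⟨v, hv⟩ := hg
      rw [isConj_iff]
      refine ⟨v, ?_⟩
      rw [← hv]
      show v * x * v⁻¹ = x * ⁅x⁻¹, v⁆
      rw [commutatorElement_def]; group
    · exfalso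
      have hlt : B < commutator G := lt_of_le_of_ne hBle hBA
      obtain ⟨M, hBM, hMA⟩ := exists_le_covBy_of_lt hlt
      have hMn : M.Normal := by
        constructor
        intro m hm k
        rw [hcen m (hMA.1.le hm) k, mul_inv_cancel_right]
        exact hm
      have hcenM := hM M hMA
      have hxc : (x : G ⧸ M) ∈ Subgroup.center (G ⧸ M) := by
        rw [Subgroup.mem_center_iff]
        intro v
        obtain ⟨v, rfl⟩ := QuotientGroup.mk_surjective v
        have h1 : ⁅x⁻¹, v⁆ ∈ M := hBM ⟨v, rfl⟩
        have h2 : ((⁅x⁻¹, v⁆ : G) : G ⧸ M) = 1 := by rw [QuotientGroup.eq_one_iff]; exact h1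
        have h3 : v * x = x * ⁅x⁻¹, v⁆ * v := by rw [commutatorElement_def]; group
        show ((v * x : G) : G ⧸ M) = ((x * v : G) : G ⧸ M)
        rw [h3, QuotientGroup.mk_mul, QuotientGroup.mk_mul, h2, mul_one, ← QuotientGroup.mk_mul]
      rw [hcenM] at hxc
      apply hx
      rw [frattini, Order.radical]
      simp only [Subgroup.mem_iInf]
      intro K hK
      have hMK : M ≤ K := (hMA.1.le.trans (commutator_le_frattini hG)).trans
        (frattini_le_coatom hK)
      have hcomap : (K.map (QuotientGroup.mk' M)).comap (QuotientGroup.mk' M) = K := by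
        rw [Subgroup.comap_map_eq, QuotientGroup.ker_mk', sup_eq_left]
        exact hMK
      have hcoat : IsCoatom (K.map (QuotientGroup.mk' M)) := by
        constructor
        · intro htop
          rw [htop, Subgroup.comap_top] at hcomap
          exact hK.1 hcomap.symm
        · intro L hL
          have h1 : K < L.comap (QuotientGroup.mk' M) := by
            rw [← hcomap]
            exact (Subgroup.comap_lt_comap_of_surjective
              (QuotientGroup.mk'_surjective M)).2 hL
          have h2 := hK.2 _ h1
          rw [eq_top_iff]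
          intro q _
          obtain ⟨q, rfl⟩ := QuotientGroup.mk_surjective q
          have : q ∈ L.comap (QuotientGroup.mk' M) := by rw [h2]; exact Subgroup.mem_top q
          exact this
      have h5 := frattini_le_coatom hcoat hxc
      have h6 : x ∈ (K.map (QuotientGroup.mk' M)).comap (QuotientGroup.mk' M) := h5
      rwa [hcomap] at h6

end Pool.Agent.J6H84.ClassPres
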