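import Pool.Agent.J6H84.ClassPres.Reduce

/-!
# Groups of class at least three with the extremal property are 2-generated
-/

namespace Pool.Agent.J6H84.ClassPres

open Subgroup
open scoped commutatorElement

variable {p : ℕ} [hp : Fact p.Prime] {G : Type*} [Group G]

lemma lcs_central {n : ℕ} (h : lcs G (n + 1) = ⊥) {t : G} (ht : t ∈ lcs G n) (g : G) :
    g * t = t * g := by
  have := comm_mem_lcs' ht g
  rw [h, Subgroup.mem_bot, commutatorElement_eq_one_iff_mul_comm] at this
  exact this

lemma comm_mul_right (a b c : G) : ⁅a, b * c⁆ = ⁅a, b⁆ * (b * ⁅a, c⁆ * b⁻¹) := by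
  simp only [commutatorElement_def]; group

lemma comm_mul_left (a b c : G) : ⁅a * b, c⁆ = a * ⁅b, c⁆ * a⁻¹ * ⁅a, c⁆ := by
  simp only [commutatorElement_def]; group

/-- `⁅g, ·⁆` as a homomorphism when its values are central. -/
def commHom (g : G) (h : ∀ v u : G, u * ⁅g, v⁆ = ⁅g, v⁆ * u) : G →* G where
  toFun v := ⁅g, v⁆
  map_one' := by simp
  map_mul' := by
    intro u v
    rw [comm_mul_right, h v u, mul_inv_cancel_right]

lemma comm_zpow_right {g : G} (h : ∀ v u : G, u * ⁅g, v⁆ = ⁅g, v⁆ * u) (v : G) (m : ℤ) :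
    ⁅g, v ^ m⁆ = ⁅g, v⁆ ^ m := (commHom g h).map_zpow v m

lemma comm_mul_right' {g : G} (h : ∀ v u : G, u * ⁅g, v⁆ = ⁅g, v⁆ * u) (u v : G) :
    ⁅g, u * v⁆ = ⁅g, u⁆ * ⁅g, v⁆ := (commHom g h).map_mul u v

/-- Every element of the commutator subgroup is a commutator with an entry of a generating
tuple with the extremal property. -/
lemma exists_comm_eq {d : ℕ} {x : Fin d → G} (h : Ext x) (i : Fin d) {a : G}
    (ha : a ∈ commutator G) : ∃ w, ⁅x i, w⁆ = a := by
  obtain ⟨α, hα, hα'⟩ := h (fun j => if j = i then (x i)⁻¹ * a⁻¹ * (x i) else 1) (by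
    intro j
    by_cases hj : j = i
    · simp only [hj, if_true]
      have := Subgroup.Normal.conj_mem (inferInstance : (commutator G).Normal) a⁻¹
        (Subgroup.inv_mem _ ha) (x i)⁻¹
      simpa using this
    · simp only [hj, if_false]; exact Subgroup.one_mem _)
  have h1 := hα (x i)
  rw [hα' i] at h1
  simp only [if_true] at h1
  obtain ⟨w, hw⟩ := isConj_iff.1 h1
  refine ⟨w, ?_⟩
  rw [commutatorElement_def]
  have : w * (x i)⁻¹ * w⁻¹ = (w * x i * w⁻¹)⁻¹ := by group
  rw [mul_assoc, mul_assoc, ← mul_assoc w, this, hw]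
  group

/-- Displacements of an automorphism. -/
lemma displacement_mem {C : Subgroup G} [C.Normal] {α : MulAut G} {S : Set G}
    (hS : closure S = ⊤) (h : ∀ s ∈ S, s⁻¹ * α s ∈ C) (w : G) : w⁻¹ * α w ∈ C := by
  have hw : w ∈ closure S := by rw [hS]; exact Subgroup.mem_top w
  induction hw using Subgroup.closure_induction with
  | mem s hs => exact h s hs
  | one => simp
  | mul u v _ _ hu hv =>
    have : (u * v)⁻¹ * α (u * v) = (v⁻¹ * (u⁻¹ * α u) * v) * (v⁻¹ * α v) := by
      rw [map_mul]; group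
    rw [this]
    refine C.mul_mem ?_ hv
    have := Subgroup.Normal.conj_mem inferInstance _ hu v⁻¹
    simpa using this
  | inv u _ hu =>
    have : u⁻¹⁻¹ * α u⁻¹ = (u * (u⁻¹ * α u) * u⁻¹)⁻¹ := by
      rw [map_inv]; group
    rw [this]
    exact C.inv_mem (Subgroup.Normal.conj_mem inferInstance _ hu u)

/-- Key exclusion: no extremal tuple of length at least three in a group of class exactly three
with `γ_3` of prime order. -/
lemma false_of_three {d : ℕ} (x : Fin d → G) (hx : closure (Set.range x) = ⊤)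
    (hfull : Full G d) (hd : 3 ≤ d) (h4 : lcs G 3 = ⊥) (h3 : Nat.card (lcs G 2) = p) :
    False := by
  classical
  -- a non-central element of the commutator subgroup
  have hne : ∃ g ∈ commutator G, ∃ i, ⁅g, x i⁆ ≠ 1 := by
    by_contra hcon
    push Not at hcon
    have hbot : lcs G 2 = ⊥ := by
      have : lcs G 2 = ⁅commutator G, (⊤ : Subgroup G)⁆ := rfl
      rw [this, Subgroup.commutator_eq_bot_iff_le_centralizer]
      intro g hg
      rw [← hx, Subgroup.centralizer_closure, Subgroup.mem_centralizer_iff]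
      rintro _ ⟨i, rfl⟩
      exact (commutatorElement_eq_one_iff_mul_comm.1 (hcon g hg i)).symm
    rw [hbot, Subgroup.card_bot] at h3
    exact hp.out.one_lt.ne h3
  obtain ⟨g, hg, i, hgi⟩ := hne
  have hcen : ∀ v u : G, u * ⁅g, v⁆ = ⁅g, v⁆ * u := fun v u =>
    lcs_central h4 (comm_mem_lcs (n := 1) hg v) u
  -- choose j ≠ i and k ≠ i, j
  obtain ⟨j, hj⟩ : ∃ j : Fin d, j ≠ i := by
    by_contra hcon
    push Not at hcon
    have h0 := hcon ⟨0, by omega⟩
    have h1 := hcon ⟨1, by omega⟩
    have := h0.trans h1.symm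
    simp at this
  obtain ⟨k, hki, hkj⟩ : ∃ k : Fin d, k ≠ i ∧ k ≠ j := by
    have : ∃ k : Fin d, k ∉ ({i, j} : Finset (Fin d)) := by
      by_contra hcon
      push Not at hcon
      have hsub : (Finset.univ : Finset (Fin d)) ⊆ {i, j} := fun k _ => hcon k
      have := Finset.card_le_card hsub
      rw [Finset.card_univ, Fintype.card_fin] at this
      have h2 := Finset.card_le_two (a := i) (b := j)
      omega
    obtain ⟨k, hk⟩ := this
    simp only [Finset.mem_insert, Finset.mem_singleton, not_or] at hk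
    exact ⟨k, hk.1, hk.2⟩
  -- modify x j so that it commutes with g
  have hgen : ∃ m : ℤ, ⁅g, x i⁆ ^ m = ⁅g, x j⁆ := by
    have hT : (⟨⁅g, x i⁆, comm_mem_lcs (n := 1) hg _⟩ : lcs G 2) ≠ 1 := by
      intro h; exact hgi (congrArg Subtype.val h)
    obtain ⟨m, hm⟩ := mem_zpowers_of_prime_card (h3) hT
      (g' := (⟨⁅g, x j⁆, comm_mem_lcs (n := 1) hg _⟩ : lcs G 2))
    exact ⟨m, congrArg Subtype.val hm⟩
  obtain ⟨m, hm⟩ := hgen
  set y : Fin d → G := Function.update x j (x j * x i ^ (-m)) with hy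
  have hyj : y j = x j * x i ^ (-m) := by rw [hy, Function.update_self]
  have hyo : ∀ l, l ≠ j → y l = x l := fun l hl => by rw [hy, Function.update_of_ne hl]
  have hyi : y i = x i := hyo i hj.symm
  have hyk : y k = x k := hyo k hkj
  have hygen : closure (Set.range y) = ⊤ := by
    rw [eq_top_iff, ← hx, Subgroup.closure_le]
    rintro _ ⟨l, rfl⟩
    by_cases hl : l = j
    · have h1 : y j ∈ closure (Set.range y) := Subgroup.subset_closure ⟨j, rfl⟩
      have h2 : y i ∈ closure (Set.range y) := Subgroup.subset_closure ⟨i, rfl⟩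
      have h3 : x l = y j * y i ^ m := by
        rw [hl, hyj, hyi, mul_assoc, ← zpow_add]; simp
      rw [h3]
      exact Subgroup.mul_mem _ h1 (Subgroup.zpow_mem _ h2 _)
    · rw [← hyo l hl]; exact Subgroup.subset_closure ⟨l, rfl⟩
  have hext := hfull y hygen
  have hgj : ⁅g, y j⁆ = 1 := by
    rw [hyj, comm_mul_right' hcen, comm_zpow_right hcen, ← hm, ← zpow_add]
    simp
  have hgi' : ⁅g, y i⁆ ≠ 1 := by rw [hyi]; exact hgi
  -- the contradiction
  obtain ⟨w, hw⟩ := exists_comm_eq hext j (a := ⁅y i, y k⁆)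
    (Subgroup.commutator_mem_commutator (Subgroup.mem_top _) (Subgroup.mem_top _))
  obtain ⟨α, hα, hα'⟩ := hext (fun l => if l = k then g else 1) (by
    intro l
    by_cases hl : l = k
    · simp only [hl, if_true]; exact hg
    · simp only [hl, if_false]; exact Subgroup.one_mem _)
  have hαj : α (y j) = y j := by rw [hα' j]; simp [Ne.symm hkj]
  have hαi : α (y i) = y i := by rw [hα' i]; simp [Ne.symm hki]
  have hαk : α (y k) = y k * g := by rw [hα' k]; simp
  -- the subgroup C of elements of A commuting with y j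
  let C : Subgroup G := commutator G ⊓ Subgroup.centralizer {y j}
  have hCn : C.Normal := by
    constructor
    intro a ha h
    refine Subgroup.mem_inf.2 ⟨Subgroup.Normal.conj_mem inferInstance a ha.1 h, ?_⟩
    have h1 : h * a * h⁻¹ = ⁅h, a⁆ * a := by rw [commutatorElement_def]; group
    rw [h1]
    refine Subgroup.mul_mem _ ?_ ha.2
    rw [Subgroup.mem_centralizer_singleton_iff]
    exact (lcs_central h4 (comm_mem_lcs' (n := 1) ha.1 h) (y j)).symm
  have hdis : w⁻¹ * α w ∈ C := by
    refine displacement_mem hygen ?_ w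
    rintro _ ⟨l, rfl⟩
    rw [hα' l, inv_mul_cancel_left]
    by_cases hl : l = k
    · simp only [hl, if_true]
      refine Subgroup.mem_inf.2 ⟨hg, ?_⟩
      rw [Subgroup.mem_centralizer_singleton_iff]
      exact (commutatorElement_eq_one_iff_mul_comm.1 hgj)
    · simp only [hl, if_false]; exact Subgroup.one_mem _
  have hL : α ⁅y j, w⁆ = ⁅y j, w⁆ := by
    rw [map_commutatorElement, hαj]
    have : α w = w * (w⁻¹ * α w) := by group
    rw [this, comm_mul_right]
    have h0 : ⁅y j, w⁻¹ * α w⁆ = 1 := by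
      rw [commutatorElement_eq_one_iff_mul_comm]
      have := (Subgroup.mem_inf.1 hdis).2
      rw [Subgroup.mem_centralizer_singleton_iff] at this
      exact this.symm
    rw [h0]; simp
  rw [hw, map_commutatorElement, hαi, hαk, comm_mul_right] at hL
  have h5 : y k * ⁅y i, g⁆ * (y k)⁻¹ = 1 := by
    have := mul_left_cancel (a := ⁅y i, y k⁆) (b := y k * ⁅y i, g⁆ * (y k)⁻¹) (c := 1)
      (by rw [hL, mul_one])
    exact this
  have h6 : ⁅y i, g⁆ = 1 := by
    have := congrArg (fun z => (y k)⁻¹ * z * y k) h5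
    simpa [mul_assoc] using this
  apply hgi'
  rw [← commutatorElement_inv, h6, inv_one]

end Pool.Agent.J6H84.ClassPres
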