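import Pool.Agent.J6H84.ClassPres.Full

/-!
# Reduction to quotients with a small last term of the lower central series
-/

namespace Pool.Agent.J6H84.ClassPres

open Subgroup
open scoped commutatorElement

variable {p : ℕ} [hp : Fact p.Prime] {G : Type*} [Group G]

/-- `lcs G n` is the `(n+1)`-st term `γ_{n+1}(G)` of the lower central series. -/
abbrev lcs (G : Type*) [Group G] (n : ℕ) : Subgroup G := (⊤ : Subgroup G).lowerCentralSeries n

lemma lcs_one : lcs G 1 = commutator G := rfl

lemma comm_mem_lcs {n : ℕ} {a : G} (ha : a ∈ lcs G n) (g : G) : ⁅a, g⁆ ∈ lcs G (n + 1) :=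
  Subgroup.commutator_mem_commutator ha (Subgroup.mem_top g)

lemma comm_mem_lcs' {n : ℕ} {a : G} (ha : a ∈ lcs G n) (g : G) : ⁅g, a⁆ ∈ lcs G (n + 1) := by
  rw [← commutatorElement_inv]
  exact Subgroup.inv_mem _ (comm_mem_lcs ha g)

lemma lcs_anti {m n : ℕ} (h : m ≤ n) : lcs G n ≤ lcs G m :=
  Subgroup.lowerCentralSeries_antitone _ h

lemma map_lcs (N : Subgroup G) [N.Normal] (n : ℕ) :
    (lcs G n).map (QuotientGroup.mk' N) = lcs (G ⧸ N) n := by
  have := Subgroup.map_lowerCentralSeries (⊤ : Subgroup G) (QuotientGroup.mk' N) n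
  rw [Subgroup.map_top_of_surjective _ (QuotientGroup.mk'_surjective N)] at this
  exact this

lemma off_of_full [Finite G] (hG : IsPGroup p G) (h : Full G (Group.rank G)) {x : G}
    (hx : x ∉ frattini G) {g : G} (hg : g ∈ commutator G) : IsConj x (x * g) := by
  obtain ⟨y, hy⟩ := exists_gen_tuple G
  obtain ⟨i, hi⟩ := exchange hG y hy hx
  obtain ⟨α, hα, hα'⟩ := h _ hi (Function.update 1 i g) (by
    intro j
    by_cases hj : j = i
    · subst hj; rw [Function.update_self]; exact hg
    · rw [Function.update_of_ne hj]; exact Subgroup.one_mem _)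
  have := hα' i
  rw [Function.update_self, Function.update_self] at this
  rw [← this]
  exact hα x

/-- Reduction lemma: if `γ_{n+1}(G) ≠ 1` then some quotient by a normal subgroup
`N ≤ γ_{n+1}(G)` has `γ_{n+2} = 1` and `γ_{n+1}` of order `p`. -/
lemma exists_reduction [Finite G] (hG : IsPGroup p G) (n : ℕ) (h : lcs G n ≠ ⊥) :
    ∃ N : Subgroup G, ∃ _ : N.Normal, N ≤ lcs G n ∧ lcs G (n + 1) ≤ N ∧
      lcs (G ⧸ N) (n + 1) = ⊥ ∧ Nat.card (lcs (G ⧸ N) n) = p := by
  have hnil : Group.IsNilpotent G := hG.isNilpotent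
  -- γ_{n+2} is a proper subgroup of γ_{n+1}
  have hlt : lcs G (n + 1) ≠ lcs G n := by
    intro heq
    apply h
    have hstab : ∀ m, lcs G (n + m) = lcs G n := by
      intro m
      induction m with
      | zero => rfl
      | succ m ih =>
        have : lcs G (n + (m + 1)) = ⁅lcs G (n + m), ⊤⁆ := rfl
        rw [this, ih]
        exact heq
    obtain ⟨m, hm⟩ := (Subgroup.nilpotent_iff_lowerCentralSeries (G := G)).1 hnil
    have h2 : lcs G (n + m) = ⊥ := by
      rw [eq_bot_iff, ← hm]
      exact lcs_anti (by omega)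
    rw [← hstab m, h2]
  have hle : lcs G (n + 1) ≤ lcs G n := lcs_anti (Nat.le_succ n)
  set P := lcs G n with hP
  set K : Subgroup P := (lcs G (n + 1)).subgroupOf P with hK
  obtain ⟨a, ha⟩ := (IsPGroup.iff_card (p := p)).1 (hG.to_subgroup P)
  obtain ⟨b, hb⟩ := (IsPGroup.iff_card (p := p)).1 ((hG.to_subgroup P).to_subgroup K)
  have hba : b < a := by
    by_contra hcon
    push Not at hcon
    have htop : K = ⊤ := by
      apply Subgroup.eq_top_of_le_card
      rw [ha, hb]; exact Nat.pow_le_pow_right hp.out.pos hcon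
    rw [hK, Subgroup.subgroupOf_eq_top] at htop
    exact hlt (le_antisymm hle htop)
  obtain ⟨K', hK'c, hKK'⟩ := Sylow.exists_subgroup_card_pow_prime_le p (n := b) (m := a - 1)
    (G := P) (by rw [ha]; exact pow_dvd_pow p (by omega)) K hb (by omega)
  set N : Subgroup G := K'.map P.subtype with hN
  have hNP : N ≤ P := by
    rintro _ ⟨x, _, rfl⟩
    exact x.2
  have hlN : lcs G (n + 1) ≤ N := by
    intro x hx
    refine ⟨⟨x, hle hx⟩, hKK' ?_, rfl⟩
    rw [hK, Subgroup.mem_subgroupOf]
    exact hx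
  have hNn : N.Normal := by
    constructor
    intro x hx g
    have : g * x * g⁻¹ = ⁅g, x⁆ * x := by rw [commutatorElement_def]; group
    rw [this]
    exact N.mul_mem (hlN (comm_mem_lcs' (hNP hx) g)) hx
  refine ⟨N, hNn, hNP, hlN, ?_, ?_⟩
  · rw [← map_lcs, Subgroup.map_eq_bot_iff, QuotientGroup.ker_mk']
    exact hlN
  · rw [← map_lcs, ← Subgroup.relIndex_ker, QuotientGroup.ker_mk', Subgroup.relIndex]
    have h1 : N.subgroupOf P = K' :=
      Subgroup.comap_map_eq_self_of_injective P.subtype_injective K'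
    have h2 := Subgroup.card_mul_index K'
    rw [hK'c, ha] at h2
    have h3 : p ^ a = p ^ (a - 1) * p := by rw [← pow_succ]; congr 1; omega
    rw [h3] at h2
    show (N.subgroupOf P).index = p
    rw [h1]
    exact Nat.eq_of_mul_eq_mul_left (pow_pos hp.out.pos _) h2

end Pool.Agent.J6H84.ClassPres
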