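import Pool.Agent.J6H84.ClassPres.Two

/-!
# Sufficiency in class at most two
-/

namespace Pool.Agent.J6H84.ClassPres

open Subgroup
open scoped commutatorElement IsMulCommutative

variable {p : ℕ} [hp : Fact p.Prime] {G : Type*} [Group G]

lemma of_surjective : Function.Surjective (Abelianization.of (G := G)) :=
  QuotientGroup.mk_surjective

lemma mem_commutator_iff_of {y : G} : y ∈ commutator G ↔ Abelianization.of y = 1 := by
  rw [← MonoidHom.mem_ker, Abelianization.ker_of]

lemma central_of_lcs_two (h3 : lcs G 2 = ⊥) {a : G} (ha : a ∈ commutator G) (g : G) :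
    g * a = a * g := lcs_central (n := 1) h3 ha g

/-- Relations between the generators modulo the commutator subgroup are trivial on it. -/
lemma zpow_eq_one_of_relation [Finite G] (hG : IsPGroup p G) (h3 : lcs G 2 = ⊥)
    (hoff : ∀ x, x ∉ frattini G → ∀ g ∈ commutator G, IsConj x (x * g))
    {d : ℕ} (x : Fin d → G) (hd : d ≤ Group.rank G) (hx : closure (Set.range x) = ⊤)
    (a : Fin d → ℤ) (ha : ∏ i, Abelianization.of (x i) ^ a i = 1) {g : G}
    (hg : g ∈ commutator G) (i : Fin d) : g ^ a i = 1 := by
  have hS : ∀ k : ℕ, (∀ j, ((p : ℤ) ^ k) ∣ a j) ∨ (∀ j, g ^ a j = 1) := by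
    intro k
    induction k with
    | zero => left; intro j; simp
    | succ k ih =>
      rcases ih with ih | ih
      · choose b hb using ih
        by_cases hall : ∀ j, (p : ℤ) ∣ b j
        · left
          intro j
          rw [hb j, pow_succ]
          exact mul_dvd_mul_left _ (hall j)
        · right
          push Not at hall
          obtain ⟨i₀, hi₀⟩ := hall
          obtain ⟨y, hy⟩ := of_surjective (∏ j, Abelianization.of (x j) ^ b j)
          have hyΦ : y ∉ frattini G := fun h => hi₀ (dvd_exponent hG x hd hx b hy h i₀)
          have hyk : y ^ (p ^ k) ∈ commutator G := by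
            rw [mem_commutator_iff_of, map_pow, hy, ← Finset.prod_pow, ← ha]
            refine Finset.prod_congr rfl fun j _ => ?_
            rw [hb j, mul_comm, zpow_mul, ← zpow_natCast]
            push_cast
            rfl
          obtain ⟨h, hh⟩ := isConj_iff.1 (hoff y hyΦ g hg)
          have h1 : h * y ^ (p ^ k) * h⁻¹ = y ^ (p ^ k) := by
            rw [central_of_lcs_two h3 hyk h, mul_inv_cancel_right]
          have h2 : h * y ^ (p ^ k) * h⁻¹ = (y * g) ^ (p ^ k) := by
            rw [← hh, ← MulAut.conj_apply, ← MulAut.conj_apply, map_pow]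
          have h4 : Commute y g := central_of_lcs_two h3 hg y
          rw [h1, h4.mul_pow] at h2
          have h5 : g ^ (p ^ k) = 1 :=
            (mul_left_cancel (a := y ^ (p ^ k)) (by rw [mul_one]; exact h2)).symm
          intro j
          rw [hb j, zpow_mul]
          have : g ^ ((p : ℤ) ^ k) = 1 := by
            rw [← h5, ← zpow_natCast]; push_cast; rfl
          rw [this, one_zpow]
      · right; exact ih
  obtain ⟨n, hn⟩ := (IsPGroup.iff_card (p := p)).1 hG
  rcases hS n with h | h
  · obtain ⟨b, hb⟩ := h i
    have : g ^ ((p : ℤ) ^ n) = 1 := by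
      have h1 : g ^ (p ^ n) = 1 := by rw [← hn]; exact pow_card_eq_one'
      rw [← h1, ← zpow_natCast]; push_cast; rfl
    rw [hb, zpow_mul, this, one_zpow]
  · exact h i

/-- Sufficiency in class at most two. -/
theorem ext_of_class_two [Finite G] (hG : IsPGroup p G) (h3 : lcs G 2 = ⊥)
    (hoff : ∀ x, x ∉ frattini G → ∀ g ∈ commutator G, IsConj x (x * g))
    {d : ℕ} (x : Fin d → G) (hd : d ≤ Group.rank G) (hx : closure (Set.range x) = ⊤) :
    Ext x := by
  intro g hg
  -- work in the centre
  have hcen : ∀ a ∈ commutator G, a ∈ Subgroup.center G := fun a ha =>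
    Subgroup.mem_center_iff.2 (central_of_lcs_two h3 ha)
  let z : Fin d → Subgroup.center G := fun i => ⟨g i, hcen _ (hg i)⟩
  choose e he using fun y => exists_exponents x hx y
  let f : G → Subgroup.center G := fun y => ∏ i, z i ^ e y i
  -- independence of the exponents
  have hind : ∀ y (a : Fin d → ℤ), Abelianization.of y = ∏ i, Abelianization.of (x i) ^ a i →
      f y = ∏ i, z i ^ a i := by
    intro y a hya
    have h1 : ∏ i, Abelianization.of (x i) ^ (e y i - a i) = 1 := by
      simp_rw [zpow_sub]
      rw [Finset.prod_mul_distrib, Finset.prod_inv_distrib, ← he y, ← hya, mul_inv_cancel]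
    have h2 : ∀ i, z i ^ (e y i - a i) = 1 := by
      intro i
      apply Subtype.ext
      have := zpow_eq_one_of_relation hG h3 hoff x hd hx _ h1 (hg i) i
      simpa [z] using this
    show ∏ i, z i ^ e y i = _
    refine Finset.prod_congr rfl fun i _ => ?_
    have := h2 i
    rw [zpow_sub, mul_inv_eq_one] at this
    exact this
  have hfmul : ∀ y w, f (y * w) = f y * f w := by
    intro y w
    rw [hind (y * w) (fun i => e y i + e w i)]
    · simp_rw [zpow_add]
      rw [Finset.prod_mul_distrib]
    · simp_rw [zpow_add]
      rw [map_mul, Finset.prod_mul_distrib, ← he y, ← he w]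
  have hfA : ∀ y, ((f y : Subgroup.center G) : G) ∈ commutator G := by
    intro y
    have : f y ∈ (commutator G).comap (Subgroup.center G).subtype := by
      refine Subgroup.prod_mem _ fun i _ => Subgroup.zpow_mem _ ?_ _
      exact hg i
    exact this
  have hfone : ∀ y ∈ commutator G, f y = 1 := by
    intro y hy
    rw [hind y 0]
    · simp
    · rw [mem_commutator_iff_of] at hy
      simp [hy]
  have hfx : ∀ i, f (x i) = z i := by
    intro i
    rw [hind (x i) (Pi.single i 1)]
    · rw [Finset.prod_eq_single i]
      · simp
      · intro j _ hj; simp [Pi.single_eq_of_ne hj]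
      · simp
    · rw [Finset.prod_eq_single i]
      · simp
      · intro j _ hj; simp [Pi.single_eq_of_ne hj]
      · simp
  have hcomm : ∀ y w : G, (f y : G) * w = w * (f y : G) := fun y w =>
    (Subgroup.mem_center_iff.1 (f y).2 w).symm
  let φ : G →* G :=
    { toFun := fun y => y * (f y : G)
      map_one' := by
        show (1 : G) * (f 1 : G) = 1
        rw [hfone 1 (Subgroup.one_mem _)]; simp
      map_mul' := by
        intro y w
        show y * w * (f (y * w) : G) = y * (f y : G) * (w * (f w : G))
        rw [hfmul]
        simp only [Subgroup.coe_mul]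
        calc y * w * ((f y : G) * (f w : G)) = y * (w * (f y : G)) * (f w : G) := by group
          _ = y * ((f y : G) * w) * (f w : G) := by rw [hcomm]
          _ = _ := by group }
  have hφ : ∀ y, φ y = y * (f y : G) := fun _ => rfl
  have hinj : Function.Injective φ := by
    rw [injective_iff_map_eq_one]
    intro y hy
    rw [hφ] at hy
    have hyA : y ∈ commutator G := by
      rw [mul_eq_one_iff_eq_inv] at hy
      rw [hy]; exact Subgroup.inv_mem _ (hfA y)
    rw [hfone y hyA] at hy
    simpa using hy
  have hbij : Function.Bijective φ := Finite.injective_iff_bijective.1 hinj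
  refine ⟨MulEquiv.ofBijective φ hbij, ?_, ?_⟩
  · intro y
    show IsConj y (φ y)
    rw [hφ]
    have hS : ∀ k : ℕ, (∀ j, ((p : ℤ) ^ k) ∣ e y j) ∨ IsConj y (y * (f y : G)) := by
      intro k
      induction k with
      | zero => left; intro j; simp
      | succ k ih =>
        rcases ih with ih | ih
        · choose b hb using ih
          by_cases hall : ∀ j, (p : ℤ) ∣ b j
          · left
            intro j
            rw [hb j, pow_succ]
            exact mul_dvd_mul_left _ (hall j)
          · right
            push Not at hall
            obtain ⟨i₀, hi₀⟩ := hall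
            obtain ⟨w, hw⟩ := of_surjective (∏ j, Abelianization.of (x j) ^ b j)
            have hwΦ : w ∉ frattini G := fun h => hi₀ (dvd_exponent hG x hd hx b hw h i₀)
            have hwk : Abelianization.of (w ^ (p ^ k)) = Abelianization.of y := by
              rw [map_pow, hw, ← Finset.prod_pow, he y]
              refine Finset.prod_congr rfl fun j _ => ?_
              rw [hb j, mul_comm, zpow_mul, ← zpow_natCast]
              push_cast
              rfl
            set u := (w ^ (p ^ k))⁻¹ * y with hu
            have huA : u ∈ commutator G := by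
              rw [mem_commutator_iff_of, hu, map_mul, map_inv, hwk, inv_mul_cancel]
            have hy : y = w ^ (p ^ k) * u := by rw [hu]; group
            have hfy : f y = f w ^ (p ^ k) := by
              have hfpow : ∀ n : ℕ, f (w ^ n) = f w ^ n := by
                intro n
                induction n with
                | zero => rw [pow_zero, pow_zero, hfone 1 (Subgroup.one_mem _)]
                | succ n ih => rw [pow_succ, hfmul, ih, pow_succ]
              nth_rewrite 1 [hy]
              rw [hfmul, hfone u huA, mul_one, hfpow]
            obtain ⟨h, hh⟩ := isConj_iff.1 (hoff w hwΦ _ (hfA w))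
            rw [isConj_iff]
            refine ⟨h, ?_⟩
            have h1 : h * u * h⁻¹ = u := by
              rw [central_of_lcs_two h3 huA h, mul_inv_cancel_right]
            have h2 : h * w ^ (p ^ k) * h⁻¹ = w ^ (p ^ k) * (f w : G) ^ (p ^ k) := by
              rw [← MulAut.conj_apply, map_pow, MulAut.conj_apply, hh]
              have : Commute w (f w : G) := (hcomm w w).symm
              rw [this.mul_pow]
            calc h * y * h⁻¹ = h * (w ^ (p ^ k) * u) * h⁻¹ := by rw [← hy]
              _ = (h * w ^ (p ^ k) * h⁻¹) * (h * u * h⁻¹) := by group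
              _ = w ^ (p ^ k) * ((f w : G) ^ (p ^ k) * u) := by rw [h1, h2]; group
              _ = w ^ (p ^ k) * (u * (f w : G) ^ (p ^ k)) := by
                  have : Commute (f w : G) u := hcomm w u
                  rw [(this.pow_left _).eq]
              _ = y * (f y : G) := by
                  rw [hfy, ← mul_assoc, ← hy]; simp
        · right; exact ih
    obtain ⟨n, hn⟩ := (IsPGroup.iff_card (p := p)).1 hG
    rcases hS n with h | h
    · choose b hb using h
      have hfy : f y = 1 := by
        show ∏ i, z i ^ e y i = 1
        refine Finset.prod_eq_one fun i _ => ?_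
        rw [hb i, zpow_mul]
        have : z i ^ ((p : ℤ) ^ n) = 1 := by
          apply Subtype.ext
          have h1 : g i ^ (p ^ n) = 1 := by rw [← hn]; exact pow_card_eq_one'
          simp only [z, Subgroup.coe_zpow, Subgroup.coe_one]
          rw [← h1, ← zpow_natCast]; push_cast; rfl
        rw [this, one_zpow]
      rw [hfy, Subgroup.coe_one, mul_one]
    · exact h
  · intro i
    show φ (x i) = x i * g i
    rw [hφ, hfx i]

end Pool.Agent.J6H84.ClassPres
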