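import Pool.Agent.J6H84.ClassPres.TwoD

/-!
# Sufficiency in the 2-generated case with abelian commutator subgroup
-/

namespace Pool.Agent.J6H84.ClassPres

open Subgroup
open scoped commutatorElement

variable {p : ℕ} [hp : Fact p.Prime] {G : Type*} [Group G]

/-- Equivariant endomorphisms of the commutator subgroup, as functions on the group. -/
structure IsEqEndo (ρ : G → G) : Prop where
  mem : ∀ a ∈ commutator G, ρ a ∈ commutator G
  map_mul : ∀ a ∈ commutator G, ∀ b ∈ commutator G, ρ (a * b) = ρ a * ρ b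
  map_conj : ∀ a ∈ commutator G, ∀ g, ρ (g * a * g⁻¹) = g * ρ a * g⁻¹

lemma IsEqEndo.map_one {ρ : G → G} (h : IsEqEndo ρ) : ρ 1 = 1 := by
  have := h.map_mul 1 (Subgroup.one_mem _) 1 (Subgroup.one_mem _)
  rw [mul_one] at this
  exact mul_left_cancel (a := ρ 1) (by rw [mul_one]; exact this.symm)

lemma IsEqEndo.map_inv {ρ : G → G} (h : IsEqEndo ρ) {a : G} (ha : a ∈ commutator G) :
    ρ a⁻¹ = (ρ a)⁻¹ := by
  have := h.map_mul a ha a⁻¹ (Subgroup.inv_mem _ ha)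
  rw [mul_inv_cancel, h.map_one] at this
  exact (inv_eq_of_mul_eq_one_right this.symm).symm

lemma IsEqEndo.map_zpow {ρ : G → G} (h : IsEqEndo ρ) {a : G} (ha : a ∈ commutator G) (n : ℤ) :
    ρ (a ^ n) = ρ a ^ n := by
  have hnat : ∀ n : ℕ, ρ (a ^ n) = ρ a ^ n := by
    intro n
    induction n with
    | zero => rw [pow_zero, pow_zero, h.map_one]
    | succ n ih => rw [pow_succ, h.map_mul _ (Subgroup.pow_mem _ ha n) _ ha, ih, pow_succ]
  cases n with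
  | ofNat n => simpa using hnat n
  | negSucc n =>
    rw [zpow_negSucc, zpow_negSucc, h.map_inv (Subgroup.pow_mem _ ha _), hnat]

/-- Conjugation by elements of the commutator subgroup is trivial on it, so conjugations
commute on it. -/
lemma conj_conj_comm (hA : ∀ a ∈ commutator G, ∀ b ∈ commutator G, a * b = b * a)
    {a : G} (ha : a ∈ commutator G) (g h : G) :
    g * (h * a * h⁻¹) * g⁻¹ = h * (g * a * g⁻¹) * h⁻¹ := by
  have h1 : g * h = ⁅g, h⁆ * (h * g) := by rw [commutatorElement_def]; group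
  have h2 : (h * g) * a * (h * g)⁻¹ ∈ commutator G :=
    Subgroup.Normal.conj_mem inferInstance a ha _
  calc g * (h * a * h⁻¹) * g⁻¹ = (g * h) * a * (g * h)⁻¹ := by group
    _ = ⁅g, h⁆ * ((h * g) * a * (h * g)⁻¹) * ⁅g, h⁆⁻¹ := by rw [h1]; group
    _ = (h * g) * a * (h * g)⁻¹ := by
        rw [hA _ (comm_mem g h) _ h2, mul_inv_cancel_right]
    _ = _ := by group

/-- Existence of equivariant endomorphisms with prescribed value on a normal generator. -/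
lemma exists_eqEndo (hA : ∀ a ∈ commutator G, ∀ b ∈ commutator G, a * b = b * a)
    {c : G} (hc : c ∈ commutator G)
    (hgen : ∀ N : Subgroup G, N.Normal → c ∈ N → commutator G ≤ N) {g : G}
    (hg : g ∈ commutator G) : ∃ ρ : G → G, IsEqEndo ρ ∧ ρ c = g := by
  let S : Subgroup G :=
    { carrier := {g | g ∈ commutator G ∧ ∃ ρ : G → G, IsEqEndo ρ ∧ ρ c = g}
      one_mem' := ⟨Subgroup.one_mem _, fun _ => 1,
        ⟨fun _ _ => Subgroup.one_mem _, fun _ _ _ _ => by simp, fun _ _ _ => by simp⟩, rfl⟩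
      mul_mem' := by
        rintro u v ⟨hu, ρ, hρ, rfl⟩ ⟨hv, σ, hσ, rfl⟩
        refine ⟨Subgroup.mul_mem _ hu hv, fun a => ρ a * σ a, ⟨?_, ?_, ?_⟩, rfl⟩
        · intro a ha
          exact Subgroup.mul_mem _ (hρ.mem a ha) (hσ.mem a ha)
        · intro a ha b hb
          rw [hρ.map_mul a ha b hb, hσ.map_mul a ha b hb]
          calc ρ a * ρ b * (σ a * σ b) = ρ a * (ρ b * σ a) * σ b := by group
            _ = ρ a * (σ a * ρ b) * σ b := by rw [hA _ (hρ.mem b hb) _ (hσ.mem a ha)]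
            _ = _ := by group
        · intro a ha g
          rw [hρ.map_conj a ha, hσ.map_conj a ha]; group
      inv_mem' := by
        rintro u ⟨hu, ρ, hρ, rfl⟩
        refine ⟨Subgroup.inv_mem _ hu, fun a => (ρ a)⁻¹, ⟨?_, ?_, ?_⟩, rfl⟩
        · intro a ha
          exact Subgroup.inv_mem _ (hρ.mem a ha)
        · intro a ha b hb
          rw [hρ.map_mul a ha b hb, hA _ (hρ.mem a ha) _ (hρ.mem b hb), mul_inv_rev]
        · intro a ha g
          rw [hρ.map_conj a ha]; group }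
  have hSn : S.Normal := by
    constructor
    rintro n ⟨hn, ρ, hρ, rfl⟩ h
    refine ⟨Subgroup.Normal.conj_mem inferInstance _ hn h, fun a => h * ρ a * h⁻¹,
      ⟨?_, ?_, ?_⟩, rfl⟩
    · intro a ha
      exact Subgroup.Normal.conj_mem inferInstance _ (hρ.mem a ha) h
    · intro a ha b hb
      rw [hρ.map_mul a ha b hb]; group
    · intro a ha g
      rw [hρ.map_conj a ha, conj_conj_comm hA (hρ.mem a ha)]
  have hcS : c ∈ S := ⟨hc, id, ⟨fun _ h => h, fun _ _ _ _ => rfl, fun _ _ _ => rfl⟩, rfl⟩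
  exact (hgen S hSn hcS hg).2

/-- The endomorphism attached to two equivariant endomorphisms. -/
lemma crossed (y g h : G) : ⁅(g * h)⁻¹, y⁆ = (h⁻¹ * ⁅g⁻¹, y⁆ * h⁻¹⁻¹) * ⁅h⁻¹, y⁆ := by
  simp only [commutatorElement_def]; group

/-- Sufficiency criterion in the 2-generated metabelian case. -/
theorem p2_of_conj [Finite G] (hG : IsPGroup p G) {x y : G} (hxy : closure {x, y} = ⊤)
    (hA : ∀ a ∈ commutator G, ∀ b ∈ commutator G, a * b = b * a)
    (hconj : ∀ ρ σ : G → G, IsEqEndo ρ → IsEqEndo σ → ∀ g,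
      IsConj g (g * (ρ ⁅g⁻¹, y⁆ * σ ⁅g⁻¹, x⁆))) : Full G 2 := by
  refine full_of_ext (x := ![x, y]) (by rw [range_pair]; exact hxy) ?_
  intro k hk
  have hgen1 : ∀ N : Subgroup G, N.Normal → ⁅x⁻¹, y⁆ ∈ N → commutator G ≤ N := by
    intro N hN hc
    have : ⁅x, y⁆ = (x * ⁅x⁻¹, y⁆ * x⁻¹)⁻¹ := by simp only [commutatorElement_def]; group
    refine comm_le_of_pair hxy ?_
    rw [this]
    exact N.inv_mem (hN.conj_mem _ hc x)
  have hgen2 : ∀ N : Subgroup G, N.Normal → ⁅y⁻¹, x⁆ ∈ N → commutator G ≤ N := by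
    intro N hN hc
    have : ⁅x, y⁆ = y * ⁅y⁻¹, x⁆ * y⁻¹ := by simp only [commutatorElement_def]; group
    refine comm_le_of_pair hxy ?_
    rw [this]
    exact hN.conj_mem _ hc y
  obtain ⟨ρ, hρ, hρc⟩ := exists_eqEndo hA (comm_mem x⁻¹ y) hgen1 (hk 0)
  obtain ⟨σ, hσ, hσc⟩ := exists_eqEndo hA (comm_mem y⁻¹ x) hgen2 (hk 1)
  let φ : G →* G :=
    { toFun := fun g => g * (ρ ⁅g⁻¹, y⁆ * σ ⁅g⁻¹, x⁆)
      map_one' := by
        simp only [inv_one, commutatorElement_one_left]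
        rw [hρ.map_one, hσ.map_one]; simp
      map_mul' := by
        intro g h
        have e1 : ρ ⁅(g * h)⁻¹, y⁆ = (h⁻¹ * ρ ⁅g⁻¹, y⁆ * h⁻¹⁻¹) * ρ ⁅h⁻¹, y⁆ := by
          rw [crossed, hρ.map_mul _ (Subgroup.Normal.conj_mem inferInstance _ (comm_mem _ _) _) _
            (comm_mem _ _), hρ.map_conj _ (comm_mem _ _)]
        have e2 : σ ⁅(g * h)⁻¹, x⁆ = (h⁻¹ * σ ⁅g⁻¹, x⁆ * h⁻¹⁻¹) * σ ⁅h⁻¹, x⁆ := by
          rw [crossed, hσ.map_mul _ (Subgroup.Normal.conj_mem inferInstance _ (comm_mem _ _) _) _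
            (comm_mem _ _), hσ.map_conj _ (comm_mem _ _)]
        rw [e1, e2]
        have h1 : h⁻¹ * σ ⁅g⁻¹, x⁆ * h⁻¹⁻¹ ∈ commutator G :=
          Subgroup.Normal.conj_mem inferInstance _ (hσ.mem _ (comm_mem _ _)) _
        have h2 := hA _ (hρ.mem _ (comm_mem h⁻¹ y)) _ h1
        calc g * h * (h⁻¹ * ρ ⁅g⁻¹, y⁆ * h⁻¹⁻¹ * ρ ⁅h⁻¹, y⁆ *
              (h⁻¹ * σ ⁅g⁻¹, x⁆ * h⁻¹⁻¹ * σ ⁅h⁻¹, x⁆))
            = g * h * (h⁻¹ * ρ ⁅g⁻¹, y⁆ * h⁻¹⁻¹ * (ρ ⁅h⁻¹, y⁆ *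
              (h⁻¹ * σ ⁅g⁻¹, x⁆ * h⁻¹⁻¹)) * σ ⁅h⁻¹, x⁆) := by group
          _ = g * (ρ ⁅g⁻¹, y⁆ * σ ⁅g⁻¹, x⁆) * (h * (ρ ⁅h⁻¹, y⁆ * σ ⁅h⁻¹, x⁆)) := by
              rw [h2]; group }
  have hφ : ∀ g, φ g = g * (ρ ⁅g⁻¹, y⁆ * σ ⁅g⁻¹, x⁆) := fun _ => rfl
  have hsurj : Function.Surjective φ := by
    rw [← MonoidHom.range_eq_top]
    apply frattini_nongenerating
    rw [eq_top_iff]
    intro g _
    have h1 : φ g ∈ φ.range := ⟨g, rfl⟩
    have h2 : ρ ⁅g⁻¹, y⁆ * σ ⁅g⁻¹, x⁆ ∈ frattini G := commutator_le_frattini hG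
      (Subgroup.mul_mem _ (hρ.mem _ (comm_mem _ _)) (hσ.mem _ (comm_mem _ _)))
    have h3 : g = φ g * (ρ ⁅g⁻¹, y⁆ * σ ⁅g⁻¹, x⁆)⁻¹ := by rw [hφ]; group
    rw [h3]
    exact Subgroup.mul_mem_sup h1 (Subgroup.inv_mem _ h2)
  have hbij : Function.Bijective φ := Finite.surjective_iff_bijective.1 hsurj
  refine ⟨MulEquiv.ofBijective φ hbij, fun g => hconj ρ σ hρ hσ g, ?_⟩
  intro i
  show φ (![x, y] i) = ![x, y] i * k i
  fin_cases i
  · show φ x = x * k 0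
    have : ⁅x⁻¹, x⁆ = 1 := by simp [commutatorElement_def]
    rw [hφ, this, hσ.map_one, hρc, mul_one]
  · show φ y = y * k 1
    have : ⁅y⁻¹, y⁆ = 1 := by simp [commutatorElement_def]
    rw [hφ, this, hρ.map_one, hσc, one_mul]

end Pool.Agent.J6H84.ClassPres
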