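import Pool.Agent.J6H84.ClassPres.SuffB
import Pool.Agent.J6H84.ClassPres.SuffA

/-!
# Sufficiency in the 2-generated cases
-/

namespace Pool.Agent.J6H84.ClassPres

open Subgroup Finset
open scoped commutatorElement

variable {p : ℕ} [hp : Fact p.Prime] {G : Type*} [Group G]

lemma lte_geom {q : ℤ} (hq : (Odd p ∧ q = p) ∨ (p = 2 ∧ q = 4)) (m : ℤ) (k n : ℕ)
    (h : (p : ℤ) ^ k ∣ ∑ i ∈ range n, (1 + q * m) ^ i) : p ^ k ∣ n := by
  by_cases hm : m = 0
  · subst hm
    simp only [mul_zero, add_zero, one_pow, sum_const, card_range, nsmul_eq_mul, mul_one] at h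
    exact_mod_cast h
  set l : ℤ := 1 + q * m with hl
  have hq0 : q ≠ 0 := by
    rcases hq with ⟨_, rfl⟩ | ⟨_, rfl⟩
    · exact_mod_cast hp.out.ne_zero
    · norm_num
  have hl1 : l - 1 ≠ 0 := by
    rw [hl, add_sub_cancel_left]; exact mul_ne_zero hq0 hm
  have hpl : ¬ (p : ℤ) ∣ l := by
    have hpq : (p : ℤ) ∣ q := by
      rcases hq with ⟨_, rfl⟩ | ⟨rfl, rfl⟩
      · exact dvd_refl _
      · norm_num
    rw [hl]
    intro hd
    have : (p : ℤ) ∣ 1 := (Int.dvd_add_left (Dvd.dvd.mul_right hpq m)).1 hd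
    have h2 := hp.out.two_le
    have h3 := Int.le_of_dvd one_pos this
    omega
  have hemu : emultiplicity (p : ℤ) (l ^ n - 1 ^ n) =
      emultiplicity (p : ℤ) (l - 1) + emultiplicity p n := by
    rcases hq with ⟨hodd, hq⟩ | ⟨h2, hq⟩
    · exact Int.emultiplicity_pow_sub_pow hp.out hodd (by
        rw [hl, add_sub_cancel_left, hq]; exact dvd_mul_right _ _) hpl n
    · subst h2
      have h4 := Int.two_pow_sub_pow' (x := l) (y := 1) n (by
        rw [hl, add_sub_cancel_left, hq]; exact dvd_mul_right _ _) (by exact_mod_cast hpl)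
      have h5 : emultiplicity (2 : ℤ) (n : ℤ) = emultiplicity 2 n := by
        exact_mod_cast Int.natCast_emultiplicity 2 n
      rw [h5] at h4
      exact_mod_cast h4
  have hgeom := geom_sum_mul l n
  have hmul : emultiplicity (p : ℤ) (l ^ n - 1 ^ n) =
      emultiplicity (p : ℤ) (∑ i ∈ range n, l ^ i) + emultiplicity (p : ℤ) (l - 1) := by
    rw [one_pow, ← hgeom, emultiplicity_mul (Nat.prime_iff_prime_int.1 hp.out)]
  have hfin : emultiplicity (p : ℤ) (l - 1) ≠ ⊤ := by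
    rw [Ne, emultiplicity_eq_top, not_not]
    rw [Int.finiteMultiplicity_iff]
    refine ⟨?_, hl1⟩
    simp only [Int.natAbs_natCast]
    exact hp.out.ne_one
  have heq : emultiplicity (p : ℤ) (∑ i ∈ range n, l ^ i) = emultiplicity p n := by
    rw [hmul, add_comm] at hemu
    exact (WithTop.add_left_inj hfin).1 hemu
  rw [pow_dvd_iff_le_emultiplicity] at h ⊢
  rw [← heq]; exact h

/-- Commutator with a power when the element acts as a power on the commutator. -/
lemma comm_pow_geom {g h : G} {l : ℤ} (hl : h * ⁅g, h⁆ * h⁻¹ = ⁅g, h⁆ ^ l) (n : ℕ) :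
    ⁅g, h ^ n⁆ = ⁅g, h⁆ ^ (∑ i ∈ range n, l ^ i) := by
  have hn : ∀ n : ℕ, h ^ n * ⁅g, h⁆ * (h ^ n)⁻¹ = ⁅g, h⁆ ^ (l ^ n) := by
    intro n
    induction n with
    | zero => simp
    | succ n ih =>
      have : h ^ (n + 1) * ⁅g, h⁆ * (h ^ (n + 1))⁻¹ = h * (h ^ n * ⁅g, h⁆ * (h ^ n)⁻¹) * h⁻¹ := by
        rw [pow_succ']; group
      rw [this, ih, ← MulAut.conj_apply, map_zpow, MulAut.conj_apply, hl, ← zpow_mul, pow_succ,
        mul_comm]
  induction n with
  | zero => simp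
  | succ n ih =>
    rw [pow_succ, comm_mul_right, ih, hn, ← zpow_add, sum_range_succ]

/-- In a finite `p`-group with cyclic commutator subgroup on which the group acts by powers
congruent to one modulo `p` (modulo `4` if `p = 2`), the commutators with a fixed element form
a subgroup. -/
lemma comm_fixed_subgroup [Finite G] (hG : IsPGroup p G) {q : ℤ}
    (hq : (Odd p ∧ q = p) ∨ (p = 2 ∧ q = 4)) {c : G} (hc : commutator G = zpowers c)
    (hact : ∀ h : G, ∃ m : ℤ, h * c * h⁻¹ = c ^ (1 + q * m)) (g : G) {u : G}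
    (hu : u ∈ Subgroup.closure (Set.range fun h : G => ⁅g, h⁆)) : ∃ h, ⁅g, h⁆ = u := by
  classical
  set K := Subgroup.closure (Set.range fun h : G => ⁅g, h⁆) with hK
  have hKA : K ≤ zpowers c := by
    rw [← hc, hK, Subgroup.closure_le]
    rintro _ ⟨h, rfl⟩
    exact comm_mem g h
  -- K is cyclic
  have hcyc : IsCyclic K := by
    have : IsCyclic (zpowers c) := inferInstance
    exact isCyclic_of_injective (Subgroup.inclusion hKA) (Subgroup.inclusion_injective hKA)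
  obtain ⟨⟨e', he'K⟩, he'⟩ := hcyc.exists_generator
  have hKe' : ∀ v ∈ K, v ∈ zpowers e' := by
    intro v hv
    obtain ⟨n, hn⟩ := he' ⟨v, hv⟩
    exact ⟨n, congrArg Subtype.val hn⟩
  by_cases htriv : e' = 1
  · have := hKe' u hu
    rw [htriv, Subgroup.mem_zpowers_iff] at this
    obtain ⟨n, hn⟩ := this
    rw [one_zpow] at hn
    exact ⟨1, by rw [← hn]; simp⟩
  obtain ⟨s, hs⟩ := hG e'
  have hs' : e' ^ ((p : ℤ) ^ s) = 1 := by
    rw [← hs, ← zpow_natCast]; push_cast; rfl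
  have hex : ∃ h₀, ⁅g, h₀⁆ ∉ zpowers (e' ^ p) := by
    by_contra hcon
    push Not at hcon
    have hle : K ≤ zpowers (e' ^ p) := by
      rw [hK, Subgroup.closure_le]
      rintro _ ⟨h, rfl⟩
      exact hcon h
    obtain ⟨m, hm⟩ := hle he'K
    simp only at hm
    apply htriv
    have : e' ∈ (⊥ : Subgroup G) := by
      refine mem_of_coprime (a := 1 - p * m) (b := (p : ℤ) ^ s) ?_ ?_ ?_
      · rw [Subgroup.mem_bot, zpow_sub, zpow_one, zpow_mul, zpow_natCast, hm, mul_inv_cancel]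
      · rw [Subgroup.mem_bot]; exact hs'
      · apply IsCoprime.pow_right
        exact ⟨1, m, by ring⟩
    exact (Subgroup.mem_bot).1 this
  obtain ⟨h₀, hh₀⟩ := hex
  set e := ⁅g, h₀⁆ with he
  have heK : e ∈ K := Subgroup.subset_closure ⟨h₀, rfl⟩
  obtain ⟨j, hj⟩ := hKe' e heK
  simp only at hj
  have hpj : ¬ (p : ℤ) ∣ j := by
    rintro ⟨i, rfl⟩
    apply hh₀
    refine ⟨i, ?_⟩
    simp only
    rw [← hj, zpow_mul, zpow_natCast]
  have he'e : e' ∈ zpowers e := by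
    refine mem_of_coprime (a := j) (b := (p : ℤ) ^ s) ?_ ?_ ?_
    · rw [hj]; exact Subgroup.mem_zpowers _
    · rw [hs']; exact Subgroup.one_mem _
    · apply IsCoprime.pow_right
      exact (((Nat.prime_iff_prime_int.1 hp.out).irreducible.coprime_iff_not_dvd).2 hpj).symm
  have hKe : K ≤ zpowers e := by
    intro v hv
    obtain ⟨n, hn⟩ := hKe' v hv
    rw [← hn]
    exact Subgroup.zpow_mem _ he'e n
  -- the action on e
  obtain ⟨m, hm⟩ := hact h₀
  obtain ⟨i, hi⟩ := hKA heK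
  simp only at hi
  have hae : h₀ * e * h₀⁻¹ = e ^ (1 + q * m) := by
    rw [← hi, ← MulAut.conj_apply, map_zpow, MulAut.conj_apply, hm, ← zpow_mul, ← zpow_mul,
      mul_comm]
  obtain ⟨k, hk⟩ := (IsPGroup.iff_orderOf.1 hG) e
  have hfinj : Function.Injective (fun n : Fin (orderOf e) =>
      (⟨⁅g, h₀ ^ (n : ℕ)⁆, (by
        rw [comm_pow_geom hae]
        exact Subgroup.zpow_mem _ (Subgroup.mem_zpowers _) _)⟩ : zpowers e)) := by
    have key : ∀ n₁ n₂ : ℕ, n₁ < n₂ → n₂ < orderOf e → ⁅g, h₀ ^ n₁⁆ ≠ ⁅g, h₀ ^ n₂⁆ := by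
      intro n₁ n₂ h12 h2 heq
      obtain ⟨t, rfl⟩ := Nat.exists_eq_add_of_lt h12
      have h3 : n₁ + t + 1 = n₁ + (t + 1) := by ring
      rw [h3, pow_add, comm_mul_right] at heq
      have h4 : h₀ ^ n₁ * ⁅g, h₀ ^ (t + 1)⁆ * (h₀ ^ n₁)⁻¹ = 1 :=
        (mul_left_cancel (a := ⁅g, h₀ ^ n₁⁆) (by rw [mul_one]; exact heq)).symm
      have h5 : ⁅g, h₀ ^ (t + 1)⁆ = 1 := by
        rw [← MulAut.conj_apply] at h4
        exact (MulEquiv.map_eq_one_iff _).1 h4
      rw [comm_pow_geom hae, ← orderOf_dvd_iff_zpow_eq_one, hk] at h5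
      have h6 := lte_geom (p := p) hq m k (t + 1) (by exact_mod_cast h5)
      have h7 := Nat.le_of_dvd (Nat.succ_pos t) h6
      rw [← hk] at h7
      omega
    intro n₁ n₂ h12
    have h12' : ⁅g, h₀ ^ (n₁ : ℕ)⁆ = ⁅g, h₀ ^ (n₂ : ℕ)⁆ := congrArg Subtype.val h12
    apply Fin.ext
    rcases lt_trichotomy (n₁ : ℕ) (n₂ : ℕ) with h | h | h
    · exact absurd h12' (key _ _ h n₂.2)
    · exact h
    · exact absurd h12'.symm (key _ _ h n₁.2)
  have hfsurj := ((Nat.bijective_iff_injective_and_card _).2 ⟨hfinj, by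
    rw [Nat.card_zpowers, Nat.card_eq_fintype_card, Fintype.card_fin]⟩).2
  obtain ⟨n, hn⟩ := hfsurj ⟨u, hKe hu⟩
  exact ⟨h₀ ^ (n : ℕ), congrArg Subtype.val hn⟩

/-- Sufficiency: cyclic commutator subgroup. -/
theorem full_of_cyclic [Finite G] (hG : IsPGroup p G) {x y : G} (hxy : closure {x, y} = ⊤)
    (hcyc : IsCyclic (commutator G))
    (h4 : p = 2 → ∀ t ∈ lcs G 2, ∃ b ∈ commutator G, t = b ^ 4) : Full G 2 := by
  obtain ⟨⟨c, hcA⟩, hcgen⟩ := hcyc.exists_generator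
  have hc : commutator G = zpowers c := by
    apply le_antisymm
    · intro a ha
      obtain ⟨n, hn⟩ := hcgen ⟨a, ha⟩
      exact ⟨n, congrArg Subtype.val hn⟩
    · rw [Subgroup.zpowers_le]; exact hcA
  have hA : ∀ a ∈ commutator G, ∀ b ∈ commutator G, a * b = b * a := by
    intro a ha b hb
    rw [hc] at ha hb
    obtain ⟨i, rfl⟩ := ha
    obtain ⟨j, rfl⟩ := hb
    exact (Commute.zpow_zpow_self c i j).eq
  have hact : ∃ q : ℤ, ((Odd p ∧ q = p) ∨ (p = 2 ∧ q = 4)) ∧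
      ∀ h : G, ∃ m : ℤ, h * c * h⁻¹ = c ^ (1 + q * m) := by
    by_cases hp2 : p = 2
    · refine ⟨4, Or.inr ⟨hp2, rfl⟩, ?_⟩
      intro h
      obtain ⟨b, hb, hbt⟩ := h4 hp2 _ (comm_mem_lcs' (n := 1) hcA h)
      rw [hc] at hb
      obtain ⟨m, rfl⟩ := hb
      refine ⟨m, ?_⟩
      simp only at hbt
      have : h * c * h⁻¹ = ⁅h, c⁆ * c := by rw [commutatorElement_def]; group
      rw [this, hbt, ← zpow_natCast, ← zpow_mul, ← zpow_add_one]
      congr 1
      push_cast; ring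
    · refine ⟨p, Or.inl ⟨hp.out.odd_of_ne_two hp2, rfl⟩, ?_⟩
      intro h
      have hmem : ⁅h, c⁆ ∈ zpowers c := by rw [← hc]; exact comm_mem h c
      obtain ⟨j, hj⟩ := hmem
      simp only at hj
      have hconj : h * c * h⁻¹ = ⁅h, c⁆ * c := by rw [commutatorElement_def]; group
      by_cases hpj : (p : ℤ) ∣ j
      · obtain ⟨m, rfl⟩ := hpj
        refine ⟨m, ?_⟩
        rw [hconj, ← hj, ← zpow_add_one, add_comm]
      · refine ⟨0, ?_⟩
        obtain ⟨s, hs⟩ := hG c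
        have hs' : c ^ ((p : ℤ) ^ s) = 1 := by
          rw [← hs, ← zpow_natCast]; push_cast; rfl
        have hcl : c ∈ lcs G 2 := by
          refine mem_of_coprime (a := j) (b := (p : ℤ) ^ s) ?_ ?_ ?_
          · rw [hj]; exact comm_mem_lcs' (n := 1) hcA h
          · rw [hs']; exact Subgroup.one_mem _
          · apply IsCoprime.pow_right
            exact (((Nat.prime_iff_prime_int.1 hp.out).irreducible.coprime_iff_not_dvd).2 hpj).symm
        have hnil : Group.IsNilpotent G := hG.isNilpotent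
        have h1 : commutator G ≤ lcs G 2 := by
          rw [hc, Subgroup.zpowers_le]; exact hcl
        have h2 : lcs G 1 = ⊥ := lcs_stab (le_antisymm (lcs_anti (by norm_num)) h1)
        have h3 : c = 1 := by
          have : c ∈ lcs G 1 := hcA
          rw [h2, Subgroup.mem_bot] at this
          exact this
        rw [h3]; simp
  obtain ⟨q, hq, hact⟩ := hact
  refine p2_of_conj hG hxy hA ?_
  intro ρ σ hρ hσ g
  -- equivariant endomorphisms are power maps
  have hpow : ∀ ρ : G → G, IsEqEndo ρ → ∃ n : ℤ, ∀ a ∈ commutator G, ρ a = a ^ n := by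
    intro ρ hρ
    have h1 := hρ.mem c hcA
    rw [hc] at h1
    obtain ⟨n, hn⟩ := h1
    simp only at hn
    refine ⟨n, fun a ha => ?_⟩
    rw [hc] at ha
    obtain ⟨k, rfl⟩ := ha
    simp only
    rw [hρ.map_zpow hcA, ← hn, ← zpow_mul, ← zpow_mul, mul_comm]
  obtain ⟨n, hn⟩ := hpow ρ hρ
  obtain ⟨m, hm⟩ := hpow σ hσ
  have hmem : ρ ⁅g⁻¹, y⁆ * σ ⁅g⁻¹, x⁆ ∈ Subgroup.closure (Set.range fun h : G => ⁅g⁻¹, h⁆) := by
    rw [hn _ (comm_mem _ _), hm _ (comm_mem _ _)]
    exact Subgroup.mul_mem _ (Subgroup.zpow_mem _ (Subgroup.subset_closure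
      (Set.mem_range_self y)) _) (Subgroup.zpow_mem _ (Subgroup.subset_closure
      (Set.mem_range_self x)) _)
  obtain ⟨h, hh⟩ := comm_fixed_subgroup hG hq hc hact g⁻¹ hmem
  rw [isConj_iff]
  refine ⟨h, ?_⟩
  rw [← hh, commutatorElement_def]; group

end Pool.Agent.J6H84.ClassPres
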