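import Pool.Agent.J6H84.ClassPres.SuffC

/-!
# Sufficiency: 2-generated 2-groups of class three with elementary abelian commutator subgroup
-/

namespace Pool.Agent.J6H84.ClassPres

open Subgroup
open scoped commutatorElement

variable {G : Type*} [Group G]

/-- In class at most three the third term of the lower central series of `⟨x, y⟩` consists of
the products `⁅x, c⁆ ^ j * ⁅y, c⁆ ^ k`. -/
lemma lcs_two_form (h4 : lcs G 3 = ⊥) {x y : G} (hxy : closure {x, y} = ⊤) {t : G}
    (ht : t ∈ lcs G 2) : ∃ j k : ℤ, t = ⁅x, ⁅x, y⁆⁆ ^ j * ⁅y, ⁅x, y⁆⁆ ^ k := by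
  set c := ⁅x, y⁆ with hcdef
  set a := ⁅x, c⁆ with hadef
  set b := ⁅y, c⁆ with hbdef
  have hcA : c ∈ lcs G 1 := comm_mem x y
  have haL : a ∈ lcs G 2 := comm_mem_lcs' (n := 1) hcA x
  have hbL : b ∈ lcs G 2 := comm_mem_lcs' (n := 1) hcA y
  have hbn : (zpowers b).Normal := by
    constructor
    rintro n ⟨k, rfl⟩ g
    have : Commute g (b ^ k) := Commute.zpow_right (lcs_central h4 hbL g) k
    simp only
    rw [this.eq, mul_inv_cancel_right]
    exact ⟨k, rfl⟩
  have hle : zpowers a ⊔ zpowers b ≤ lcs G 2 := by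
    rw [sup_le_iff, Subgroup.zpowers_le, Subgroup.zpowers_le]; exact ⟨haL, hbL⟩
  have hMn : (zpowers a ⊔ zpowers b).Normal := by
    constructor
    intro n hn g
    rw [lcs_central h4 (hle hn) g, mul_inv_cancel_right]
    exact hn
  set M := zpowers a ⊔ zpowers b with hM
  have hcbar : ⁅(x : G ⧸ M), (y : G ⧸ M)⁆ = ((c : G) : G ⧸ M) := by
    rw [hcdef]; simp [commutatorElement_def]
  have hbarc : ∀ g : G ⧸ M, g * (c : G ⧸ M) = (c : G ⧸ M) * g := by
    refine central_of_commute (closure_pair_quotient hxy _) ?_ ?_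
    · rw [← commutatorElement_eq_one_iff_mul_comm]
      have : ⁅(x : G ⧸ M), (c : G ⧸ M)⁆ = ((a : G) : G ⧸ M) := by
        rw [hadef]; simp [commutatorElement_def]
      rw [this, QuotientGroup.eq_one_iff]
      exact Subgroup.mem_sup_left (Subgroup.mem_zpowers _)
    · rw [← commutatorElement_eq_one_iff_mul_comm]
      have : ⁅(y : G ⧸ M), (c : G ⧸ M)⁆ = ((b : G) : G ⧸ M) := by
        rw [hbdef]; simp [commutatorElement_def]
      rw [this, QuotientGroup.eq_one_iff]
      exact Subgroup.mem_sup_right (Subgroup.mem_zpowers _)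
  have h1 : commutator (G ⧸ M) ≤ Subgroup.center (G ⧸ M) := by
    refine comm_le_of_pair (closure_pair_quotient hxy _) ?_
    rw [Subgroup.mem_center_iff, hcbar]
    exact hbarc
  have h2 : lcs (G ⧸ M) 2 = ⊥ := by
    have : lcs (G ⧸ M) 2 = ⁅commutator (G ⧸ M), (⊤ : Subgroup (G ⧸ M))⁆ := rfl
    rw [this, Subgroup.commutator_eq_bot_iff_le_centralizer]
    intro a ha
    rw [Subgroup.mem_centralizer_iff]
    intro g _
    exact Subgroup.mem_center_iff.1 (h1 ha) g
  rw [← map_lcs, Subgroup.map_eq_bot_iff, QuotientGroup.ker_mk'] at h2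
  have h3 := h2 ht
  rw [hM, ← SetLike.mem_coe, Subgroup.mul_normal, Set.mem_mul] at h3
  obtain ⟨u, ⟨j, rfl⟩, v, ⟨k, rfl⟩, rfl⟩ := h3
  exact ⟨j, k, rfl⟩

lemma zpow_eq_one_or (u : G) (hu : u ^ 2 = 1) (n : ℤ) : u ^ n = 1 ∨ u ^ n = u := by
  rcases Int.even_or_odd' n with ⟨m, rfl | rfl⟩
  · left; rw [zpow_mul, zpow_ofNat, hu, one_zpow]
  · right; rw [zpow_add, zpow_mul, zpow_ofNat, hu, one_zpow, one_mul, zpow_one]

/-- The conjugacy class of `x` is the whole coset `x * commutator G` for a generating pair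
`x, y` in the elementary abelian case. -/
lemma isConj_of_elementary (h4 : lcs G 3 = ⊥) (hsq : ∀ a ∈ commutator G, a ^ 2 = 1)
    {x y : G} (hxy : closure {x, y} = ⊤) {u : G} (hu : u ∈ commutator G) :
    IsConj x (u * x) := by
  set c := ⁅x, y⁆ with hcdef
  set a := ⁅x, c⁆ with hadef
  set b := ⁅y, c⁆ with hbdef
  have hcA : c ∈ lcs G 1 := comm_mem x y
  have haL : a ∈ lcs G 2 := comm_mem_lcs' (n := 1) hcA x
  have hbL : b ∈ lcs G 2 := comm_mem_lcs' (n := 1) hcA y
  have hacen : ∀ g, g * a = a * g := fun g => lcs_central h4 haL g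
  have hbcen : ∀ g, g * b = b * g := fun g => lcs_central h4 hbL g
  have hcc : c * c = 1 := by rw [← pow_two]; exact hsq c hcA
  have hcinv : c⁻¹ = c := inv_eq_of_mul_eq_one_right hcc
  have haa : a ^ 2 = 1 := hsq a (lcs_anti (by norm_num : 1 ≤ 2) haL)
  have hbb : b ^ 2 = 1 := hsq b (lcs_anti (by norm_num : 1 ≤ 2) hbL)
  have hyx : MulAut.conj y x = c * x := by
    have : MulAut.conj y x = c⁻¹ * x := by
      rw [MulAut.conj_apply, hcdef, commutatorElement_def]; group
    rw [this, hcinv]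
  have hyc : MulAut.conj y c = b * c := conj_eq_comm_mul y c
  have hyb : MulAut.conj y b = b := conj_eq_self_of_commute (hbcen y)
  have hya : MulAut.conj y a = a := conj_eq_self_of_commute (hacen y)
  have hcx : MulAut.conj c x = a * x := by
    have h1 : MulAut.conj x c = a * c := conj_eq_comm_mul x c
    rw [MulAut.conj_apply] at h1 ⊢
    have h2 : x * c = a * c * x := by
      rw [← h1]; group
    have h3 : c * x = a⁻¹ * (x * c) := by rw [h2]; group
    rw [hcinv, mul_assoc, ← mul_assoc c x c, h3]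
    have ha' : a⁻¹ = a := inv_eq_of_mul_eq_one_right (by rw [← pow_two]; exact haa)
    rw [ha']
    calc a * (x * c) * c = a * x * (c * c) := by group
      _ = a * x := by rw [hcc, mul_one]
  -- the conjugates by powers of y
  have hy1 : MulAut.conj y x = c * x := hyx
  have hy2 : MulAut.conj (y ^ 2) x = b * x := by
    rw [pow_two, map_mul, MulAut.mul_apply, hyx, map_mul, hyc, hyx]
    calc b * c * (c * x) = b * (c * c) * x := by group
      _ = b * x := by rw [hcc, mul_one]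
  have hy3 : MulAut.conj (y ^ 3) x = b * (c * x) := by
    rw [pow_succ', map_mul, MulAut.mul_apply, hy2, map_mul, hyb, hyx]
  have hpa : ∀ n : ℕ, MulAut.conj (y ^ n) a = a := fun n =>
    conj_eq_self_of_commute (hacen _)
  -- all elements
  have hmain : ∀ i j k : ℤ, IsConj x (c ^ i * (a ^ j * b ^ k) * x) := by
    intro i j k
    have hshape : ∀ n : ℕ, ∀ z, MulAut.conj (y ^ n) x = z * x →
        IsConj x (a ^ j * z * x) := by
      intro n z hz
      rcases zpow_eq_one_or a haa j with h | h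
      · rw [h, one_mul, ← hz]
        exact isConj_iff.2 ⟨y ^ n, by rw [MulAut.conj_apply]⟩
      · rw [h]
        refine isConj_iff.2 ⟨y ^ n * c, ?_⟩
        rw [← MulAut.conj_apply, map_mul, MulAut.mul_apply, hcx, map_mul, hpa, hz, mul_assoc]
    have hcomm1 : Commute (c ^ i) (a ^ j) :=
      ((show Commute c a from hacen c).zpow_zpow i j)
    have hcomm2 : Commute (c ^ i) (b ^ k) :=
      ((show Commute c b from hbcen c).zpow_zpow i k)
    have e : c ^ i * (a ^ j * b ^ k) * x = a ^ j * (b ^ k * c ^ i) * x := by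
      rw [← mul_assoc (c ^ i), hcomm1.eq, mul_assoc (a ^ j), hcomm2.eq]
    rw [e]
    rcases zpow_eq_one_or c (by rw [pow_two]; exact hcc) i with hi | hi <;>
      rcases zpow_eq_one_or b hbb k with hk | hk <;> rw [hi, hk]
    · exact hshape 0 _ (by simp)
    · exact hshape 2 _ (by rw [hy2, mul_one])
    · exact hshape 1 _ (by rw [pow_one, hy1, one_mul])
    · exact hshape 3 _ (by rw [hy3, mul_assoc])
  obtain ⟨i, t, ht, rfl⟩ := comm_form hxy hu
  obtain ⟨j, k, rfl⟩ := lcs_two_form h4 hxy ht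
  exact hmain i j k

/-- Sufficiency: 2-generated 2-groups with `γ_4 = 1` and elementary abelian commutator
subgroup. -/
theorem full_of_elementary [Finite G] (hG : IsPGroup 2 G) {x y : G}
    (hxy : closure {x, y} = ⊤) (hrank : 2 ≤ Group.rank G)
    (h4 : lcs G 3 = ⊥) (hsq : ∀ a ∈ commutator G, a ^ 2 = 1) : Full G 2 := by
  have : Fact (Nat.Prime 2) := ⟨Nat.prime_two⟩
  have hA : ∀ a ∈ commutator G, ∀ b ∈ commutator G, a * b = b * a := by
    intro a ha b hb
    have h1 := hsq a ha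
    have h2 := hsq b hb
    have h3 := hsq _ (Subgroup.mul_mem _ ha hb)
    rw [pow_two] at h1 h2 h3
    have ha' : a⁻¹ = a := inv_eq_of_mul_eq_one_right h1
    have hb' : b⁻¹ = b := inv_eq_of_mul_eq_one_right h2
    have hab : (a * b)⁻¹ = a * b := inv_eq_of_mul_eq_one_right h3
    rw [← hab, mul_inv_rev, ha', hb']
  refine p2_of_conj hG hxy hA ?_
  intro ρ σ hρ hσ g
  by_cases hg : g ∈ frattini G
  · -- the commutators with g lie in γ_3
    have hg3 : ∀ h, ⁅g⁻¹, h⁆ ∈ lcs G 2 := by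
      -- preimage of the centre of G / γ_3
      have hC : g ∈ (Subgroup.center (G ⧸ lcs G 2)).comap (QuotientGroup.mk' (lcs G 2)) := by
        obtain ⟨e, he⟩ := exists_exponents ![x, y] (by rw [range_pair]; exact hxy) g
        have hdvd := dvd_exponent hG ![x, y] hrank (by rw [range_pair]; exact hxy) e he hg
        set C := (Subgroup.center (G ⧸ lcs G 2)).comap (QuotientGroup.mk' (lcs G 2)) with hC
        have hcA : commutator G ≤ C := by
          intro u hu
          rw [hC, Subgroup.mem_comap, Subgroup.mem_center_iff]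
          intro k
          obtain ⟨k, rfl⟩ := QuotientGroup.mk_surjective k
          rw [← commutatorElement_eq_one_iff_mul_comm]
          have : ⁅((k : G) : G ⧸ lcs G 2), (QuotientGroup.mk' (lcs G 2)) u⁆ =
            ((⁅k, u⁆ : G) : G ⧸ lcs G 2) := rfl
          rw [this, QuotientGroup.eq_one_iff]
          exact comm_mem_lcs' (n := 1) hu k
        have hsqC : ∀ v : G, v ^ 2 ∈ C := by
          intro v
          rw [hC, Subgroup.mem_comap, Subgroup.mem_center_iff]
          intro k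
          obtain ⟨k, rfl⟩ := QuotientGroup.mk_surjective k
          rw [← commutatorElement_eq_one_iff_mul_comm]
          have : ⁅((k : G) : G ⧸ lcs G 2), (QuotientGroup.mk' (lcs G 2)) (v ^ 2)⁆ =
            ((⁅k, v ^ 2⁆ : G) : G ⧸ lcs G 2) := rfl
          rw [this, QuotientGroup.eq_one_iff, pow_two, comm_mul_right]
          have h1 : ∀ z : G, z * (v * z * v⁻¹) = z * ⁅v, z⁆ * z⁻¹ * z ^ 2 := by
            intro z; simp only [commutatorElement_def, pow_two]; group
          rw [h1, hsq _ (comm_mem k v), mul_one]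
          exact Subgroup.Normal.conj_mem inferInstance _
            (comm_mem_lcs' (n := 1) (comm_mem k v) v) _
        rw [← of_mem_map hcA, he]
        refine Subgroup.prod_mem _ fun i _ => ?_
        obtain ⟨m, hm⟩ := hdvd i
        rw [hm, zpow_mul]
        refine Subgroup.zpow_mem _ ?_ _
        have : Abelianization.of (![x, y] i) ^ ((2 : ℕ) : ℤ) =
            Abelianization.of ((![x, y] i) ^ 2) := by rw [zpow_natCast, map_pow]
        rw [this]
        exact Subgroup.mem_map_of_mem _ (hsqC _)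
      intro h
      rw [Subgroup.mem_comap, Subgroup.mem_center_iff] at hC
      have h1 := hC (h : G ⧸ lcs G 2)
      have h2 : ⁅((g⁻¹ : G) : G ⧸ lcs G 2), (h : G ⧸ lcs G 2)⁆ = 1 := by
        rw [commutatorElement_eq_one_iff_mul_comm, QuotientGroup.mk_inv]
        have h3 : Commute (h : G ⧸ lcs G 2) (g : G ⧸ lcs G 2) := h1
        exact (h3.inv_right).symm.eq
      have h3 : ⁅((g⁻¹ : G) : G ⧸ lcs G 2), (h : G ⧸ lcs G 2)⁆ =
          ((⁅g⁻¹, h⁆ : G) : G ⧸ lcs G 2) := rfl
      rw [h3, QuotientGroup.eq_one_iff] at h2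
      exact h2
    -- equivariant endomorphisms act on γ_3 as powers
    have hpow : ∀ ρ : G → G, IsEqEndo ρ → ∃ n : ℤ, ∀ t ∈ lcs G 2, ρ t = t ^ n := by
      intro ρ hρ
      obtain ⟨n, t₀, ht₀, hn⟩ := comm_form hxy (hρ.mem _ (comm_mem x y))
      refine ⟨n, ?_⟩
      have hbasic : ∀ h : G, ρ ⁅h, ⁅x, y⁆⁆ = ⁅h, ⁅x, y⁆⁆ ^ n := by
        intro h
        have hcen : ∀ v u : G, u * ⁅h, ⁅x, y⁆⁆ = ⁅h, ⁅x, y⁆⁆ * u := fun _ u =>
          lcs_central h4 (comm_mem_lcs' (n := 1) (comm_mem x y) h) u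
        have e1 : ⁅h, ⁅x, y⁆⁆ = (h * ⁅x, y⁆ * h⁻¹) * ⁅x, y⁆⁻¹ := by
          rw [commutatorElement_def h]
        have e2 : ρ ⁅h, ⁅x, y⁆⁆ = (h * ρ ⁅x, y⁆ * h⁻¹) * (ρ ⁅x, y⁆)⁻¹ := by
          rw [e1, hρ.map_mul _ (Subgroup.Normal.conj_mem inferInstance _ (comm_mem _ _) _) _
            (Subgroup.inv_mem _ (comm_mem _ _)), hρ.map_conj _ (comm_mem _ _),
            hρ.map_inv (comm_mem _ _)]
        rw [e2, hn]
        have e3 : h * (⁅x, y⁆ ^ n * t₀) * h⁻¹ = (h * ⁅x, y⁆ * h⁻¹) ^ n * t₀ := by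
          rw [← MulAut.conj_apply, map_mul, map_zpow,
            conj_eq_self_of_commute (lcs_central h4 ht₀ h), MulAut.conj_apply]
        have e4 : h * ⁅x, y⁆ * h⁻¹ = ⁅h, ⁅x, y⁆⁆ * ⁅x, y⁆ := by
          rw [commutatorElement_def h]; group
        have e5 : Commute ⁅h, ⁅x, y⁆⁆ ⁅x, y⁆ :=
          (lcs_central h4 (comm_mem_lcs' (n := 1) (comm_mem x y) h) _).symm
        rw [e3, e4, e5.mul_zpow]
        group
      intro t ht
      obtain ⟨j, k, rfl⟩ := lcs_two_form h4 hxy ht
      have m1 : ⁅x, ⁅x, y⁆⁆ ∈ commutator G := comm_mem _ _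
      have m2 : ⁅y, ⁅x, y⁆⁆ ∈ commutator G := comm_mem _ _
      rw [hρ.map_mul _ (Subgroup.zpow_mem _ m1 _) _ (Subgroup.zpow_mem _ m2 _),
        hρ.map_zpow m1, hρ.map_zpow m2, hbasic, hbasic]
      have hc : Commute (⁅x, ⁅x, y⁆⁆ ^ j) (⁅y, ⁅x, y⁆⁆ ^ k) := by
        exact hA _ (Subgroup.zpow_mem _ m1 _) _ (Subgroup.zpow_mem _ m2 _)
      rw [hc.mul_zpow, ← zpow_mul, ← zpow_mul, ← zpow_mul, ← zpow_mul, mul_comm n, mul_comm n]
    obtain ⟨n, hn⟩ := hpow ρ hρ
    obtain ⟨m, hm⟩ := hpow σ hσ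
    have hcen : ∀ v u : G, u * ⁅g⁻¹, v⁆ = ⁅g⁻¹, v⁆ * u := fun v u => lcs_central h4 (hg3 v) u
    rw [hn _ (hg3 y), hm _ (hg3 x), ← comm_zpow_right hcen, ← comm_zpow_right hcen,
      ← comm_mul_right' hcen, isConj_iff]
    refine ⟨y ^ n * x ^ m, ?_⟩
    rw [commutatorElement_def]; group
  · -- g is part of a generating pair
    obtain ⟨i, hi⟩ := exchange hG ![x, y] (by rw [range_pair]; exact hxy) hg
    have hpair : ∃ z, closure {g, z} = ⊤ := by
      fin_cases i
      · refine ⟨y, ?_⟩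
        have : Function.update ![x, y] 0 g = ![g, y] := by
          ext j; fin_cases j <;> rfl
        rw [← range_pair, ← this]; exact hi
      · refine ⟨x, ?_⟩
        have : Function.update ![x, y] 1 g = ![x, g] := by
          ext j; fin_cases j <;> rfl
        rw [Set.pair_comm, ← range_pair, ← this]; exact hi
    obtain ⟨z, hz⟩ := hpair
    have hu : ρ ⁅g⁻¹, y⁆ * σ ⁅g⁻¹, x⁆ ∈ commutator G :=
      Subgroup.mul_mem _ (hρ.mem _ (comm_mem _ _)) (hσ.mem _ (comm_mem _ _))
    set u := ρ ⁅g⁻¹, y⁆ * σ ⁅g⁻¹, x⁆ with hudef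
    have h1 := isConj_of_elementary h4 hsq hz
      (Subgroup.Normal.conj_mem (inferInstance : (commutator G).Normal) u hu g)
    have : g * u * g⁻¹ * g = g * u := by group
    rwa [this] at h1

end Pool.Agent.J6H84.ClassPres
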