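import Pool.Agent.J6H84.ClassPres.Rank

/-!
# The 2-generated case: preliminaries and class three quotients
-/

namespace Pool.Agent.J6H84.ClassPres

open Subgroup
open scoped commutatorElement

variable {p : ℕ} [hp : Fact p.Prime] {G : Type*} [Group G]

/-- The extremal property for generating pairs. -/
def P2 (G : Type*) [Group G] : Prop :=
  ∀ x y : G, closure {x, y} = ⊤ → ∀ g ∈ commutator G, ∀ h ∈ commutator G,
    ∃ α ∈ AutC G, α x = x * g ∧ α y = y * h

omit [Group G] in
lemma range_pair (x y : G) : Set.range ![x, y] = {x, y} := by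
  simp [Matrix.range_cons, Matrix.range_empty, Set.pair_comm]

lemma full_iff_p2 : Full G 2 ↔ P2 G := by
  constructor
  · intro h x y hxy g hg k hk
    obtain ⟨α, hα, hα'⟩ := h ![x, y] (by rw [range_pair]; exact hxy) ![g, k] (by
      intro i; fin_cases i
      · exact hg
      · exact hk)
    exact ⟨α, hα, hα' 0, hα' 1⟩
  · intro h x hx g hg
    have h1 : x = ![x 0, x 1] := by
      ext i; fin_cases i <;> rfl
    rw [h1, range_pair] at hx
    obtain ⟨α, hα, ha, hb⟩ := h (x 0) (x 1) hx (g 0) (hg 0) (g 1) (hg 1)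
    refine ⟨α, hα, ?_⟩
    intro i; fin_cases i
    · exact ha
    · exact hb

lemma closure_pair_quotient {x y : G} (hxy : closure {x, y} = ⊤) (N : Subgroup G) [N.Normal] :
    closure {(x : G ⧸ N), (y : G ⧸ N)} = ⊤ := by
  rw [← range_pair] at hxy ⊢
  have := closure_range_quotient hxy N
  convert this using 3
  ext i; fin_cases i <;> rfl

lemma P2.quotient [Finite G] {x y : G} (hxy : closure {x, y} = ⊤) (h : P2 G)
    (N : Subgroup G) [N.Normal] : P2 (G ⧸ N) := by
  rw [← full_iff_p2] at h ⊢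
  exact Full.quotient (x := ![x, y]) (by rw [range_pair]; exact hxy) h N

lemma central_of_commute {x y : G} (hxy : closure {x, y} = ⊤) {z : G} (hx : x * z = z * x)
    (hy : y * z = z * y) (g : G) : g * z = z * g := by
  have : (⊤ : Subgroup G) ≤ Subgroup.centralizer {z} := by
    rw [← hxy, Subgroup.closure_le]
    rintro w (rfl | rfl)
    · exact Subgroup.mem_centralizer_singleton_iff.2 hx
    · exact Subgroup.mem_centralizer_singleton_iff.2 hy
  exact Subgroup.mem_centralizer_singleton_iff.1 (this (Subgroup.mem_top g))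

lemma comm_le_of_pair {x y : G} (hxy : closure {x, y} = ⊤) {N : Subgroup G} [hN : N.Normal]
    (h : ⁅x, y⁆ ∈ N) : commutator G ≤ N := by
  have hq := closure_pair_quotient hxy N
  have hc : (x : G ⧸ N) * y = y * x := by
    rw [← commutatorElement_eq_one_iff_mul_comm]
    have : ⁅(x : G ⧸ N), (y : G ⧸ N)⁆ = ((⁅x, y⁆ : G) : G ⧸ N) := by
      simp [commutatorElement_def]
    rw [this, QuotientGroup.eq_one_iff]
    exact h
  have h1 : ∀ g : G ⧸ N, g * x = x * g := central_of_commute hq rfl hc.symm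
  have h2 : ∀ g : G ⧸ N, g * y = y * g := central_of_commute hq hc rfl
  have h3 : ∀ g k : G ⧸ N, k * g = g * k := fun g =>
    central_of_commute hq (h1 g).symm (h2 g).symm
  rw [commutator_eq_closure, Subgroup.closure_le]
  rintro _ ⟨a, b, rfl⟩
  rw [SetLike.mem_coe, ← QuotientGroup.eq_one_iff]
  have : ((⁅a, b⁆ : G) : G ⧸ N) = ⁅(a : G ⧸ N), (b : G ⧸ N)⁆ := by
    simp [commutatorElement_def]
  rw [this, commutatorElement_eq_one_iff_mul_comm]
  exact h3 _ _

lemma comm_mem (a b : G) : ⁅a, b⁆ ∈ commutator G :=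
  Subgroup.commutator_mem_commutator (Subgroup.mem_top _) (Subgroup.mem_top _)

/-- In a 2-generated group, the commutator subgroup is `⟨c⟩ γ_3`. -/
lemma comm_form {x y : G} (hxy : closure {x, y} = ⊤) {a : G} (ha : a ∈ commutator G) :
    ∃ i : ℤ, ∃ t ∈ lcs G 2, a = ⁅x, y⁆ ^ i * t := by
  set N : Subgroup G := zpowers ⁅x, y⁆ ⊔ lcs G 2 with hN
  have hNle : N ≤ commutator G := by
    rw [hN, sup_le_iff, Subgroup.zpowers_le]
    exact ⟨comm_mem x y, lcs_anti (by norm_num : 1 ≤ 2)⟩
  have hNn : N.Normal := by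
    constructor
    intro n hn g
    have : g * n * g⁻¹ = ⁅g, n⁆ * n := by rw [commutatorElement_def]; group
    rw [this]
    exact N.mul_mem (Subgroup.mem_sup_right (comm_mem_lcs' (n := 1) (hNle hn) g)) hn
  have h1 := comm_le_of_pair hxy (N := N) (Subgroup.mem_sup_left (Subgroup.mem_zpowers _))
  have h2 := h1 ha
  rw [hN, ← SetLike.mem_coe, Subgroup.mul_normal, Set.mem_mul] at h2
  obtain ⟨b, hb, t, ht, hbt⟩ := h2
  obtain ⟨i, hi⟩ := hb
  exact ⟨i, t, ht, by rw [← hbt, ← hi]⟩

lemma P2.exists_comm {x y : G} (hxy : closure {x, y} = ⊤) (h : P2 G) {a : G}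
    (ha : a ∈ commutator G) : ∃ w, ⁅x, w⁆ = a := by
  rw [← full_iff_p2] at h
  have := h ![x, y] (by rw [range_pair]; exact hxy)
  exact exists_comm_eq this 0 ha

/-- If `x` centralizes the commutator subgroup of `⟨x, y⟩`, then each commutator with `x` is a
commutator with a power of `y`. -/
lemma exists_pow_comm [Finite G] {x y : G} (hxy : closure {x, y} = ⊤)
    (hx : ∀ a ∈ commutator G, x * a = a * x) (h : G) : ∃ n : ℕ, ⁅x, h⁆ = ⁅x, y ^ n⁆ := by
  set C := Subgroup.centralizer {x} with hC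
  have hle : commutator G ≤ C := fun a ha => Subgroup.mem_centralizer_singleton_iff.2 (hx a ha).symm
  have hn : C.Normal := by
    constructor
    intro n hn g
    have : g * n * g⁻¹ = ⁅g, n⁆ * n := by rw [commutatorElement_def]; group
    rw [this]
    exact C.mul_mem (hle (comm_mem g n)) hn
  have htop : zpowers y ⊔ C = ⊤ := by
    rw [eq_top_iff, ← hxy, Subgroup.closure_le]
    rintro w (rfl | rfl)
    · exact Subgroup.mem_sup_right (Subgroup.mem_centralizer_singleton_iff.2 rfl)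
    · exact Subgroup.mem_sup_left (Subgroup.mem_zpowers _)
  have hh : h ∈ zpowers y ⊔ C := by rw [htop]; exact Subgroup.mem_top h
  rw [← SetLike.mem_coe, Subgroup.mul_normal, Set.mem_mul] at hh
  obtain ⟨b, hb, k, hk, rfl⟩ := hh
  obtain ⟨n, hn'⟩ := (mem_powers_iff_mem_zpowers (x := y)).2 hb
  refine ⟨n, ?_⟩
  simp only at hn'
  rw [hn', comm_mul_right]
  have : ⁅x, k⁆ = 1 := by
    rw [commutatorElement_eq_one_iff_mul_comm]
    exact (Subgroup.mem_centralizer_singleton_iff.1 hk).symm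
  rw [this]; simp

/-- Commutator with a power in the class three situation. -/
lemma comm_pow_formula {x y w : G} (hw : y * ⁅x, y⁆ * y⁻¹ = w * ⁅x, y⁆)
    (hwc : ∀ g, g * w = w * g) (n : ℕ) : ⁅x, y ^ n⁆ = ⁅x, y⁆ ^ n * w ^ (n.choose 2) := by
  have hyn : ∀ n : ℕ, y ^ n * ⁅x, y⁆ * (y ^ n)⁻¹ = w ^ n * ⁅x, y⁆ := by
    intro n
    induction n with
    | zero => simp
    | succ n ih =>
      have : y ^ (n + 1) * ⁅x, y⁆ * (y ^ (n + 1))⁻¹ = y * (y ^ n * ⁅x, y⁆ * (y ^ n)⁻¹) * y⁻¹ := by
        rw [pow_succ']; group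
      rw [this, ih]
      have hwn : y * w ^ n = w ^ n * y := (Commute.pow_right (hwc y) n)
      calc y * (w ^ n * ⁅x, y⁆) * y⁻¹ = (y * w ^ n) * ⁅x, y⁆ * y⁻¹ := by group
        _ = w ^ n * (y * ⁅x, y⁆ * y⁻¹) := by rw [hwn]; group
        _ = w ^ (n + 1) * ⁅x, y⁆ := by rw [hw, pow_succ]; group
  induction n with
  | zero => simp
  | succ n ih =>
    rw [pow_succ, comm_mul_right, ih, hyn, Nat.choose_succ_left _ _ (by norm_num)]
    have h1 : Commute (w ^ (n.choose 2)) (w ^ n * ⁅x, y⁆) :=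
      (Commute.pow_left (hwc _).symm _)
    have h2 : Commute (w ^ n) ⁅x, y⁆ := Commute.pow_left (hwc _).symm _
    rw [mul_assoc, h1.eq, h2.eq]
    simp only [Nat.reduceSub, Nat.choose_one_right]
    rw [pow_succ, pow_add]
    group

/-- In class three with `γ_3` of prime order one may choose the generating pair such that the
first generator commutes with the commutator. -/
lemma exists_good_pair {x y : G} (hxy : closure {x, y} = ⊤) (h4 : lcs G 3 = ⊥)
    (h3 : Nat.card (lcs G 2) = p) :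
    ∃ x' y' : G, closure {x', y'} = ⊤ ∧ (⁅x', y'⁆ = ⁅x, y⁆ ∨ ⁅x', y'⁆ = ⁅x, y⁆⁻¹) ∧
      (∀ a ∈ commutator G, x' * a = a * x') ∧ ⁅y', ⁅x', y'⁆⁆ ≠ 1 := by
  have hne : lcs G 2 ≠ ⊥ := by
    intro h
    rw [h, Subgroup.card_bot] at h3
    exact hp.out.one_lt.ne h3
  -- reduction: it is enough to have the first generator commute with the commutator
  have hred : ∀ x' y' : G, closure {x', y'} = ⊤ → x' * ⁅x', y'⁆ = ⁅x', y'⁆ * x' →
      (∀ a ∈ commutator G, x' * a = a * x') ∧ ⁅y', ⁅x', y'⁆⁆ ≠ 1 := by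
    intro x' y' hxy' hx'
    constructor
    · intro a ha
      obtain ⟨i, t, ht, rfl⟩ := comm_form hxy' ha
      have h1 : Commute x' (⁅x', y'⁆ ^ i) := Commute.zpow_right hx' i
      have h2 : Commute x' t := lcs_central h4 ht x'
      exact (h1.mul_right h2).eq
    · intro hcon
      apply hne
      rw [commutatorElement_eq_one_iff_mul_comm] at hcon
      have hcen := central_of_commute hxy' hx' hcon
      have : lcs G 2 = ⁅commutator G, (⊤ : Subgroup G)⁆ := rfl
      rw [this, Subgroup.commutator_eq_bot_iff_le_centralizer]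
      intro a ha
      rw [Subgroup.mem_centralizer_iff]
      intro g _
      obtain ⟨i, t, ht, rfl⟩ := comm_form hxy' ha
      have h1 : Commute g (⁅x', y'⁆ ^ i) := Commute.zpow_right (hcen g) i
      have h2 : Commute g t := lcs_central h4 ht g
      exact (h1.mul_right h2).eq
  set c := ⁅x, y⁆ with hc
  have hcA : c ∈ lcs G 1 := comm_mem x y
  by_cases hcx : ⁅c, x⁆ = 1
  · rw [commutatorElement_eq_one_iff_mul_comm] at hcx
    exact ⟨x, y, hxy, Or.inl rfl, hred x y hxy hcx.symm⟩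
  · have hT : (⟨⁅c, x⁆, comm_mem_lcs (n := 1) hcA _⟩ : lcs G 2) ≠ 1 := by
      intro h; exact hcx (congrArg Subtype.val h)
    obtain ⟨m, hm⟩ := mem_zpowers_of_prime_card (h3) hT
      (g' := (⟨⁅c, y⁆, comm_mem_lcs (n := 1) hcA _⟩ : lcs G 2))
    have hm' : ⁅c, x⁆ ^ m = ⁅c, y⁆ := congrArg Subtype.val hm
    have hcen : ∀ v u : G, u * ⁅c, v⁆ = ⁅c, v⁆ * u := fun v u =>
      lcs_central h4 (comm_mem_lcs (n := 1) hcA v) u
    set y' := y * x ^ (-m) with hy'
    have hgen : closure {y', x} = ⊤ := by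
      rw [eq_top_iff, ← hxy, Subgroup.closure_le]
      have h1 : y' ∈ closure ({y', x} : Set G) := Subgroup.subset_closure (by simp)
      have h2 : x ∈ closure ({y', x} : Set G) := Subgroup.subset_closure (by simp)
      rintro w (rfl | rfl)
      · exact h2
      · have : w = y' * x ^ m := by rw [hy']; group
        rw [this]
        exact Subgroup.mul_mem _ h1 (Subgroup.zpow_mem _ h2 _)
    have hcomm : ⁅y', x⁆ = c⁻¹ := by
      rw [hy', comm_mul_left]
      have : ⁅x ^ (-m), x⁆ = 1 := by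
        rw [commutatorElement_eq_one_iff_mul_comm]
        exact (Commute.zpow_self x (-m)).eq
      rw [this, hc, commutatorElement_inv]; simp
    have hcy' : ⁅c, y'⁆ = 1 := by
      rw [hy', comm_mul_right' hcen, comm_zpow_right hcen, ← hm', ← zpow_add]
      simp
    rw [commutatorElement_eq_one_iff_mul_comm] at hcy'
    refine ⟨y', x, hgen, Or.inr hcomm, hred y' x hgen ?_⟩
    rw [hcomm]
    exact (Commute.inv_right (show Commute y' c from hcy'.symm)).eq

/-- The main counting contradiction in class three. -/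
lemma false_of_class_three [Finite G] {x y : G} (hxy : closure {x, y} = ⊤) (hP : P2 G)
    (h4 : lcs G 3 = ⊥) (h3 : Nat.card (lcs G 2) = p) (q : ℕ)
    (hq1 : ∀ j : ℕ, ⁅x, y⁆ ^ j ∈ lcs G 2 → q ∣ j) (hq2 : ⁅x, y⁆ ^ q = 1)
    (hq3 : ∀ j : ℕ, q ∣ j → p ∣ j.choose 2) : False := by
  obtain ⟨x', y', hxy', hc, hx', hw⟩ := exists_good_pair hxy h4 h3
  set c := ⁅x', y'⁆ with hcdef
  have hcA : c ∈ lcs G 1 := comm_mem x' y'
  set w := ⁅y', c⁆ with hwdef
  have hwT : w ∈ lcs G 2 := comm_mem_lcs' (n := 1) hcA y'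
  have hwc : ∀ g, g * w = w * g := fun g => lcs_central h4 hwT g
  have hwp : w ^ p = 1 := by
    have : (⟨w, hwT⟩ : lcs G 2) ^ p = 1 := by
      rw [← h3]; exact pow_card_eq_one'
    exact congrArg Subtype.val this
  obtain ⟨h, hh⟩ := hP.exists_comm hxy' (lcs_anti (by norm_num : 1 ≤ 2) hwT)
  obtain ⟨n, hn⟩ := exists_pow_comm hxy' hx' h
  rw [hh, comm_pow_formula (w := w)
    (by show y' * c * y'⁻¹ = w * c; rw [hwdef, commutatorElement_def]; group) hwc n] at hn
  have hcn : c ^ n ∈ lcs G 2 := by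
    have : c ^ n = w * (w ^ n.choose 2)⁻¹ := by rw [eq_mul_inv_iff_mul_eq]; exact hn.symm
    rw [this]
    exact Subgroup.mul_mem _ hwT (Subgroup.inv_mem _ (Subgroup.pow_mem _ hwT _))
  have hqn : q ∣ n := by
    apply hq1
    rcases hc with hc | hc
    · rw [← hc]; exact hcn
    · rw [hc, inv_pow] at hcn
      exact (Subgroup.inv_mem_iff _).1 hcn
  have hcq : c ^ q = 1 := by
    rcases hc with hc | hc
    · rw [hc]; exact hq2
    · rw [hc, inv_pow, hq2, inv_one]
  obtain ⟨m, hm⟩ := hqn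
  obtain ⟨l, hl⟩ := hq3 n ⟨m, hm⟩
  rw [← hcdef, hl, pow_mul w, hwp, one_pow, hm, pow_mul, hcq, one_pow, mul_one] at hn
  exact hw hn

end Pool.Agent.J6H84.ClassPres
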