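import Pool.Agent.J6H84.ClassPres.Two

/-!
# The 2-generated case: cyclic commutator subgroup
-/

namespace Pool.Agent.J6H84.ClassPres

open Subgroup
open scoped commutatorElement

variable {p : ℕ} [hp : Fact p.Prime] {G : Type*} [Group G]

lemma mem_of_coprime {H : Subgroup G} {g : G} {a b : ℤ} (ha : g ^ a ∈ H) (hb : g ^ b ∈ H)
    (h : IsCoprime a b) : g ∈ H := by
  obtain ⟨u, v, huv⟩ := h
  have : g = (g ^ a) ^ u * (g ^ b) ^ v := by
    rw [← zpow_mul, ← zpow_mul, ← zpow_add, mul_comm a, mul_comm b, huv, zpow_one]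
  rw [this]
  exact H.mul_mem (H.zpow_mem ha _) (H.zpow_mem hb _)

lemma lcs_stab [Group.IsNilpotent G] {n : ℕ} (heq : lcs G (n + 1) = lcs G n) :
    lcs G n = ⊥ := by
  have hnil : Group.IsNilpotent G := inferInstance
  have hstab : ∀ m, lcs G (n + m) = lcs G n := by
    intro m
    induction m with
    | zero => rfl
    | succ m ih =>
      have : lcs G (n + (m + 1)) = ⁅lcs G (n + m), ⊤⁆ := rfl
      rw [this, ih]
      exact heq
  obtain ⟨m, hm⟩ := (Subgroup.nilpotent_iff_lowerCentralSeries (G := G)).1 hnil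
  have h2 : lcs G (n + m) = ⊥ := by
    rw [eq_bot_iff, ← hm]
    exact lcs_anti (by omega)
  rw [← hstab m, h2]

lemma mem_lcs_of_quotient {N : Subgroup G} [N.Normal] {n : ℕ} (hN : N ≤ lcs G n) {g : G}
    (hg : (g : G ⧸ N) ∈ lcs (G ⧸ N) n) : g ∈ lcs G n := by
  rw [← map_lcs] at hg
  obtain ⟨t, ht, htg⟩ := hg
  have : t⁻¹ * g ∈ N := by
    rw [← QuotientGroup.eq]; exact htg
  have h2 := (lcs G n).mul_mem ht (hN this)
  simpa using h2

lemma mem_sup_of_quotient {N : Subgroup G} [N.Normal] {n : ℕ} {g : G}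
    (hg : (g : G ⧸ N) ∈ lcs (G ⧸ N) n) : g ∈ lcs G n ⊔ N := by
  rw [← map_lcs] at hg
  obtain ⟨t, ht, htg⟩ := hg
  have : t⁻¹ * g ∈ N := by
    rw [← QuotientGroup.eq]; exact htg
  have h2 := Subgroup.mul_mem_sup ht this
  simpa using h2

/-- The normal subgroup generated by the `q`-th powers of elements of the commutator subgroup. -/
def powComm (G : Type*) [Group G] (q : ℕ) : Subgroup G :=
  normalClosure {b | ∃ a ∈ commutator G, a ^ q = b}

instance (q : ℕ) : (powComm G q).Normal := normalClosure_normal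

lemma pow_mem_powComm {a : G} (ha : a ∈ commutator G) (q : ℕ) : a ^ q ∈ powComm G q :=
  subset_normalClosure ⟨a, ha, rfl⟩

lemma lcs_two_le_powComm_aux [Finite G] (hG : IsPGroup p G) {x y : G}
    (hxy : closure {x, y} = ⊤) (hP : P2 G) (q : ℕ)
    (hq1 : ∀ j : ℕ, ⁅x, y⁆ ^ j ∈ lcs G 2 ⊔ powComm G q →
      lcs G 2 ≤ powComm G q ∨ q ∣ j)
    (hq3 : ∀ j : ℕ, q ∣ j → p ∣ j.choose 2) : lcs G 2 ≤ powComm G q := by
  by_contra hcon
  set B := powComm G q with hB
  have hne : lcs (G ⧸ B) 2 ≠ ⊥ := by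
    intro h
    rw [← map_lcs, Subgroup.map_eq_bot_iff, QuotientGroup.ker_mk'] at h
    exact hcon h
  obtain ⟨N, hNn, hN1, hN2, hN3, hN4⟩ := exists_reduction (hG.to_quotient B) 2 hne
  have hxy1 := closure_pair_quotient hxy B
  have hP1 := hP.quotient hxy B
  have hxy2 := closure_pair_quotient hxy1 N
  have hP2 := hP1.quotient hxy1 N
  refine false_of_class_three (p := p) hxy2 hP2 hN3 hN4 q ?_ ?_ hq3
  · intro j hj
    have h1 : (((⁅x, y⁆ ^ j : G) : G ⧸ B) : (G ⧸ B) ⧸ N) ∈ lcs ((G ⧸ B) ⧸ N) 2 := by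
      have : (((⁅x, y⁆ ^ j : G) : G ⧸ B) : (G ⧸ B) ⧸ N) =
        ⁅((x : G ⧸ B) : (G ⧸ B) ⧸ N), ((y : G ⧸ B) : (G ⧸ B) ⧸ N)⁆ ^ j := by
        simp [commutatorElement_def]
      rw [this]; exact hj
    have h2 := mem_sup_of_quotient (mem_lcs_of_quotient hN1 h1)
    rcases hq1 j h2 with h | h
    · exact absurd h hcon
    · exact h
  · have : (((⁅x, y⁆ ^ q : G) : G ⧸ B) : (G ⧸ B) ⧸ N) =
      ⁅((x : G ⧸ B) : (G ⧸ B) ⧸ N), ((y : G ⧸ B) : (G ⧸ B) ⧸ N)⁆ ^ q := by
      simp [commutatorElement_def]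
    rw [← this]
    have h1 : ((⁅x, y⁆ ^ q : G) : G ⧸ B) = 1 := by
      rw [QuotientGroup.eq_one_iff]
      exact pow_mem_powComm (comm_mem x y) q
    rw [h1]; rfl

/-- Odd primes: `γ_3` is generated by `p`-th powers. -/
lemma lcs_two_le_powComm_odd [Finite G] (hG : IsPGroup p G) (hp2 : p ≠ 2) {x y : G}
    (hxy : closure {x, y} = ⊤) (hP : P2 G) : lcs G 2 ≤ powComm G p := by
  refine lcs_two_le_powComm_aux hG hxy hP p ?_ ?_
  · intro j hj
    by_cases hpj : p ∣ j
    · exact Or.inr hpj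
    left
    have hnil : Group.IsNilpotent (G ⧸ powComm G p) := (hG.to_quotient _).isNilpotent
    have h1 : ⁅x, y⁆ ∈ lcs G 2 ⊔ powComm G p := by
      refine mem_of_coprime (a := (j : ℤ)) (b := (p : ℤ)) (by rw [zpow_natCast]; exact hj) ?_ ?_
      · rw [zpow_natCast]
        exact Subgroup.mem_sup_right (pow_mem_powComm (comm_mem x y) p)
      · rw [Nat.isCoprime_iff_coprime]
        exact ((Nat.Prime.coprime_iff_not_dvd hp.out).2 hpj).symm
    have h2 : commutator G ≤ lcs G 2 ⊔ powComm G p := comm_le_of_pair hxy h1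
    have h3 : lcs (G ⧸ powComm G p) 1 = ⊥ := by
      apply lcs_stab
      refine le_antisymm (lcs_anti (by norm_num)) ?_
      rw [← map_lcs, ← map_lcs]
      refine (Subgroup.map_mono h2).trans ?_
      rw [Subgroup.map_sup]
      refine sup_le le_rfl ?_
      have : (powComm G p).map (QuotientGroup.mk' (powComm G p)) = ⊥ := by
        rw [Subgroup.map_eq_bot_iff, QuotientGroup.ker_mk']
      rw [this]; exact bot_le
    rw [← map_lcs, Subgroup.map_eq_bot_iff, QuotientGroup.ker_mk'] at h3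
    exact (lcs_anti (by norm_num)).trans h3
  · intro j hj
    have hodd : Odd p := hp.out.odd_of_ne_two hp2
    rw [Nat.choose_two_right]
    have h2 : (2 : ℕ).Coprime p := (Nat.coprime_primes Nat.prime_two hp.out).2 (Ne.symm hp2)
    have h3 : 2 ∣ j * (j - 1) := (Nat.even_mul_pred_self j).two_dvd
    obtain ⟨k, hk⟩ := h3
    rw [hk, Nat.mul_div_cancel_left _ (by norm_num)]
    have : p ∣ 2 * k := by rw [← hk]; exact Dvd.dvd.mul_right hj _
    exact (Nat.Coprime.dvd_mul_left h2.symm).1 this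

/-- `p = 2`: if `c ^ 2 ∉ γ_3` then `γ_3` is generated by fourth powers. -/
lemma lcs_two_le_powComm_four [Finite G] (hG : IsPGroup 2 G) {x y : G}
    (hxy : closure {x, y} = ⊤) (hP : P2 G) (hc : ⁅x, y⁆ ^ 2 ∉ lcs G 2) :
    lcs G 2 ≤ powComm G 4 := by
  -- description of the fourth powers
  have hB : powComm G 4 ≤ zpowers (⁅x, y⁆ ^ 4) ⊔ lcs G 2 := by
    have hn : (zpowers (⁅x, y⁆ ^ 4) ⊔ lcs G 2).Normal := by
      constructor
      intro n hn g
      have hle : zpowers (⁅x, y⁆ ^ 4) ⊔ lcs G 2 ≤ commutator G := by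
        rw [sup_le_iff, Subgroup.zpowers_le]
        exact ⟨Subgroup.pow_mem _ (comm_mem x y) _, lcs_anti (by norm_num : 1 ≤ 2)⟩
      have : g * n * g⁻¹ = ⁅g, n⁆ * n := by rw [commutatorElement_def]; group
      rw [this]
      exact Subgroup.mul_mem _ (Subgroup.mem_sup_right (comm_mem_lcs' (n := 1) (hle hn) g)) hn
    refine normalClosure_le_normal ?_
    rintro _ ⟨a, ha, rfl⟩
    obtain ⟨i, t, ht, rfl⟩ := comm_form hxy ha
    -- modulo γ_3
    have h1 : (⁅x, y⁆ ^ 4) ^ (-i) * (⁅x, y⁆ ^ i * t) ^ 4 ∈ lcs G 2 := by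
      rw [← QuotientGroup.eq_one_iff]
      have ht' : ((t : G) : G ⧸ lcs G 2) = 1 := by
        rw [QuotientGroup.eq_one_iff]; exact ht
      simp only [QuotientGroup.mk_mul, QuotientGroup.mk_pow, QuotientGroup.mk_zpow, ht', mul_one]
      group
    have h2 := Subgroup.mul_mem_sup (Subgroup.mem_zpowers_iff.2 ⟨i, rfl⟩ :
      (⁅x, y⁆ ^ 4) ^ i ∈ zpowers (⁅x, y⁆ ^ 4)) h1
    rw [← mul_assoc, ← zpow_add] at h2
    simpa using h2
  refine lcs_two_le_powComm_aux hG hxy hP 4 ?_ ?_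
  · intro j hj
    right
    by_contra h4
    apply hc
    have h1 : ⁅x, y⁆ ^ j ∈ zpowers (⁅x, y⁆ ^ 4) ⊔ lcs G 2 :=
      (sup_le le_sup_right hB) hj
    rw [← SetLike.mem_coe, Subgroup.mul_normal, Set.mem_mul] at h1
    obtain ⟨b, hb, t, ht, hbt⟩ := h1
    obtain ⟨i, hi⟩ := hb
    simp only at hi
    have h2 : ⁅x, y⁆ ^ ((j : ℤ) - 4 * i) ∈ lcs G 2 := by
      have : ⁅x, y⁆ ^ ((j : ℤ) - 4 * i) = t := by
        have e1 : ⁅x, y⁆ ^ ((j : ℤ) - 4 * i) = ((⁅x, y⁆ ^ 4) ^ i)⁻¹ * ⁅x, y⁆ ^ j := by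
          rw [sub_eq_neg_add, zpow_add, zpow_natCast, zpow_neg, zpow_mul, zpow_ofNat]
        rw [e1, hi, ← hbt]; group
      rw [this]; exact ht
    -- order of c is a power of two
    obtain ⟨k, hk⟩ := hG ⁅x, y⁆
    have h3 : ⁅x, y⁆ ^ (2 ^ (k + 2) : ℤ) ∈ lcs G 2 := by
      have : ⁅x, y⁆ ^ (2 ^ (k + 2) : ℤ) = 1 := by
        have e : (2 ^ (k + 2) : ℤ) = ((2 ^ k * 4 : ℕ) : ℤ) := by push_cast; ring
        rw [e, zpow_natCast, pow_mul, hk, one_pow]
      rw [this]; exact Subgroup.one_mem _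
    -- gcd of j - 4 i and 2^(k+2) divides 2
    set n : ℤ := (j : ℤ) - 4 * i with hn
    have hn4 : ¬ (4 : ℤ) ∣ n := by
      intro h
      apply h4
      have : (4 : ℤ) ∣ (j : ℤ) := by
        have := dvd_add h (Dvd.intro i rfl : (4 : ℤ) ∣ 4 * i)
        rwa [hn, sub_add_cancel] at this
      exact_mod_cast this
    rcases Int.even_or_odd n with ⟨m, hm⟩ | hodd
    · -- n = 2 m with m odd
      have hm2 : n = 2 * m := by omega
      have hmodd : ¬ (2 : ℤ) ∣ m := by
        intro h; apply hn4; rw [hm2]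
        obtain ⟨l, hl⟩ := h
        exact ⟨l, by rw [hl]; ring⟩
      refine mem_of_coprime (g := ⁅x, y⁆ ^ 2) (a := m) (b := 2 ^ (k + 1)) ?_ ?_ ?_
      · rw [← zpow_natCast, ← zpow_mul]
        push_cast
        rw [← hm2]; exact h2
      · rw [← zpow_natCast, ← zpow_mul]
        push_cast
        have : (2 : ℤ) * 2 ^ (k + 1) = 2 ^ (k + 2) := by ring
        rw [this]; exact h3
      · apply IsCoprime.pow_right
        exact ((Int.prime_two.irreducible.coprime_iff_not_dvd).2 hmodd).symm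
    · have h5 : ⁅x, y⁆ ∈ lcs G 2 := by
        refine mem_of_coprime (a := n) (b := 2 ^ (k + 2)) h2 h3 ?_
        apply IsCoprime.pow_right
        refine ((Int.prime_two.irreducible.coprime_iff_not_dvd).2 ?_).symm
        rw [← even_iff_two_dvd]
        exact Int.not_even_iff_odd.2 hodd
      exact Subgroup.pow_mem _ h5 2
  · rintro _ ⟨j, rfl⟩
    rw [Nat.choose_two_right]
    have : 4 * j * (4 * j - 1) = 2 * (2 * (j * (4 * j - 1))) := by ring
    rw [this, Nat.mul_div_cancel_left _ (by norm_num)]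
    exact Dvd.intro _ rfl

/-- If `γ_3` is generated by `q`-th powers (`p ∣ q`) then the commutator subgroup is cyclic,
generated by the commutator of the generators. -/
lemma commutator_eq_zpowers [Finite G] (hG : IsPGroup p G) {x y : G}
    (hxy : closure {x, y} = ⊤) {q : ℕ} (hpq : p ∣ q) (h : lcs G 2 ≤ powComm G q) :
    commutator G = zpowers ⁅x, y⁆ := by
  have hA : IsPGroup p (commutator G) := hG.to_subgroup _
  have hΦ : powComm G q ≤ (frattini (commutator G)).map (commutator G).subtype := by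
    have : ((frattini (commutator G)).map (commutator G).subtype).Normal :=
      ConjAct.normal_of_characteristic_of_normal
    refine normalClosure_le_normal ?_
    rintro _ ⟨a, ha, rfl⟩
    obtain ⟨k, rfl⟩ := hpq
    refine ⟨(⟨a, ha⟩ : commutator G) ^ (p * k), ?_, rfl⟩
    rw [pow_mul]
    exact Subgroup.pow_mem _ (pow_mem_frattini hA _) _
  have htop : zpowers (⟨⁅x, y⁆, comm_mem x y⟩ : commutator G) ⊔ frattini (commutator G) = ⊤ := by
    rw [eq_top_iff]
    rintro ⟨a, ha⟩ _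
    obtain ⟨i, t, ht, hat⟩ := comm_form hxy ha
    obtain ⟨⟨t', ht'⟩, htΦ, htt⟩ := hΦ (h ht)
    have : (⟨a, ha⟩ : commutator G) =
        (⟨⁅x, y⁆, comm_mem x y⟩ : commutator G) ^ i * ⟨t', ht'⟩ := by
      apply Subtype.ext
      simp only [Subgroup.coe_mul, Subgroup.coe_zpow]
      rw [hat]
      congr 1
      exact htt.symm
    rw [this]
    exact Subgroup.mul_mem_sup (Subgroup.zpow_mem _ (Subgroup.mem_zpowers _) _) htΦ
  have h1 := frattini_nongenerating htop
  apply le_antisymm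
  · intro a ha
    have : (⟨a, ha⟩ : commutator G) ∈ zpowers (⟨⁅x, y⁆, comm_mem x y⟩ : commutator G) := by
      rw [h1]; exact Subgroup.mem_top _
    obtain ⟨i, hi⟩ := this
    exact ⟨i, congrArg Subtype.val hi⟩
  · rw [Subgroup.zpowers_le]; exact comm_mem x y

end Pool.Agent.J6H84.ClassPres
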