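import Pool.Agent.J6H84.ClassPres.TwoA

/-!
# The 2-generated case for `p = 2`: non-cyclic commutator subgroup
-/

namespace Pool.Agent.J6H84.ClassPres

open Subgroup
open scoped commutatorElement

variable {G : Type*} [Group G]

/-- A set closed under conjugation by the two generators of a finite group is closed under
conjugation. -/
lemma conj_mem_of_pair [Finite G] {x y : G} (hxy : closure {x, y} = ⊤) (S : Set G)
    (hx : ∀ u ∈ S, MulAut.conj x u ∈ S) (hy : ∀ u ∈ S, MulAut.conj y u ∈ S) (g : G) :
    ∀ u ∈ S, MulAut.conj g u ∈ S := by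
  have hg : g ∈ closure {x, y} := by rw [hxy]; exact Subgroup.mem_top g
  induction hg using Subgroup.closure_induction with
  | mem s hs =>
    rcases hs with rfl | rfl
    · exact hx
    · exact hy
  | one => intro u hu; simpa using hu
  | mul a b _ _ ha hb =>
    intro u hu
    rw [map_mul, MulAut.mul_apply]
    exact ha _ (hb _ hu)
  | inv a _ ha =>
    have hpow : ∀ n : ℕ, ∀ u ∈ S, MulAut.conj (a ^ n) u ∈ S := by
      intro n
      induction n with
      | zero => intro u hu; simpa using hu
      | succ n ih =>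
        intro u hu
        rw [pow_succ, map_mul, MulAut.mul_apply]
        exact ih _ (ha _ hu)
    have hinv : a⁻¹ = a ^ (orderOf a - 1) := by
      rw [inv_eq_iff_mul_eq_one, ← pow_succ', Nat.sub_add_cancel (orderOf_pos a),
        pow_orderOf_eq_one]
    rw [hinv]
    exact hpow _

lemma conj_eq_comm_mul (g a : G) : MulAut.conj g a = ⁅g, a⁆ * a := by
  rw [MulAut.conj_apply, commutatorElement_def]; group

/-- Calculation: case `alpha`. -/
lemma calc_alpha [Finite G] {x y c a b s : G} (hxy : closure {x, y} = ⊤)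
    (hac : a * c = c * a) (hbc : b * c = c * b) (hba : b * a = a * b)
    (hs : ∀ g, s * g = g * s) (haa : a * a = 1) (hbb : b * b = 1) (hss : s * s = 1)
    (hxc : MulAut.conj x c = c * a) (hxa : MulAut.conj x a = a) (hxb : MulAut.conj x b = b * s)
    (hyc : MulAut.conj y c = c * b) (hya : MulAut.conj y a = a * s)
    (hyb : MulAut.conj y b = b) (g : G) :
    MulAut.conj g c ∈ ({c, c * a, c * b, c * a * b * s} : Set G) := by
  have hac' : ∀ z, a * (c * z) = c * (a * z) := fun z => by rw [← mul_assoc, hac, mul_assoc]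
  have hbc' : ∀ z, b * (c * z) = c * (b * z) := fun z => by rw [← mul_assoc, hbc, mul_assoc]
  have hba' : ∀ z, b * (a * z) = a * (b * z) := fun z => by rw [← mul_assoc, hba, mul_assoc]
  have hs' : ∀ g z, s * (g * z) = g * (s * z) := fun g z => by rw [← mul_assoc, hs, mul_assoc]
  have haa' : ∀ z, a * (a * z) = z := fun z => by rw [← mul_assoc, haa, one_mul]
  have hbb' : ∀ z, b * (b * z) = z := fun z => by rw [← mul_assoc, hbb, one_mul]
  have hss' : ∀ z, s * (s * z) = z := fun z => by rw [← mul_assoc, hss, one_mul]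
  have hxs : MulAut.conj x s = s := by rw [MulAut.conj_apply, ← hs x, mul_inv_cancel_right]
  have hys : MulAut.conj y s = s := by rw [MulAut.conj_apply, ← hs y, mul_inv_cancel_right]
  refine conj_mem_of_pair hxy {c, c * a, c * b, c * a * b * s} ?_ ?_ g c (by simp)
  · rintro u (rfl | rfl | rfl | rfl)
    · right; left
      exact hxc
    · left
      simp only [map_mul, hxc, hxa, mul_assoc, haa, mul_one]
    · right; right; right
      simp only [map_mul, hxc, hxb, mul_assoc, Set.mem_singleton_iff]
    · right; right; left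
      simp only [map_mul, hxc, hxa, hxb, hxs, mul_assoc, haa', hss, mul_one]
  · rintro u (rfl | rfl | rfl | rfl)
    · right; right; left
      exact hyc
    · right; right; right
      simp only [map_mul, hyc, hya, mul_assoc, hba', Set.mem_singleton_iff]
    · left
      simp only [map_mul, hyc, hyb, mul_assoc, hbb, mul_one]
    · right; left
      simp only [map_mul, hyc, hya, hyb, hys, mul_assoc, hba', hbb, hss, hs', mul_one]

/-- Calculation: case `beta`. -/
lemma calc_beta [Finite G] {x y c a b s e : G} (hxy : closure {x, y} = ⊤)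
    (hac : a * c = c * a) (hba : b * a = a * b)
    (hs : ∀ g, s * g = g * s) (he : ∀ g, e * g = g * e) (hec : e = c * c) (hee : e * e = 1)
    (haa : a * a = 1) (hbb : b * b = 1) (hss : s * s = 1)
    (hxc : MulAut.conj x c = c * a) (hxa : MulAut.conj x a = a) (hxb : MulAut.conj x b = b * s)
    (hyc : MulAut.conj y c = c * b) (hya : MulAut.conj y a = a * s)
    (hyb : MulAut.conj y b = b * s) (hyx : MulAut.conj y x = c⁻¹ * x) (g : G) :
    MulAut.conj g (x * x * c) ∈ ({x * x * c, x * x * c * a, x * x * c * a * b * e,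
      x * x * c * b * s * e} : Set G) := by
  have haa' : ∀ z, a * (a * z) = z := fun z => by rw [← mul_assoc, haa, one_mul]
  have hbb' : ∀ z, b * (b * z) = z := fun z => by rw [← mul_assoc, hbb, one_mul]
  have hss' : ∀ z, s * (s * z) = z := fun z => by rw [← mul_assoc, hss, one_mul]
  have hba' : ∀ z, b * (a * z) = a * (b * z) := fun z => by rw [← mul_assoc, hba, mul_assoc]
  have hsa' : ∀ z, s * (a * z) = a * (s * z) := fun z => by rw [← mul_assoc, hs, mul_assoc]
  have hsb' : ∀ z, s * (b * z) = b * (s * z) := fun z => by rw [← mul_assoc, hs, mul_assoc]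
  have hea' : ∀ z, e * (a * z) = a * (e * z) := fun z => by rw [← mul_assoc, he, mul_assoc]
  have heb' : ∀ z, e * (b * z) = b * (e * z) := fun z => by rw [← mul_assoc, he, mul_assoc]
  have hes' : ∀ z, e * (s * z) = s * (e * z) := fun z => by rw [← mul_assoc, he, mul_assoc]
  have hxs : MulAut.conj x s = s := by rw [MulAut.conj_apply, ← hs x, mul_inv_cancel_right]
  have hys : MulAut.conj y s = s := by rw [MulAut.conj_apply, ← hs y, mul_inv_cancel_right]
  have hxe : MulAut.conj x e = e := by rw [MulAut.conj_apply, ← he x, mul_inv_cancel_right]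
  have hye : MulAut.conj y e = e := by rw [MulAut.conj_apply, ← he y, mul_inv_cancel_right]
  have hxx : MulAut.conj x x = x := by simp
  set t := x * x * c with ht
  have hxt : MulAut.conj x t = t * a := by
    rw [ht]; simp only [map_mul, hxx, hxc, mul_assoc]
  have hax : a * x = x * a := by
    have := hxa
    rw [MulAut.conj_apply, mul_inv_eq_iff_eq_mul] at this
    exact this.symm
  have hxcinv : x * c⁻¹ = c⁻¹ * a * x := by
    have h1 : MulAut.conj x c⁻¹ = c⁻¹ * a := by
      rw [map_inv, hxc, mul_inv_rev, inv_eq_of_mul_eq_one_right haa, inv_mul_eq_iff_eq_mul.2]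
      · rw [← mul_assoc, ← hac]; group
    rw [MulAut.conj_apply, mul_inv_eq_iff_eq_mul] at h1
    exact h1
  have heinv : c⁻¹ * c⁻¹ = e := by
    rw [← mul_inv_rev, ← hec]; exact inv_eq_of_mul_eq_one_right hee
  have hyt : MulAut.conj y t = t * a * b * e := by
    rw [ht]
    simp only [map_mul, hyx, hyc]
    calc c⁻¹ * x * (c⁻¹ * x) * (c * b) = c⁻¹ * (x * c⁻¹) * x * c * b := by group
      _ = (c⁻¹ * c⁻¹) * (a * x) * x * c * b := by rw [hxcinv]; group
      _ = e * (x * a) * x * c * b := by rw [heinv, hax]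
      _ = e * x * (a * x) * c * b := by group
      _ = e * x * (x * a) * c * b := by rw [hax]
      _ = e * x * x * (a * c) * b := by group
      _ = (e * (x * x * c * a * b)) := by rw [hac]; group
      _ = x * x * c * a * b * e := he _
  refine conj_mem_of_pair hxy {t, t * a, t * a * b * e, t * b * s * e} ?_ ?_ g t (by simp)
  · rintro u (rfl | rfl | rfl | rfl)
    · right; left; exact hxt
    · left
      simp only [map_mul, hxt, hxa, mul_assoc, haa, mul_one]
    · right; right; right
      simp only [map_mul, hxt, hxa, hxb, hxe, mul_assoc, haa', Set.mem_singleton_iff]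
    · right; right; left
      simp only [map_mul, hxt, hxb, hxs, hxe, mul_assoc, hss']
  · rintro u (rfl | rfl | rfl | rfl)
    · right; right; left; exact hyt
    · right; right; right
      simp only [map_mul, hyt, hya, mul_assoc, Set.mem_singleton_iff]
      simp only [hea', hba', haa', he s]
    · left
      simp only [map_mul, hyt, hya, hyb, hye, mul_assoc]
      simp only [hea', heb', hba', haa, hsb', hss', hbb, hee, mul_one]
    · right; left
      simp only [map_mul, hyt, hyb, hys, hye, mul_assoc]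
      simp only [heb', hss', hbb, hee, mul_one]

/-- Calculation: case `gamma`. -/
lemma calc_gamma [Finite G] {x y c a b s e : G} (hxy : closure {x, y} = ⊤)
    (ha : ∀ g, a * g = g * a)
    (hs : ∀ g, s * g = g * s) (he : ∀ g, e * g = g * e) (hec : e = c * c) (hee : e * e = 1)
    (haa : a * a = 1) (hbb : b * b = 1) (hss : s * s = 1) (hbc : b * c = c * b)
    (hxc : MulAut.conj x c = c * a) (hxb : MulAut.conj x b = b)
    (hyc : MulAut.conj y c = c * b)
    (hyb : MulAut.conj y b = b * s) (hyx : MulAut.conj y x = c⁻¹ * x) (g : G) :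
    ∃ m, (m = 1 ∨ m = a) ∧ (MulAut.conj g x = m * x ∨ MulAut.conj g x = m * (c⁻¹ * x) ∨
      MulAut.conj g x = m * (e * (b * x)) ∨ MulAut.conj g x = m * (e * (b * (s * (c⁻¹ * x))))) := by
  have hxs : MulAut.conj x s = s := by rw [MulAut.conj_apply, ← hs x, mul_inv_cancel_right]
  have hys : MulAut.conj y s = s := by rw [MulAut.conj_apply, ← hs y, mul_inv_cancel_right]
  have hxe : MulAut.conj x e = e := by rw [MulAut.conj_apply, ← he x, mul_inv_cancel_right]
  have hye : MulAut.conj y e = e := by rw [MulAut.conj_apply, ← he y, mul_inv_cancel_right]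
  have hxa : MulAut.conj x a = a := by rw [MulAut.conj_apply, ← ha x, mul_inv_cancel_right]
  have hya : MulAut.conj y a = a := by rw [MulAut.conj_apply, ← ha y, mul_inv_cancel_right]
  have hxx : MulAut.conj x x = x := by simp
  have hbcinv : c⁻¹ * b = b * c⁻¹ := by
    rw [inv_mul_eq_iff_eq_mul, ← mul_assoc, ← hbc]; group
  have hbinv : b⁻¹ = b := inv_eq_of_mul_eq_one_right hbb
  have hainv : a⁻¹ = a := inv_eq_of_mul_eq_one_right haa
  have hxc' : MulAut.conj x c⁻¹ = a * c⁻¹ := by
    rw [map_inv, hxc, mul_inv_rev, hainv]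
  have hyc' : MulAut.conj y c⁻¹ = b * c⁻¹ := by
    rw [map_inv, hyc, mul_inv_rev, hbinv]
  have heinv : c⁻¹ * c⁻¹ = e := by
    rw [← mul_inv_rev, ← hec]; exact inv_eq_of_mul_eq_one_right hee
  have heinv' : ∀ z, c⁻¹ * (c⁻¹ * z) = e * z := fun z => by rw [← mul_assoc, heinv]
  have hbb' : ∀ z, b * (b * z) = z := fun z => by rw [← mul_assoc, hbb, one_mul]
  have hee' : ∀ z, e * (e * z) = z := fun z => by rw [← mul_assoc, hee, one_mul]
  have hss' : ∀ z, s * (s * z) = z := fun z => by rw [← mul_assoc, hss, one_mul]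
  have heb' : ∀ z, b * (e * z) = e * (b * z) := fun z => by rw [← mul_assoc, ← he, mul_assoc]
  have hmx : ∀ m, (m = 1 ∨ m = a) → MulAut.conj x m = m := by
    rintro m (rfl | rfl)
    · simp
    · exact hxa
  have hmy : ∀ m, (m = 1 ∨ m = a) → MulAut.conj y m = m := by
    rintro m (rfl | rfl)
    · simp
    · exact hya
  have hma : ∀ m, (m = 1 ∨ m = a) → (m * a = 1 ∨ m * a = a) := by
    rintro m (rfl | rfl)
    · right; simp
    · left; exact haa
  have hea' : ∀ z, e * (a * z) = a * (e * z) := fun z => by rw [← mul_assoc, he, mul_assoc]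
  have hba' : ∀ z, b * (a * z) = a * (b * z) := fun z => by rw [← mul_assoc, ← ha, mul_assoc]
  have hsa' : ∀ z, s * (a * z) = a * (s * z) := fun z => by rw [← mul_assoc, hs, mul_assoc]
  refine conj_mem_of_pair hxy {u | ∃ m, (m = 1 ∨ m = a) ∧ (u = m * x ∨ u = m * (c⁻¹ * x) ∨
      u = m * (e * (b * x)) ∨ u = m * (e * (b * (s * (c⁻¹ * x)))))} ?_ ?_ g x
      ⟨1, Or.inl rfl, Or.inl (by simp)⟩
  · rintro u ⟨m, hm, (rfl | rfl | rfl | rfl)⟩
    · exact ⟨m, hm, Or.inl (by simp only [map_mul, hmx m hm, hxx])⟩
    · refine ⟨m * a, hma m hm, Or.inr (Or.inl ?_)⟩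
      simp only [map_mul, hmx m hm, hxx, hxc', mul_assoc]
    · refine ⟨m, hm, Or.inr (Or.inr (Or.inl ?_))⟩
      simp only [map_mul, hmx m hm, hxx, hxe, hxb]
    · refine ⟨m * a, hma m hm, Or.inr (Or.inr (Or.inr ?_))⟩
      simp only [map_mul, hmx m hm, hxx, hxe, hxb, hxs, hxc', mul_assoc]
      simp only [hea', hba', hsa']
  · rintro u ⟨m, hm, (rfl | rfl | rfl | rfl)⟩
    · exact ⟨m, hm, Or.inr (Or.inl (by simp only [map_mul, hmy m hm, hyx]))⟩
    · refine ⟨m, hm, Or.inr (Or.inr (Or.inl ?_))⟩
      simp only [map_mul, hmy m hm, hyx, hyc', mul_assoc, heinv', heb']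
    · refine ⟨m, hm, Or.inr (Or.inr (Or.inr ?_))⟩
      simp only [map_mul, hmy m hm, hye, hyb, hyx, mul_assoc]
    · refine ⟨m, hm, Or.inl ?_⟩
      simp only [map_mul, hmy m hm, hye, hyb, hys, hyc', hyx, mul_assoc, heinv', hss', heb',
        hbb', hee']

end Pool.Agent.J6H84.ClassPres
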