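import Pool.Agent.J6H84.ClassPres.TwoB

/-!
# The 2-generated case for `p = 2`: the class is three and the commutator subgroup is elementary
-/

namespace Pool.Agent.J6H84.ClassPres

open Subgroup
open scoped commutatorElement

variable {G : Type*} [Group G]

lemma comm_commute_lcs_two (h5 : lcs G 4 = ⊥) {a t : G} (ha : a ∈ commutator G)
    (ht : t ∈ lcs G 2) : a * t = t * a := by
  have h1 : ⁅⁅(⊤ : Subgroup G), lcs G 2⁆, (⊤ : Subgroup G)⁆ = ⊥ := by
    rw [Subgroup.commutator_comm ⊤ (lcs G 2)]; exact h5
  have h2 : ⁅⁅lcs G 2, (⊤ : Subgroup G)⁆, (⊤ : Subgroup G)⁆ = ⊥ := h5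
  have h3 := Subgroup.commutator_commutator_eq_bot_of_rotate h1 h2
  have h4 : ⁅a, t⁆ ∈ (⊥ : Subgroup G) := by
    rw [← h3]
    exact Subgroup.commutator_mem_commutator ha ht
  rw [Subgroup.mem_bot, commutatorElement_eq_one_iff_mul_comm] at h4
  exact h4

lemma commutator_commute (h5 : lcs G 4 = ⊥) {x y : G} (hxy : closure {x, y} = ⊤) {a b : G}
    (ha : a ∈ commutator G) (hb : b ∈ commutator G) : a * b = b * a := by
  obtain ⟨i, t, ht, rfl⟩ := comm_form hxy ha
  obtain ⟨j, u, hu, rfl⟩ := comm_form hxy hb
  have hcA : ∀ k : ℤ, ⁅x, y⁆ ^ k ∈ commutator G := fun k => Subgroup.zpow_mem _ (comm_mem x y) k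
  have h1 : Commute (⁅x, y⁆ ^ i) (⁅x, y⁆ ^ j) := Commute.zpow_zpow_self _ _ _
  have h2 : Commute (⁅x, y⁆ ^ i) u := comm_commute_lcs_two h5 (hcA i) hu
  have h3 : Commute (⁅x, y⁆ ^ j) t := comm_commute_lcs_two h5 (hcA j) ht
  have h4 : Commute t u := comm_commute_lcs_two h5 (lcs_anti (by norm_num : 1 ≤ 2) ht) hu
  exact ((h1.mul_right h2).mul_left (h3.symm.mul_right h4)).eq

lemma conj_eq_self_of_commute {a b : G} (h : a * b = b * a) : MulAut.conj a b = b := by
  rw [MulAut.conj_apply, h, mul_inv_cancel_right]

lemma c_not_mem [Finite G] (hG : IsPGroup 2 G) {x y : G} (hxy : closure {x, y} = ⊤)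
    (h4 : lcs G 3 ≠ ⊥) : ⁅x, y⁆ ∉ lcs G 2 := by
  intro h
  have hnil : Group.IsNilpotent G := hG.isNilpotent
  have h1 : commutator G ≤ lcs G 2 := comm_le_of_pair hxy h
  have h2 : lcs G 1 = ⊥ := lcs_stab (le_antisymm (lcs_anti (by norm_num)) h1)
  apply h4
  rw [eq_bot_iff, ← h2]
  exact lcs_anti (by norm_num)

/-- The claim in case `gamma`. -/
lemma gamma_claim [Finite G] (hG : IsPGroup 2 G) (hP : P2 G) (h5 : lcs G 4 = ⊥)
    {s : G} (hs3 : s ∈ lcs G 3) (hs1 : s ≠ 1) (hall : ∀ t ∈ lcs G 3, t = 1 ∨ t = s)
    {x y : G} (hxy : closure {x, y} = ⊤) (hc : ⁅x, y⁆ ^ 2 ∈ lcs G 3)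
    (haa : ⁅x, ⁅x, y⁆⁆ * ⁅x, ⁅x, y⁆⁆ = 1) (hbb : ⁅y, ⁅x, y⁆⁆ * ⁅y, ⁅x, y⁆⁆ = 1)
    (hxa : MulAut.conj x ⁅x, ⁅x, y⁆⁆ = ⁅x, ⁅x, y⁆⁆) (hya : MulAut.conj y ⁅x, ⁅x, y⁆⁆ = ⁅x, ⁅x, y⁆⁆)
    (hxb : MulAut.conj x ⁅y, ⁅x, y⁆⁆ = ⁅y, ⁅x, y⁆⁆)
    (hyb : MulAut.conj y ⁅y, ⁅x, y⁆⁆ = ⁅y, ⁅x, y⁆⁆ * s) : ⁅x, ⁅x, y⁆⁆ = s := by
  set c := ⁅x, y⁆ with hcdef
  set a := ⁅x, c⁆ with hadef
  set b := ⁅y, c⁆ with hbdef
  have hcA : c ∈ commutator G := comm_mem x y
  have haL : a ∈ lcs G 2 := comm_mem_lcs' (n := 1) hcA x
  have hbL : b ∈ lcs G 2 := comm_mem_lcs' (n := 1) hcA y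
  have hscen : ∀ g, s * g = g * s := fun g => (lcs_central h5 hs3 g).symm
  have hss : s * s = 1 := by
    rcases hall (s * s) (Subgroup.mul_mem _ hs3 hs3) with h | h
    · exact h
    · exfalso; apply hs1
      exact mul_left_cancel (a := s) (by rw [h, mul_one])
  have hacen : ∀ g, a * g = g * a := by
    intro g
    have h1 : x * a = a * x := by
      have := hxa; rw [MulAut.conj_apply, mul_inv_eq_iff_eq_mul] at this; exact this
    have h2 : y * a = a * y := by
      have := hya; rw [MulAut.conj_apply, mul_inv_eq_iff_eq_mul] at this; exact this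
    exact (central_of_commute hxy h1 h2 g).symm
  have hec : c * c ∈ lcs G 3 := by rw [← pow_two]; exact hc
  have hecen : ∀ g, c * c * g = g * (c * c) := fun g => (lcs_central h5 hec g).symm
  have hee : c * c * (c * c) = 1 := by
    rcases hall _ hec with h | h
    · rw [h, one_mul]
    · rw [h, hss]
  have hxc : MulAut.conj x c = c * a := by
    rw [conj_eq_comm_mul, ← hadef, hacen]
  have hbc : b * c = c * b := (comm_commute_lcs_two h5 hcA hbL).symm
  have hyc : MulAut.conj y c = c * b := by
    rw [conj_eq_comm_mul, ← hbdef, hbc]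
  have hyx : MulAut.conj y x = c⁻¹ * x := by
    rw [MulAut.conj_apply, hcdef, commutatorElement_def]; group
  obtain ⟨α, hα, hαx, -⟩ := hP x y hxy s (lcs_anti (by norm_num : 1 ≤ 3) hs3) 1
    (Subgroup.one_mem _)
  have h1 := hα x
  rw [hαx] at h1
  obtain ⟨g, hg⟩ := isConj_iff.1 h1
  have hcnot : c ∉ lcs G 2 := c_not_mem hG hxy (by
    intro h; rw [h, Subgroup.mem_bot] at hs3; exact hs1 hs3)
  obtain ⟨m, hm, hor⟩ := calc_gamma (s := s) hxy hacen hscen hecen rfl hee haa hbb hss hbc hxc hxb
    hyc hyb hyx g
  have hconj : MulAut.conj g x = s * x := by rw [MulAut.conj_apply, hg, hscen]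
  rw [hconj] at hor
  have hmL : m ∈ lcs G 2 := by
    rcases hm with rfl | rfl
    · exact Subgroup.one_mem _
    · exact haL
  have hsL : s ∈ lcs G 2 := lcs_anti (by norm_num : 2 ≤ 3) hs3
  have heL : c * c ∈ lcs G 2 := lcs_anti (by norm_num : 2 ≤ 3) hec
  rcases hor with h | h | h | h
  · have h2 : s = m := mul_right_cancel h
    rcases hm with rfl | rfl
    · exact absurd h2 hs1
    · exact h2.symm
  · exfalso; apply hcnot
    have h2 : s = m * c⁻¹ := by
      apply mul_right_cancel (b := x); rw [h, mul_assoc]
    have h3 : c = s⁻¹ * m := by rw [h2]; group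
    rw [h3]
    exact Subgroup.mul_mem _ (Subgroup.inv_mem _ hsL) hmL
  · exfalso
    have h2 : s = m * (c * c * b) := by
      apply mul_right_cancel (b := x); rw [h]; simp only [mul_assoc]
    have h3 : MulAut.conj y s = MulAut.conj y (m * (c * c * b)) := by rw [← h2]
    have hys : MulAut.conj y s = s := conj_eq_self_of_commute (hscen y).symm
    have hye : MulAut.conj y (c * c) = c * c := conj_eq_self_of_commute (hecen y).symm
    have hym : MulAut.conj y m = m := by
      rcases hm with rfl | rfl
      · simp
      · exact hya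
    rw [hys, map_mul, map_mul (MulAut.conj y) (c * c) b, hye, hym, hyb] at h3
    have h4 : s = s * s := by
      calc s = m * (c * c * (b * s)) := h3
        _ = m * (c * c * b) * s := by group
        _ = s * s := by rw [← h2]
    rw [hss] at h4
    exact hs1 h4
  · exfalso; apply hcnot
    have h2 : s = m * (c * c * b * s) * c⁻¹ := by
      apply mul_right_cancel (b := x); rw [h]; simp only [mul_assoc]
    have h3 : c = s⁻¹ * (m * (c * c * b * s)) := by
      rw [eq_inv_mul_iff_mul_eq]
      nth_rewrite 1 [h2]; group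
    rw [h3]
    exact Subgroup.mul_mem _ (Subgroup.inv_mem _ hsL) (Subgroup.mul_mem _ hmL
      (Subgroup.mul_mem _ (Subgroup.mul_mem _ heL hbL) hsL))

/-- Basic data in a class four quotient. -/
lemma basic_data (h5 : lcs G 4 = ⊥)
    {x y : G} (hc : ⁅x, y⁆ ^ 2 ∈ lcs G 3) (g : G) :
    ⁅g, ⁅x, y⁆⁆ * ⁅g, ⁅x, y⁆⁆ = 1 := by
  set c := ⁅x, y⁆ with hcdef
  have hcA : c ∈ commutator G := comm_mem x y
  have haL : ⁅g, c⁆ ∈ lcs G 2 := comm_mem_lcs' (n := 1) hcA g
  have h1 : MulAut.conj g (c ^ 2) = c ^ 2 :=
    conj_eq_self_of_commute (lcs_central h5 hc g)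
  rw [map_pow, conj_eq_comm_mul] at h1
  have h2 : Commute ⁅g, c⁆ c := (comm_commute_lcs_two h5 hcA haL).symm
  rw [h2.mul_pow] at h1
  rw [← pow_two]
  exact mul_right_cancel (b := c ^ 2) (by rw [h1, one_mul])

/-- Core of the exclusion of class four. -/
lemma core [Finite G] (hG : IsPGroup 2 G) (hP : P2 G) (h5 : lcs G 4 = ⊥)
    {s : G} (hs3 : s ∈ lcs G 3) (hs1 : s ≠ 1) (hall : ∀ t ∈ lcs G 3, t = 1 ∨ t = s)
    {x y : G} (hxy : closure {x, y} = ⊤) (hc : ⁅x, y⁆ ^ 2 ∈ lcs G 3)
    (hxa : MulAut.conj x ⁅x, ⁅x, y⁆⁆ = ⁅x, ⁅x, y⁆⁆) : False := by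
  have haa := basic_data h5 hc x
  have hbb := basic_data h5 hc y
  have hcnot : ⁅x, y⁆ ∉ lcs G 2 := c_not_mem hG hxy (by
    intro h; rw [h, Subgroup.mem_bot] at hs3; exact hs1 hs3)
  set c := ⁅x, y⁆ with hcdef
  set a := ⁅x, c⁆ with hadef
  set b := ⁅y, c⁆ with hbdef
  have hcA : c ∈ commutator G := comm_mem x y
  have haL : a ∈ lcs G 2 := comm_mem_lcs' (n := 1) hcA x
  have hbL : b ∈ lcs G 2 := comm_mem_lcs' (n := 1) hcA y
  have hscen : ∀ g, s * g = g * s := fun g => (lcs_central h5 hs3 g).symm
  have hss : s * s = 1 := by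
    rcases hall (s * s) (Subgroup.mul_mem _ hs3 hs3) with h | h
    · exact h
    · exfalso; apply hs1
      exact mul_left_cancel (a := s) (by rw [h, mul_one])
  have hec : c * c ∈ lcs G 3 := by rw [← pow_two]; exact hc
  have hecen : ∀ g, c * c * g = g * (c * c) := fun g => (lcs_central h5 hec g).symm
  have hee : c * c * (c * c) = 1 := by
    rcases hall _ hec with h | h
    · rw [h, one_mul]
    · rw [h, hss]
  have hac : a * c = c * a := (comm_commute_lcs_two h5 hcA haL).symm
  have hbc : b * c = c * b := (comm_commute_lcs_two h5 hcA hbL).symm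
  have hba : b * a = a * b :=
    comm_commute_lcs_two h5 (lcs_anti (by norm_num : 1 ≤ 2) hbL) haL
  have hxc : MulAut.conj x c = c * a := by
    rw [conj_eq_comm_mul, ← hadef, hac]
  have hyc : MulAut.conj y c = c * b := by
    rw [conj_eq_comm_mul, ← hbdef, hbc]
  have hyx : MulAut.conj y x = c⁻¹ * x := by
    rw [MulAut.conj_apply, hcdef, commutatorElement_def]; group
  -- the dichotomy for conjugates of elements of γ_3
  have hdich : ∀ g, ∀ t ∈ lcs G 2, MulAut.conj g t = t ∨ MulAut.conj g t = t * s := by
    intro g t ht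
    rcases hall _ (comm_mem_lcs' ht g) with h | h
    · left; rw [conj_eq_comm_mul, h, one_mul]
    · right; rw [conj_eq_comm_mul, h, hscen]
  -- symmetry
  have hsymm : MulAut.conj x (c * b) = MulAut.conj y (c * a) := by
    rw [← hxc, ← hyc, ← MulAut.mul_apply, ← map_mul, ← MulAut.mul_apply, ← map_mul]
    have h1 : x * y = c * (y * x) := by rw [hcdef, commutatorElement_def]; group
    rw [h1, map_mul (MulAut.conj) c (y * x), MulAut.mul_apply]
    apply conj_eq_self_of_commute
    have h2 : MulAut.conj (y * x) c ∈ commutator G := by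
      rw [MulAut.conj_apply]
      exact Subgroup.Normal.conj_mem inferInstance c hcA _
    exact commutator_commute h5 hxy hcA h2
  -- an automorphism multiplying c by s when conj x b = b s
  have hmain : MulAut.conj x b = b * s → False := by
    intro hxb
    have hya : MulAut.conj y a = a * s := by
      rw [map_mul, map_mul, hxc, hyc, hxb] at hsymm
      rcases hdich y a haL with h | h
      · exfalso
        rw [h] at hsymm
        apply hs1
        have : c * a * b * s = c * a * b := by
          calc c * a * b * s = c * a * (b * s) := by group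
            _ = c * b * a := hsymm
            _ = c * (b * a) := by group
            _ = c * a * b := by rw [hba]; group
        exact mul_left_cancel (a := c * a * b) (by rw [this, mul_one])
      · exact h
    obtain ⟨α, hα, hαx, hαy⟩ := hP x y hxy 1 (Subgroup.one_mem _) b
      (lcs_anti (by norm_num : 1 ≤ 2) hbL)
    have hxb' : ⁅x, b⁆ = s := by
      have := conj_eq_comm_mul x b
      rw [hxb, ← hscen] at this
      exact (mul_right_cancel this).symm
    have hαc : α c = c * s := by
      rw [hcdef, map_commutatorElement, hαx, hαy, mul_one, comm_mul_right, hxb', ← hscen y,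
        mul_inv_cancel_right]
    rcases hdich y b hbL with hyb | hyb
    · -- case alpha
      obtain ⟨g, hg⟩ := isConj_iff.1 (hα c)
      rw [hαc] at hg
      have h1 := calc_alpha hxy hac hbc hba hscen haa hbb hss hxc hxa hxb hyc hya hyb g
      rw [MulAut.conj_apply, hg] at h1
      rcases h1 with h | h | h | h
      · exact hs1 (mul_left_cancel (a := c) (by rw [h, mul_one]))
      · have h2 : s = a := mul_left_cancel h
        rw [← h2] at hya
        have h3 : MulAut.conj y s = s := conj_eq_self_of_commute (hscen y).symm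
        rw [h3, hss] at hya
        exact hs1 hya
      · have h2 : s = b := mul_left_cancel h
        rw [← h2] at hxb
        have h3 : MulAut.conj x s = s := conj_eq_self_of_commute (hscen x).symm
        rw [h3, hss] at hxb
        exact hs1 hxb
      · have h2 : c * 1 = c * (a * b) := by
          have h0 : c * 1 * s = c * (a * b) * s := by
            rw [mul_one, h]; group
          exact mul_right_cancel h0
        have h3 : a * b = 1 := (mul_left_cancel h2).symm
        have h4 : MulAut.conj x (a * b) = 1 := by rw [h3, map_one]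
        rw [map_mul, hxa, hxb, ← mul_assoc, h3, one_mul] at h4
        exact hs1 h4
    · -- case beta
      have hαt : α (x * x * c) = x * x * c * s := by
        rw [map_mul, map_mul, hαx, hαc, mul_one, mul_assoc (x * x)]
      obtain ⟨g, hg⟩ := isConj_iff.1 (hα (x * x * c))
      rw [hαt] at hg
      have h1 := calc_beta hxy hac hba hscen hecen rfl hee haa hbb hss hxc hxa hxb hyc hya hyb
        hyx g
      rw [MulAut.conj_apply, hg] at h1
      set t := x * x * c with ht
      rcases h1 with h | h | h | h
      · exact hs1 (mul_left_cancel (a := t) (by rw [h, mul_one]))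
      · have h2 : s = a := mul_left_cancel h
        rw [← h2] at hya
        have h3 : MulAut.conj y s = s := conj_eq_self_of_commute (hscen y).symm
        rw [h3, hss] at hya
        exact hs1 hya
      · have h2 : s = a * b * (c * c) := by
          apply mul_left_cancel (a := t); rw [h]; simp only [mul_assoc]
        have h3 : MulAut.conj x s = MulAut.conj x (a * b * (c * c)) := by rw [← h2]
        rw [conj_eq_self_of_commute (hscen x).symm, map_mul, map_mul, hxa, hxb,
          conj_eq_self_of_commute (hecen x).symm] at h3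
        have h4 : s = s * s := by
          calc s = a * (b * s) * (c * c) := h3
            _ = a * b * (s * (c * c)) := by group
            _ = a * b * ((c * c) * s) := by rw [hscen]
            _ = (a * b * (c * c)) * s := by group
            _ = s * s := by rw [← h2]
        rw [hss] at h4
        exact hs1 h4
      · have h2 : s = b * s * (c * c) := by
          apply mul_left_cancel (a := t); rw [h]; simp only [mul_assoc]
        have h3 : b = c * c := by
          have h5' : b * (c * c) = 1 := by
            have : s * (b * (c * c)) = s * 1 := by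
              rw [mul_one, ← mul_assoc, hscen b]; exact h2.symm
            exact mul_left_cancel this
          calc b = b * (c * c * (c * c)) := by rw [hee, mul_one]
            _ = b * (c * c) * (c * c) := by group
            _ = c * c := by rw [h5', one_mul]
        have h4 : MulAut.conj x b = b := by
          rw [h3]; exact conj_eq_self_of_commute (hecen x).symm
        rw [hxb] at h4
        exact hs1 (mul_left_cancel (a := b) (by rw [h4, mul_one]))
  rcases hdich x b hbL with hxb | hxb
  · -- conj x b = b; then conj y a = a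
    have hya : MulAut.conj y a = a := by
      rw [map_mul, map_mul, hxc, hyc, hxb] at hsymm
      have : c * b * a = c * b * MulAut.conj y a := by
        rw [← hsymm, mul_assoc, hba, mul_assoc]
      exact (mul_left_cancel this).symm
    rcases hdich y b hbL with hyb | hyb
    · -- everything central: contradiction
      have hacen := central_of_commute hxy
        (show x * a = a * x by
          have := hxa; rw [MulAut.conj_apply, mul_inv_eq_iff_eq_mul] at this; exact this)
        (show y * a = a * y by
          have := hya; rw [MulAut.conj_apply, mul_inv_eq_iff_eq_mul] at this; exact this)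
      have hbcen := central_of_commute hxy
        (show x * b = b * x by
          have := hxb; rw [MulAut.conj_apply, mul_inv_eq_iff_eq_mul] at this; exact this)
        (show y * b = b * y by
          have := hyb; rw [MulAut.conj_apply, mul_inv_eq_iff_eq_mul] at this; exact this)
      -- γ_3 is contained in the centre
      have hZ : lcs G 2 ≤ Subgroup.center G := by
        have hbarc : ∀ g : G ⧸ Subgroup.center G, g * (c : G ⧸ Subgroup.center G) =
            (c : G ⧸ Subgroup.center G) * g := by
          refine central_of_commute (closure_pair_quotient hxy _) ?_ ?_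
          · rw [← commutatorElement_eq_one_iff_mul_comm]
            have : ⁅(x : G ⧸ Subgroup.center G), (c : G ⧸ Subgroup.center G)⁆ =
                ((a : G) : G ⧸ Subgroup.center G) := by
              rw [hadef]; simp [commutatorElement_def]
            rw [this, QuotientGroup.eq_one_iff, Subgroup.mem_center_iff]
            exact hacen
          · rw [← commutatorElement_eq_one_iff_mul_comm]
            have : ⁅(y : G ⧸ Subgroup.center G), (c : G ⧸ Subgroup.center G)⁆ =
                ((b : G) : G ⧸ Subgroup.center G) := by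
              rw [hbdef]; simp [commutatorElement_def]
            rw [this, QuotientGroup.eq_one_iff, Subgroup.mem_center_iff]
            exact hbcen
        have h1 : commutator (G ⧸ Subgroup.center G) ≤
            Subgroup.center (G ⧸ Subgroup.center G) := by
          refine comm_le_of_pair (closure_pair_quotient hxy _) ?_
          rw [Subgroup.mem_center_iff]
          have : ⁅(x : G ⧸ Subgroup.center G), (y : G ⧸ Subgroup.center G)⁆ =
              ((c : G) : G ⧸ Subgroup.center G) := by
            rw [hcdef]; simp [commutatorElement_def]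
          rw [this]
          exact hbarc
        have h2 : lcs (G ⧸ Subgroup.center G) 2 = ⊥ := by
          have : lcs (G ⧸ Subgroup.center G) 2 =
            ⁅commutator (G ⧸ Subgroup.center G), (⊤ : Subgroup (G ⧸ Subgroup.center G))⁆ := rfl
          rw [this, Subgroup.commutator_eq_bot_iff_le_centralizer]
          intro a ha
          rw [Subgroup.mem_centralizer_iff]
          intro g _
          exact Subgroup.mem_center_iff.1 (h1 ha) g
        rw [← map_lcs, Subgroup.map_eq_bot_iff, QuotientGroup.ker_mk'] at h2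
        exact h2
      have h3 : lcs G 3 = ⊥ := by
        have : lcs G 3 = ⁅lcs G 2, (⊤ : Subgroup G)⁆ := rfl
        rw [this, Subgroup.commutator_eq_bot_iff_le_centralizer]
        intro t ht
        rw [Subgroup.mem_centralizer_iff]
        intro g _
        exact Subgroup.mem_center_iff.1 (hZ ht) g
      rw [h3, Subgroup.mem_bot] at hs3
      exact hs1 hs3
    · -- case gamma
      have h1 : a = s := gamma_claim hG hP h5 hs3 hs1 hall hxy hc haa hbb hxa hya hxb hyb
      -- the new pair
      set x' := x * y ^ 2 with hx'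
      have hc' : ⁅x', y⁆ = c := by
        rw [hx', comm_mul_left]
        have : ⁅y ^ 2, y⁆ = 1 := by
          rw [commutatorElement_eq_one_iff_mul_comm]
          exact (Commute.pow_self y 2).eq
        rw [this]; simp [hcdef]
      have hxy' : closure {x', y} = ⊤ := by
        rw [eq_top_iff, ← hxy, Subgroup.closure_le]
        have e1 : x' ∈ closure ({x', y} : Set G) := Subgroup.subset_closure (by simp)
        have e2 : y ∈ closure ({x', y} : Set G) := Subgroup.subset_closure (by simp)
        rintro w (rfl | rfl)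
        · have : w = x' * (y ^ 2)⁻¹ := by rw [hx']; group
          rw [this]
          exact Subgroup.mul_mem _ e1 (Subgroup.inv_mem _ (Subgroup.pow_mem _ e2 _))
        · exact e2
      have hy2c : MulAut.conj (y ^ 2) c = c * s := by
        rw [pow_two, map_mul, MulAut.mul_apply, hyc, map_mul, hyc, hyb]
        calc c * b * (b * s) = c * (b * b) * s := by group
          _ = c * s := by rw [hbb, mul_one]
      have hconjx'c : MulAut.conj x' c = c := by
        rw [hx', map_mul, MulAut.mul_apply, hy2c, map_mul, hxc, h1,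
          conj_eq_self_of_commute (hscen x).symm, mul_assoc, hss, mul_one]
      have ha' : ⁅x', c⁆ = 1 := by
        rw [conj_eq_comm_mul] at hconjx'c
        exact mul_right_cancel (b := c) (by rw [hconjx'c, one_mul])
      have hx'b : MulAut.conj x' b = b := by
        rw [hx', map_mul, MulAut.mul_apply, pow_two, map_mul, MulAut.mul_apply, hyb, map_mul, hyb,
          conj_eq_self_of_commute (hscen y).symm, mul_assoc, hss, mul_one, hxb]
      have h2 := gamma_claim hG hP h5 hs3 hs1 hall hxy' (by rw [hc']; exact hc)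
        (by rw [hc', ha', one_mul]) (by rw [hc']; exact hbb)
        (by rw [hc', ha', map_one]) (by rw [hc', ha', map_one]) (by rw [hc']; exact hx'b)
        (by rw [hc']; exact hyb)
      rw [hc', ha'] at h2
      exact hs1 h2.symm
  · exact hmain hxb

/-- Exclusion of class four. -/
lemma false_of_class_four [Finite G] (hG : IsPGroup 2 G) {x y : G} (hxy : closure {x, y} = ⊤)
    (hP : P2 G) (h5 : lcs G 4 = ⊥) (h4 : Nat.card (lcs G 3) = 2)
    (hc : ⁅x, y⁆ ^ 2 ∈ lcs G 3) : False := by
  classical
  obtain ⟨s, hs3, hs1, hall⟩ : ∃ s ∈ lcs G 3, s ≠ 1 ∧ ∀ t ∈ lcs G 3, t = 1 ∨ t = s := by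
    have hnt : Nontrivial (lcs G 3) := by
      rw [← Finite.one_lt_card_iff_nontrivial, h4]; norm_num
    obtain ⟨⟨s, hs⟩, hs1⟩ := exists_ne (1 : lcs G 3)
    refine ⟨s, hs, fun h => hs1 (Subtype.ext h), ?_⟩
    intro t ht
    by_contra hcon
    push Not at hcon
    have h3 : ({1, ⟨s, hs⟩, ⟨t, ht⟩} : Finset (lcs G 3)).card = 3 := by
      rw [Finset.card_insert_of_notMem, Finset.card_insert_of_notMem, Finset.card_singleton]
      · simp only [Finset.mem_singleton]
        intro h; exact hcon.2 (congrArg Subtype.val h).symm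
      · simp only [Finset.mem_insert, Finset.mem_singleton, not_or]
        exact ⟨fun h => hs1 h.symm, fun h => hcon.1 (congrArg Subtype.val h).symm⟩
    have h5 : ({1, ⟨s, hs⟩, ⟨t, ht⟩} : Finset (lcs G 3)).card ≤ Nat.card (lcs G 3) := by
      have := Fintype.ofFinite (lcs G 3)
      rw [Nat.card_eq_fintype_card]
      exact Finset.card_le_univ _
    omega
  have hscen : ∀ g, s * g = g * s := fun g => (lcs_central h5 hs3 g).symm
  have hss : s * s = 1 := by
    rcases hall (s * s) (Subgroup.mul_mem _ hs3 hs3) with h | h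
    · exact h
    · exfalso; apply hs1
      exact mul_left_cancel (a := s) (by rw [h, mul_one])
  have hdich : ∀ g, ∀ t ∈ lcs G 2, MulAut.conj g t = t ∨ MulAut.conj g t = t * s := by
    intro g t ht
    rcases hall _ (comm_mem_lcs' ht g) with h | h
    · left; rw [conj_eq_comm_mul, h, one_mul]
    · right; rw [conj_eq_comm_mul, h, hscen]
  have haa := basic_data h5 hc x
  have hbb := basic_data h5 hc y
  have hcA : ⁅x, y⁆ ∈ commutator G := comm_mem x y
  have haL : ⁅x, ⁅x, y⁆⁆ ∈ lcs G 2 := comm_mem_lcs' (n := 1) hcA x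
  have hbL : ⁅y, ⁅x, y⁆⁆ ∈ lcs G 2 := comm_mem_lcs' (n := 1) hcA y
  rcases hdich x _ haL with h | h
  · exact core hG hP h5 hs3 hs1 hall hxy hc h
  rcases hdich y _ hbL with h' | h'
  · -- swap
    have hxy' : closure {y, x} = ⊤ := by rw [Set.pair_comm]; exact hxy
    have e1 : ⁅y, x⁆ = ⁅x, y⁆⁻¹ := (commutatorElement_inv x y).symm
    have e2 : ⁅y, ⁅y, x⁆⁆ = ⁅y, ⁅x, y⁆⁆ := by
      have h1 : Commute (⁅y, ⁅x, y⁆⁆) (⁅x, y⁆) := (comm_commute_lcs_two h5 hcA hbL).symm
      have h2 : MulAut.conj y ⁅x, y⁆⁻¹ = ⁅x, y⁆⁻¹ * ⁅y, ⁅x, y⁆⁆ := by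
        rw [map_inv, conj_eq_comm_mul, mul_inv_rev]
        congr 1
        exact inv_eq_of_mul_eq_one_right hbb
      rw [conj_eq_comm_mul, ← (h1.inv_right).eq] at h2
      rw [e1]
      exact mul_right_cancel h2
    refine core hG hP h5 hs3 hs1 hall hxy' ?_ ?_
    · rw [e1, inv_pow]; exact Subgroup.inv_mem _ hc
    · rw [e2]; exact h'
  · -- replace x by x y
    set c := ⁅x, y⁆ with hcdef
    set a := ⁅x, c⁆ with hadef
    set b := ⁅y, c⁆ with hbdef
    have hxy' : closure {x * y, y} = ⊤ := by
      rw [eq_top_iff, ← hxy, Subgroup.closure_le]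
      have e1 : x * y ∈ closure ({x * y, y} : Set G) := Subgroup.subset_closure (by simp)
      have e2 : y ∈ closure ({x * y, y} : Set G) := Subgroup.subset_closure (by simp)
      rintro w (hw | hw)
      · have : w = (x * y) * y⁻¹ := by rw [hw]; group
        rw [this]
        exact Subgroup.mul_mem _ e1 (Subgroup.inv_mem _ e2)
      · rw [hw]; exact e2
    have hc' : ⁅x * y, y⁆ = c := by
      rw [comm_mul_left]; simp [hcdef]
    have hac : a * c = c * a := (comm_commute_lcs_two h5 hcA haL).symm
    have hbc : b * c = c * b := (comm_commute_lcs_two h5 hcA hbL).symm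
    have hba : b * a = a * b :=
      comm_commute_lcs_two h5 (lcs_anti (by norm_num : 1 ≤ 2) hbL) haL
    have hxc : MulAut.conj x c = c * a := by
      rw [conj_eq_comm_mul, ← hadef, hac]
    have hyc : MulAut.conj y c = c * b := by
      rw [conj_eq_comm_mul, ← hbdef, hbc]
    have hsymm : MulAut.conj x (c * b) = MulAut.conj y (c * a) := by
      rw [← hxc, ← hyc, ← MulAut.mul_apply, ← map_mul, ← MulAut.mul_apply, ← map_mul]
      have h1 : x * y = c * (y * x) := by rw [hcdef, commutatorElement_def]; group
      rw [h1, map_mul (MulAut.conj) c (y * x), MulAut.mul_apply]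
      apply conj_eq_self_of_commute
      have h2 : MulAut.conj (y * x) c ∈ commutator G := by
        rw [MulAut.conj_apply]
        exact Subgroup.Normal.conj_mem inferInstance c hcA _
      exact commutator_commute h5 hxy hcA h2
    -- conj x b = b u, conj y a = a u with u central, u * u = 1
    obtain ⟨u, hu3, hxb⟩ : ∃ u ∈ lcs G 3, MulAut.conj x b = b * u := by
      rcases hdich x b hbL with hh | hh
      · exact ⟨1, Subgroup.one_mem _, by rw [hh, mul_one]⟩
      · exact ⟨s, hs3, hh⟩
    have hucen : ∀ g, u * g = g * u := fun g => (lcs_central h5 hu3 g).symm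
    have huu : u * u = 1 := by
      rcases hall u hu3 with rfl | rfl
      · simp
      · exact hss
    have hya : MulAut.conj y a = a * u := by
      rw [map_mul, map_mul, hxc, hyc, hxb] at hsymm
      have : c * b * (a * u) = c * b * MulAut.conj y a := by
        rw [← hsymm]
        calc c * b * (a * u) = c * (b * a) * u := by group
          _ = c * a * (b * u) := by rw [hba]; group
      exact (mul_left_cancel this).symm
    have hconj : MulAut.conj (x * y) c = c * (a * b * u) := by
      rw [map_mul, MulAut.mul_apply, hyc, map_mul, hxc, hxb]; group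
    have ha' : ⁅x * y, c⁆ = a * b * u := by
      rw [conj_eq_comm_mul] at hconj
      have habu : a * b * u ∈ lcs G 2 := Subgroup.mul_mem _ (Subgroup.mul_mem _ haL hbL)
        (lcs_anti (by norm_num : 2 ≤ 3) hu3)
      have : c * (a * b * u) = (a * b * u) * c := comm_commute_lcs_two h5 hcA habu
      rw [this] at hconj
      exact mul_right_cancel hconj
    refine core hG hP h5 hs3 hs1 hall hxy' (by rw [hc']; exact hc) ?_
    rw [hc', ha', map_mul (MulAut.conj) x y, MulAut.mul_apply]
    have e1 : MulAut.conj y (a * b * u) = a * b * s := by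
      rw [map_mul, map_mul, hya, h', conj_eq_self_of_commute (hucen y).symm]
      calc a * u * (b * s) * u = a * (u * b) * (s * u) := by group
        _ = a * (b * u) * (u * s) := by rw [hucen b, hscen u]
        _ = a * b * (u * u) * s := by group
        _ = a * b * s := by rw [huu, mul_one]
    rw [e1, map_mul, map_mul, h, hxb, conj_eq_self_of_commute (hscen x).symm]
    calc a * s * (b * u) * s = a * (s * b) * (u * s) := by group
      _ = a * (b * s) * (s * u) := by rw [hscen b, hucen s]
      _ = a * b * (s * s) * u := by group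
      _ = a * b * u := by rw [hss, mul_one]

end Pool.Agent.J6H84.ClassPres
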