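import Pool.Agent.J6H84.ClassPres.TwoC

/-!
# The 2-generated case: necessity
-/

namespace Pool.Agent.J6H84.ClassPres

open Subgroup
open scoped commutatorElement

variable {G : Type*} [Group G]

lemma sq_eq_one_of_lcs_two (h4 : lcs G 3 = ⊥) {x y : G} (hxy : closure {x, y} = ⊤)
    (hc : ⁅x, y⁆ ^ 2 ∈ lcs G 2) {t : G} (ht : t ∈ lcs G 2) : t ^ 2 = 1 := by
  -- squares of elements of the commutator subgroup are central
  have hsq : ∀ a ∈ commutator G, ∀ g, g * a ^ 2 = a ^ 2 * g := by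
    intro a ha g
    obtain ⟨i, t, ht, rfl⟩ := comm_form hxy ha
    have h1 : Commute (⁅x, y⁆ ^ i) t := lcs_central h4 ht _
    rw [h1.mul_pow]
    have h2 : Commute g ((⁅x, y⁆ ^ i) ^ 2) := by
      rw [← zpow_natCast, ← zpow_mul, mul_comm, zpow_mul, zpow_natCast]
      exact Commute.zpow_right (lcs_central h4 hc g) i
    have h3 : Commute g (t ^ 2) := Commute.pow_right (lcs_central h4 ht g) 2
    exact (h2.mul_right h3).eq
  have hcen : ∀ t ∈ lcs G 2, ∀ g : G, g * t = t * g := fun t ht g => lcs_central h4 ht g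
  have hgen : ∀ a ∈ commutator G, ∀ g : G, ⁅a, g⁆ ^ 2 = 1 := by
    intro a ha g
    have hz : ⁅g, a⁆ ∈ lcs G 2 := comm_mem_lcs' (n := 1) ha g
    have h1 : MulAut.conj g (a ^ 2) = a ^ 2 := conj_eq_self_of_commute (hsq a ha g)
    rw [map_pow, conj_eq_comm_mul] at h1
    have h2 : Commute ⁅g, a⁆ a := (hcen _ hz a).symm
    rw [h2.mul_pow] at h1
    have h3 : ⁅g, a⁆ ^ 2 = 1 := mul_right_cancel (b := a ^ 2) (by rw [h1, one_mul])
    rw [← commutatorElement_inv, inv_pow, h3, inv_one]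
  have ht' : t ∈ closure {g | ∃ a ∈ commutator G, ∃ b ∈ (⊤ : Subgroup G), ⁅a, b⁆ = g} := ht
  have hle : closure {g | ∃ a ∈ commutator G, ∃ b ∈ (⊤ : Subgroup G), ⁅a, b⁆ = g} = lcs G 2 := rfl
  induction ht' using Subgroup.closure_induction with
  | mem s hs =>
    obtain ⟨a, ha, b, -, rfl⟩ := hs
    exact hgen a ha b
  | one => simp
  | mul u v hu hv ihu ihv =>
    have h1 : Commute u v := by
      rw [hle] at hv
      exact hcen v hv u
    rw [h1.mul_pow, ihu (by rw [← hle]; exact hu), ihv (by rw [← hle]; exact hv), one_mul]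
  | inv u hu ihu => rw [inv_pow, ihu (by rw [← hle]; exact hu), inv_one]

/-- If `c ^ 2 ∈ γ_3` then `c ^ 2 ∈ γ_4`. -/
lemma sq_mem_lcs_three [Finite G] (hG : IsPGroup 2 G) {x y : G} (hxy : closure {x, y} = ⊤)
    (hP : P2 G) (hc : ⁅x, y⁆ ^ 2 ∈ lcs G 2) : ⁅x, y⁆ ^ 2 ∈ lcs G 3 := by
  by_contra hcon
  obtain ⟨N, hN⟩ := (Set.toFinite {N : Subgroup G | N.Normal ∧ lcs G 3 ≤ N ∧
    ⁅x, y⁆ ^ 2 ∉ N}).exists_maximal ⟨lcs G 3, inferInstance, le_rfl, hcon⟩
  obtain ⟨⟨hNn, hN3, hNc⟩, hNmax⟩ := hN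
  have hG' : IsPGroup 2 (G ⧸ N) := hG.to_quotient N
  have hxy' := closure_pair_quotient hxy N
  have hP' := hP.quotient hxy N
  have h4 : lcs (G ⧸ N) 3 = ⊥ := by
    rw [← map_lcs, Subgroup.map_eq_bot_iff, QuotientGroup.ker_mk']; exact hN3
  have hcbar : ⁅(x : G ⧸ N), (y : G ⧸ N)⁆ = ((⁅x, y⁆ : G) : G ⧸ N) := by
    simp [commutatorElement_def]
  set c' : G ⧸ N := ⁅(x : G ⧸ N), (y : G ⧸ N)⁆ with hc'def
  have hc'ne : c' ^ 2 ≠ 1 := by
    rw [hcbar, ← QuotientGroup.mk_pow, Ne, QuotientGroup.eq_one_iff]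
    exact hNc
  have hc'2 : c' ^ 2 ∈ lcs (G ⧸ N) 2 := by
    rw [hcbar, ← QuotientGroup.mk_pow, ← map_lcs]
    exact ⟨_, hc, rfl⟩
  have hkey : ∀ M : Subgroup (G ⧸ N), M.Normal → M ≠ ⊥ → c' ^ 2 ∈ M := by
    intro M hM hMne
    by_contra hMc
    have hle : N ≤ M.comap (QuotientGroup.mk' N) := by
      intro n hn
      rw [Subgroup.mem_comap, QuotientGroup.mk'_apply, (QuotientGroup.eq_one_iff n).2 hn]
      exact M.one_mem
    have h1 := hNmax (y := M.comap (QuotientGroup.mk' N)) ⟨inferInstance, hN3.trans hle, by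
      rw [Subgroup.mem_comap, QuotientGroup.mk'_apply, QuotientGroup.mk_pow, ← hcbar]
      exact hMc⟩ hle
    apply hMne
    rw [eq_bot_iff]
    intro m hm
    obtain ⟨g, rfl⟩ := QuotientGroup.mk_surjective m
    have : g ∈ N := h1 hm
    rw [(QuotientGroup.eq_one_iff g).2 this]
    exact Subgroup.one_mem _
  have hsq : ∀ t ∈ lcs (G ⧸ N) 2, t ^ 2 = 1 := fun t ht =>
    sq_eq_one_of_lcs_two h4 hxy' hc'2 ht
  have hall : ∀ t ∈ lcs (G ⧸ N) 2, t ≠ 1 → t = c' ^ 2 := by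
    intro t ht ht1
    have hn : (zpowers t).Normal := by
      constructor
      intro n hn g
      obtain ⟨k, rfl⟩ := hn
      have : Commute g (t ^ k) := Commute.zpow_right (lcs_central h4 ht g) k
      simp only
      rw [this.eq, mul_inv_cancel_right]
      exact ⟨k, rfl⟩
    have h1 := hkey (zpowers t) hn (by rw [Ne, Subgroup.zpowers_eq_bot]; exact ht1)
    obtain ⟨k, hk⟩ := h1
    simp only at hk
    rcases Int.even_or_odd' k with ⟨m, rfl | rfl⟩
    · exfalso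
      rw [zpow_mul, zpow_ofNat, hsq t ht, one_zpow] at hk
      exact hc'ne hk.symm
    · rw [zpow_add, zpow_mul, zpow_ofNat, hsq t ht, one_zpow, one_mul, zpow_one] at hk
      exact hk
  have hcard : Nat.card (lcs (G ⧸ N) 2) = 2 := by
    have h1 : lcs (G ⧸ N) 2 = zpowers (c' ^ 2) := by
      apply le_antisymm
      · intro t ht
        by_cases ht1 : t = 1
        · rw [ht1]; exact Subgroup.one_mem _
        · rw [hall t ht ht1]; exact Subgroup.mem_zpowers _
      · rw [Subgroup.zpowers_le]; exact hc'2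
    rw [h1, Nat.card_zpowers]
    have : Fact (Nat.Prime 2) := ⟨Nat.prime_two⟩
    exact orderOf_eq_prime (hsq _ hc'2) hc'ne
  have : Fact (Nat.Prime 2) := ⟨Nat.prime_two⟩
  obtain ⟨x₁, y₁, hxy₁, hc₁, hx₁, hw⟩ := exists_good_pair (p := 2) hxy' h4 hcard
  set c₁ := ⁅x₁, y₁⁆ with hc₁def
  set w := ⁅y₁, c₁⁆ with hwdef
  have hc₁A : c₁ ∈ lcs (G ⧸ N) 1 := comm_mem x₁ y₁
  have hwT : w ∈ lcs (G ⧸ N) 2 := comm_mem_lcs' (n := 1) hc₁A y₁
  have hwc : ∀ g, g * w = w * g := fun g => lcs_central h4 hwT g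
  have hc₁2 : c₁ ^ 2 = c' ^ 2 := by
    rcases hc₁ with h | h
    · rw [h]
    · rw [h, inv_pow]
      exact inv_eq_of_mul_eq_one_right (by rw [← pow_two]; exact hsq _ hc'2)
  have hwc₁ : w = c₁ ^ 2 := by rw [hc₁2]; exact hall w hwT hw
  obtain ⟨h, hh⟩ := hP'.exists_comm hxy₁ (lcs_anti (by norm_num : 1 ≤ 2) hwT)
  obtain ⟨n, hn⟩ := exists_pow_comm hxy₁ hx₁ h
  rw [hh, comm_pow_formula (w := w)
    (by show y₁ * c₁ * y₁⁻¹ = w * c₁; rw [hwdef, commutatorElement_def]; group) hwc n] at hn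
  rw [← hc₁def, hwc₁, ← pow_mul, ← pow_add] at hn
  have hord : orderOf c₁ = 4 := by
    have := orderOf_eq_prime_pow (p := 2) (n := 1) (x := c₁) (by
      rw [pow_one, hc₁2]; exact hc'ne) (by
      show c₁ ^ (2 ^ 2) = 1
      rw [show (2 : ℕ) ^ 2 = 2 * 2 by norm_num, pow_mul, hc₁2]
      exact hsq _ hc'2)
    exact this
  rw [pow_eq_pow_iff_modEq, hord] at hn
  have h5 : n + 2 * n.choose 2 = n ^ 2 := by
    have := Nat.choose_two_right n
    have h6 : 2 * n.choose 2 = n * (n - 1) := by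
      rw [this, Nat.mul_div_cancel' (Nat.even_mul_pred_self n).two_dvd]
    rw [h6]
    cases n with
    | zero => simp
    | succ m => simp only [Nat.add_sub_cancel]; ring
  rw [h5] at hn
  have h7 : n ^ 2 % 4 = 0 ∨ n ^ 2 % 4 = 1 := by
    rcases Nat.even_or_odd' n with ⟨m, rfl | rfl⟩
    · left
      have : (2 * m) ^ 2 = 4 * m ^ 2 := by ring
      omega
    · right
      have : (2 * m + 1) ^ 2 = 4 * (m ^ 2 + m) + 1 := by ring
      omega
  have h8 : 2 % 4 = n ^ 2 % 4 := hn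
  omega

/-- For `p = 2` and `c ^ 2 ∈ γ_3` the group has class at most three and elementary abelian
commutator subgroup. -/
lemma elementary_of_sq_mem [Finite G] (hG : IsPGroup 2 G) {x y : G}
    (hxy : closure {x, y} = ⊤) (hP : P2 G) (hc : ⁅x, y⁆ ^ 2 ∈ lcs G 2) :
    lcs G 3 = ⊥ ∧ ∀ a ∈ commutator G, a ^ 2 = 1 := by
  have : Fact (Nat.Prime 2) := ⟨Nat.prime_two⟩
  have hc3 := sq_mem_lcs_three hG hxy hP hc
  have h4 : lcs G 3 = ⊥ := by
    by_contra hne
    obtain ⟨N, hNn, -, -, hN5, hN4⟩ := exists_reduction (p := 2) hG 3 hne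
    refine false_of_class_four (hG.to_quotient N) (closure_pair_quotient hxy N)
      (hP.quotient hxy N) hN5 hN4 ?_
    have : ⁅(x : G ⧸ N), (y : G ⧸ N)⁆ = ((⁅x, y⁆ : G) : G ⧸ N) := by
      simp [commutatorElement_def]
    rw [this, ← QuotientGroup.mk_pow, ← map_lcs]
    exact ⟨_, hc3, rfl⟩
  refine ⟨h4, ?_⟩
  intro a ha
  obtain ⟨i, t, ht, rfl⟩ := comm_form hxy ha
  have h1 : Commute (⁅x, y⁆ ^ i) t := lcs_central h4 ht _
  rw [h1.mul_pow, sq_eq_one_of_lcs_two h4 hxy hc ht, mul_one]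
  rw [h4, Subgroup.mem_bot] at hc3
  rw [← zpow_natCast, ← zpow_mul, mul_comm, zpow_mul, zpow_natCast, hc3, one_zpow]

/-- Necessity in the 2-generated case. -/
theorem two_necessity {p : ℕ} [hp : Fact p.Prime] [Finite G] (hG : IsPGroup p G) {x y : G}
    (hxy : closure {x, y} = ⊤) (hP : P2 G) :
    (IsCyclic (commutator G) ∧ (p = 2 → ∀ t ∈ lcs G 2, ∃ b ∈ commutator G, t = b ^ 4)) ∨
    (p = 2 ∧ lcs G 3 = ⊥ ∧ ∀ a ∈ commutator G, a ^ 2 = 1) := by
  by_cases hp2 : p = 2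
  · subst hp2
    by_cases hc : ⁅x, y⁆ ^ 2 ∈ lcs G 2
    · exact Or.inr ⟨rfl, elementary_of_sq_mem hG hxy hP hc⟩
    · left
      have h1 := lcs_two_le_powComm_four hG hxy hP hc
      have h2 := commutator_eq_zpowers hG hxy (by norm_num : 2 ∣ 4) h1
      refine ⟨?_, fun _ => ?_⟩
      · rw [h2]; infer_instance
      · -- the fourth powers form a normal subgroup
        have hform : ∀ t ∈ powComm G 4, ∃ b ∈ commutator G, t = b ^ 4 := by
          have hn : (zpowers (⁅x, y⁆ ^ 4)).Normal := by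
            constructor
            intro n hn g
            obtain ⟨k, rfl⟩ := hn
            simp only
            have h3 : g * ⁅x, y⁆ * g⁻¹ ∈ commutator G :=
              Subgroup.Normal.conj_mem inferInstance _ (comm_mem x y) g
            rw [h2] at h3
            obtain ⟨m, hm⟩ := h3
            simp only at hm
            refine ⟨m * k, ?_⟩
            simp only
            have h4 : g * (⁅x, y⁆ ^ 4) ^ k * g⁻¹ = ((g * ⁅x, y⁆ * g⁻¹) ^ 4) ^ k := by
              rw [← MulAut.conj_apply, ← MulAut.conj_apply, map_zpow, map_pow]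
            rw [h4, ← hm, ← zpow_natCast, ← zpow_natCast, ← zpow_mul, ← zpow_mul, ← zpow_mul]
            congr 1; ring
          have hle : powComm G 4 ≤ zpowers (⁅x, y⁆ ^ 4) := by
            refine normalClosure_le_normal ?_
            rintro _ ⟨a, ha, rfl⟩
            rw [h2] at ha
            obtain ⟨k, rfl⟩ := ha
            refine ⟨k, ?_⟩
            simp only
            rw [← zpow_natCast, ← zpow_natCast, ← zpow_mul, ← zpow_mul, mul_comm]
          intro t ht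
          obtain ⟨k, hk⟩ := hle ht
          simp only at hk
          refine ⟨⁅x, y⁆ ^ k, Subgroup.zpow_mem _ (comm_mem x y) k, ?_⟩
          rw [← hk, ← zpow_natCast, ← zpow_natCast, ← zpow_mul, ← zpow_mul, mul_comm]
        exact fun t ht => hform t (h1 ht)
  · left
    have h1 := lcs_two_le_powComm_odd hG hp2 hxy hP
    have h2 := commutator_eq_zpowers hG hxy (dvd_refl p) h1
    refine ⟨?_, fun h => absurd h hp2⟩
    rw [h2]; infer_instance

end Pool.Agent.J6H84.ClassPres
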